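import Pool.Agent.Lib.MP_94aef8_gt.Ops

/-!
The operator `P` with a general constant, the potentials, and norms on cubes.
-/

open scoped ContDiff Topology
open Matrix Filter Set MeasureTheory

namespace Pool.Agent.Lib.MP_94aef8_gt

/-- The operator `lich + 2 μ`; `PP = Pop 3`, and `μ = 3 σ ^ 2` in a patch of scale `σ`. -/
noncomputable def Pop (μ : ℝ) (G h : Tn) : Tn := fun p => lich G h p + (2 * μ) • h p

/-- The potential of the Koiso form `- ⟨R° k, k⟩ + ⟨Ric k, k⟩ + 6 |k|^2` at `p`. -/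
noncomputable def koi (G : Tn) (p : E4) (k : Mat) : ℝ :=
  -ipM (G p) (rring G (fun _ => k) p) k + ipM (G p) (ric G p * (G p)⁻¹ * k) k + 6 * ipM (G p) k k

/-- The zero order part `- 2 ⟨R° k, k⟩ + 2 ⟨Ric k, k⟩ + 6 |k|^2` of `⟨P k, k⟩` at `p`. -/
noncomputable def pot (G : Tn) (p : E4) (k : Mat) : ℝ :=
  -2 * ipM (G p) (rring G (fun _ => k) p) k + 2 * ipM (G p) (ric G p * (G p)⁻¹ * k) k +
    6 * ipM (G p) k k

/-- The open cube of radius `r`. -/
def Q (r : ℝ) : Set E4 := {y | ∀ i, |y i| < r}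

/-- Square of the Sobolev norm of order `j` on `S`. -/
noncomputable def hs : ℕ → Set E4 → (E4 → ℝ) → ℝ
  | 0, S, f => ∫ y in S, f y ^ 2
  | j + 1, S, f => (∫ y in S, f y ^ 2) + ∑ i, hs j S (pd i f)

/-- Square of the Sobolev norm of a matrix valued function. -/
noncomputable def hsM (j : ℕ) (S : Set E4) (h : Tn) : ℝ :=
  ∑ a, ∑ b, hs j S fun y => h y a b

/-- All derivatives of order at most `j` are bounded by `B` on `S`. -/
def Cb (j : ℕ) (S : Set E4) (f : E4 → ℝ) (B : ℝ) : Prop :=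
  ∀ w : List (Fin 4), w.length ≤ j → ∀ y ∈ S, |pdw w f y| ≤ B

/-- Entrywise version of `Cb`. -/
def CbM (j : ℕ) (S : Set E4) (h : Tn) (B : ℝ) : Prop := ∀ a b, Cb j S (fun y => h y a b) B

/-- A metric on the cube `Q 3` with ellipticity constant and bounds up to order 12 given by `C`. -/
structure GoodB (C : ℝ) (G : Tn) : Prop where
  good : Good G (Q 3)
  ell : ∀ y ∈ Q 3, ∀ v : Fin 4 → ℝ, v ⬝ᵥ v ≤ C * (v ⬝ᵥ G y *ᵥ v)
  bdd : CbM 12 (Q 3) G C

end Pool.Agent.Lib.MP_94aef8_gt
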