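import Pool.Agent.Lib.MP_94aef8_gt.CapBasic

/-! The bubble patches of a cap. -/

open scoped Manifold ContDiff Topology

namespace Pool.Agent.Lib.MP_94aef8_gt.Cap

theorem CapBub_sgn_sq (b : Bool) : sgn b * sgn b = 1 := by
  cases b <;> simp [sgn]

theorem CapBub_normSq_mul (t a c : ℝ) :
    Complex.normSq ((t : ℂ) * cx a c) = t ^ 2 * (a ^ 2 + c ^ 2) := by
  rw [map_mul, normSq_cx, Complex.normSq_ofReal]
  ring

theorem rad_EBub {ε : ℝ} (h0 : 0 < ε) (b : Bool) (j : ℤ) (y : R4) :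
    rad j (EBub ε b j y).1 (EBub ε b j y).2.2 = ε * (1 + (y 0 ^ 2 + y 1 ^ 2)) := by
  have hR : 0 ≤ ε * (1 + (y 0 ^ 2 + y 1 ^ 2)) := by positivity
  have hq : (1 + (y 2 ^ 2 + y 3 ^ 2)) ≠ 0 := by positivity
  unfold rad
  rw [← Real.sqrt_sq hR]
  congr 1
  simp only [EBub]
  rw [CapBub_normSq_mul, add_sub_cancel_left, mul_pow (sgn b), sq (sgn b), CapBub_sgn_sq]
  field_simp
  ring

theorem contDiff_EBub (ε : ℝ) (b : Bool) (j : ℤ) : ContDiff ℝ ∞ (EBub ε b j) := by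
  have h0 := contDiff_coord 0
  have h1 := contDiff_coord 1
  have h2 := contDiff_coord 2
  have h3 := contDiff_coord 3
  have hq : ∀ y : R4, (1 + (y 2 ^ 2 + y 3 ^ 2)) ≠ 0 := fun y => by positivity
  have hR : ContDiff ℝ ∞ fun y : R4 => ε * (1 + (y 0 ^ 2 + y 1 ^ 2)) :=
    contDiff_const.mul (contDiff_const.add ((h0.pow 2).add (h1.pow 2)))
  have hQ : ContDiff ℝ ∞ fun y : R4 => y 2 ^ 2 + y 3 ^ 2 := (h2.pow 2).add (h3.pow 2)
  have hA : ContDiff ℝ ∞ fun y : R4 =>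
      ε * (1 + (y 0 ^ 2 + y 1 ^ 2)) * (2 / (1 + (y 2 ^ 2 + y 3 ^ 2))) :=
    hR.mul (contDiff_const.div (contDiff_const.add hQ) hq)
  have hB : ContDiff ℝ ∞ fun y : R4 => ε * (1 + (y 0 ^ 2 + y 1 ^ 2)) *
      ((1 - (y 2 ^ 2 + y 3 ^ 2)) / (1 + (y 2 ^ 2 + y 3 ^ 2))) :=
    hR.mul ((contDiff_const.sub hQ).div (contDiff_const.add hQ) hq)
  have hc23 : ContDiff ℝ ∞ fun y : R4 => cx (y 2) (y 3) := contDiff_cx.comp (h2.prodMk h3)
  have hc01 : ContDiff ℝ ∞ fun y : R4 => cx (y 0) (y 1) := contDiff_cx.comp (h0.prodMk h1)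
  have hA' : ContDiff ℝ ∞ fun y : R4 =>
      ((ε * (1 + (y 0 ^ 2 + y 1 ^ 2)) * (2 / (1 + (y 2 ^ 2 + y 3 ^ 2))) : ℝ) : ℂ) :=
    Complex.ofRealCLM.contDiff.comp hA
  unfold EBub
  exact (hA'.mul hc23).prodMk (hc01.prodMk (contDiff_const.add (contDiff_const.mul hB)))

theorem EBub_mem {P : Par} (hP : P.ok) {b : Bool} {j : ℤ} {y : R4}
    (hy : y ∈ capU P (.bub b j)) : capE P (.bub b j) y ∈ Yo P.δ P.ε := by
  obtain ⟨-, hd0, hd1, he0, he1⟩ := hP
  have hy' : y 0 ^ 2 + y 1 ^ 2 < 3 := hy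
  have hr := rad_EBub he0 b j y
  have hw : 0 ≤ y 0 ^ 2 + y 1 ^ 2 := by positivity
  have hR1 : P.ε * (1 + (y 0 ^ 2 + y 1 ^ 2)) ≤ 1 / 10 := by nlinarith
  have hR0 : 0 ≤ P.ε * (1 + (y 0 ^ 2 + y 1 ^ 2)) := by positivity
  change EBub P.ε b j y ∈ Yo P.δ P.ε
  refine ⟨?_, ?_⟩
  · change Complex.normSq (EBub P.ε b j y).2.1 = hyp P.ε (EBub P.ε b j y).1 (EBub P.ε b j y).2.2
    have habs := abs_le_rad j (EBub P.ε b j y).1 (EBub P.ε b j y).2.2
    rw [hyp_eq he0 (by linarith) (j := j) _ (by linarith), hr]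
    have : P.ε * (1 + (y 0 ^ 2 + y 1 ^ 2)) / P.ε - 1 = y 0 ^ 2 + y 1 ^ 2 := by
      field_simp
      ring
    rw [this, alV_low hy'.le]
    exact normSq_cx _ _
  · have hsq := rad_sq j (EBub P.ε b j y).1 (EBub P.ε b j y).2.2
    rw [hr] at hsq
    have hs : Complex.normSq (EBub P.ε b j y).1 ≤ 1 / 100 := by
      nlinarith [sq_nonneg ((EBub P.ε b j y).2.2 - 2 * j)]
    have hs0 := Complex.normSq_nonneg (EBub P.ε b j y).1
    unfold rOf
    have h2 : P.δ ^ 2 * Complex.normSq (EBub P.ε b j y).1 ≤ 1 := by nlinarith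
    nlinarith

/-- The denominator of the stereographic projection. -/
noncomputable def CapBub_den (b : Bool) (j : ℤ) (e : Amb) : ℝ :=
  rad j e.1 e.2.2 + sgn b * (e.2.2 - 2 * j)

/-- The ambient inverse of a bubble patch. -/
noncomputable def CapBub_psi (b : Bool) (j : ℤ) (e : Amb) : R4 :=
  !₂[e.2.1.re, e.2.1.im, e.1.re / CapBub_den b j e, e.1.im / CapBub_den b j e]

theorem CapBub_den_E {ε : ℝ} (h0 : 0 < ε) (b : Bool) (j : ℤ) (y : R4) :
    CapBub_den b j (EBub ε b j y) =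
      ε * (1 + (y 0 ^ 2 + y 1 ^ 2)) * (2 / (1 + (y 2 ^ 2 + y 3 ^ 2))) := by
  have hq : (1 + (y 2 ^ 2 + y 3 ^ 2)) ≠ 0 := by positivity
  unfold CapBub_den
  rw [rad_EBub h0]
  simp only [EBub]
  rw [add_sub_cancel_left, ← mul_assoc (sgn b), CapBub_sgn_sq]
  field_simp
  ring

theorem CapBub_psi_E {ε : ℝ} (h0 : 0 < ε) (b : Bool) (j : ℤ) (y : R4) :
    CapBub_psi b j (EBub ε b j y) = y := by
  have hd : ε * (1 + (y 0 ^ 2 + y 1 ^ 2)) * (2 / (1 + (y 2 ^ 2 + y 3 ^ 2))) ≠ 0 := by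
    positivity
  unfold CapBub_psi
  rw [CapBub_den_E h0]
  have e1 : (EBub ε b j y).2.1.re = y 0 := cx_re _ _
  have e2 : (EBub ε b j y).2.1.im = y 1 := cx_im _ _
  have e3 : (EBub ε b j y).1.re =
      ε * (1 + (y 0 ^ 2 + y 1 ^ 2)) * (2 / (1 + (y 2 ^ 2 + y 3 ^ 2))) * y 2 := by
    simp only [EBub]
    rw [Complex.re_ofReal_mul, cx_re]
  have e4 : (EBub ε b j y).1.im =
      ε * (1 + (y 0 ^ 2 + y 1 ^ 2)) * (2 / (1 + (y 2 ^ 2 + y 3 ^ 2))) * y 3 := by
    simp only [EBub]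
    rw [Complex.im_ofReal_mul, cx_im]
  rw [e1, e2, e3, e4, mul_div_cancel_left₀ _ hd, mul_div_cancel_left₀ _ hd]
  exact mk4_eta y

theorem CapBub_main {ε : ℝ} (h0 : 0 < ε) (h1 : ε ≤ 1 / 40) {e : Amb} (he : e ∈ YY ε) {j : ℤ}
    (h : rad j e.1 e.2.2 < 4 * ε) {b : Bool} (hd : 0 < CapBub_den b j e) :
    CapBub_psi b j e 0 ^ 2 + CapBub_psi b j e 1 ^ 2 < 3 ∧
      CapBub_psi b j e 2 ^ 2 + CapBub_psi b j e 3 ^ 2 =
        (2 * rad j e.1 e.2.2 - CapBub_den b j e) / CapBub_den b j e ∧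
      EBub ε b j (CapBub_psi b j e) = e := by
  obtain ⟨X, W, z⟩ := e
  have hr0 : 0 < rad j X z := lt_of_lt_of_le h0 (le_rad_of_mem h0 he j)
  have habs := abs_le_rad j X z
  have hsq := rad_sq j X z
  simp only at h
  have hv : rad j X z / ε - 1 < 3 := by
    rw [sub_lt_iff_lt_add, div_lt_iff₀ h0]
    linarith
  have hW : W.re ^ 2 + W.im ^ 2 = rad j X z / ε - 1 := by
    have h2 : Complex.normSq W = hyp ε X z := he
    rw [hyp_eq h0 (by linarith) (j := j) _ (by linarith), alV_low hv.le,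
      Complex.normSq_apply] at h2
    rw [← h2]
    ring
  have hden : CapBub_den b j (X, W, z) = rad j X z + sgn b * (z - 2 * j) := rfl
  set d := CapBub_den b j (X, W, z) with hdd
  set r := rad j X z with hrr
  have p0 : CapBub_psi b j (X, W, z) 0 = W.re := rfl
  have p1 : CapBub_psi b j (X, W, z) 1 = W.im := rfl
  have p2 : CapBub_psi b j (X, W, z) 2 = X.re / d := rfl
  have p3 : CapBub_psi b j (X, W, z) 3 = X.im / d := rfl
  have hs : X.re ^ 2 + X.im ^ 2 = d * (2 * r - d) := by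
    rw [Complex.normSq_apply] at hsq
    have h3 := CapBub_sgn_sq b
    rw [hden]
    linear_combination (-1 : ℝ) * hsq + (z - 2 * j) ^ 2 * h3
  have hq : (X.re / d) ^ 2 + (X.im / d) ^ 2 = (2 * r - d) / d := by
    rw [div_pow, div_pow, ← add_div, hs]
    field_simp
  have hR : ε * (1 + (W.re ^ 2 + W.im ^ 2)) = r := by
    rw [hW]
    field_simp
    ring
  have h1q : 1 + (2 * r - d) / d = 2 * r / d := by
    field_simp
    ring
  refine ⟨by rw [p0, p1, hW]; exact hv, by rw [p2, p3, hq], ?_⟩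
  unfold EBub
  rw [p0, p1, p2, p3, hq, hR, h1q, cx_re_im]
  have hA : r * (2 / (2 * r / d)) = d := by field_simp
  have hB : r * ((1 - (2 * r - d) / d) / (2 * r / d)) = sgn b * (z - 2 * j) := by
    have : sgn b * (z - 2 * j) = d - r := by rw [hden]; ring
    rw [this]
    field_simp
    ring
  rw [hA, hB, ← mul_assoc, CapBub_sgn_sq]
  refine Prod.ext ?_ (Prod.ext rfl ?_)
  · apply Complex.ext
    · rw [Complex.re_ofReal_mul, cx_re]
      field_simp
    · rw [Complex.im_ofReal_mul, cx_im]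
      field_simp
  · simp

theorem CapBub_continuous_rad (j : ℤ) : Continuous fun e : Amb => rad j e.1 e.2.2 :=
  (continuous_rad j).comp (continuous_fst.prodMk (continuous_snd.comp continuous_snd))

theorem CapBub_continuous_den (b : Bool) (j : ℤ) : Continuous (CapBub_den b j) :=
  (CapBub_continuous_rad j).add
    (continuous_const.mul ((continuous_snd.comp continuous_snd).sub continuous_const))

theorem EBub_inv {P : Par} (hP : P.ok) {b : Bool} {j : ℤ} {y : R4}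
    (hy : y ∈ capU P (.bub b j)) : ∃ ψ, AmbInv P.ε (capE P (.bub b j)) y ψ := by
  obtain ⟨-, -, -, he0, he1⟩ := hP
  have hy' : y 0 ^ 2 + y 1 ^ 2 < 3 := hy
  have hr := rad_EBub he0 b j y
  have hr0 : 0 < rad j (EBub P.ε b j y).1 (EBub P.ε b j y).2.2 := by rw [hr]; positivity
  have hd0 : 0 < CapBub_den b j (EBub P.ε b j y) := by rw [CapBub_den_E he0]; positivity
  refine ⟨CapBub_psi b j, ?_, ?_, ?_⟩
  · change ContDiffAt ℝ ∞ (CapBub_psi b j) (EBub P.ε b j y)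
    have hz : ContDiff ℝ ∞ fun e : Amb => e.2.2 := contDiff_snd.comp contDiff_snd
    have hW : ContDiff ℝ ∞ fun e : Amb => e.2.1 := contDiff_fst.comp contDiff_snd
    have hrad : ContDiffAt ℝ ∞ (fun e : Amb => rad j e.1 e.2.2) (EBub P.ε b j y) :=
      ContDiffAt.comp (g := fun q : ℂ × ℝ => rad j q.1 q.2) (f := fun e : Amb => (e.1, e.2.2))
        (EBub P.ε b j y) (rad_smooth hr0) (contDiff_fst.prodMk hz).contDiffAt
    have hden : ContDiffAt ℝ ∞ (CapBub_den b j) (EBub P.ε b j y) :=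
      hrad.add (contDiff_const.mul (hz.sub contDiff_const)).contDiffAt
    exact contDiffAt_mk4 (Complex.reCLM.contDiff.comp hW).contDiffAt
      (Complex.imCLM.contDiff.comp hW).contDiffAt
      ((Complex.reCLM.contDiff.comp contDiff_fst).contDiffAt.div hden hd0.ne')
      ((Complex.imCLM.contDiff.comp contDiff_fst).contDiffAt.div hden hd0.ne')
  · exact Filter.Eventually.of_forall fun z => CapBub_psi_E he0 b j z
  · change ∀ᶠ e in 𝓝 (EBub P.ε b j y), e ∈ YY P.ε → EBub P.ε b j (CapBub_psi b j e) = e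
    have hlt : rad j (EBub P.ε b j y).1 (EBub P.ε b j y).2.2 < 4 * P.ε := by
      rw [hr]
      nlinarith
    have e1 : ∀ᶠ e : Amb in 𝓝 (EBub P.ε b j y), rad j e.1 e.2.2 < 4 * P.ε :=
      (CapBub_continuous_rad j).continuousAt.eventually_lt continuousAt_const hlt
    have e2 : ∀ᶠ e : Amb in 𝓝 (EBub P.ε b j y), 0 < CapBub_den b j e :=
      continuousAt_const.eventually_lt (CapBub_continuous_den b j).continuousAt hd0
    filter_upwards [e1, e2] with e h1 h2 he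
    exact (CapBub_main he0 he1 he h1 h2).2.2

theorem EBub_onto {P : Par} (hP : P.ok) {e : Amb} (he : e ∈ YY P.ε) {j : ℤ}
    (h : rad j e.1 e.2.2 < 4 * P.ε) :
    ∃ b, ∃ y ∈ capU P (.bub b j), y 2 ^ 2 + y 3 ^ 2 ≤ 1 ∧ capE P (.bub b j) y = e := by
  obtain ⟨-, -, -, he0, he1⟩ := hP
  have hr0 : 0 < rad j e.1 e.2.2 := lt_of_lt_of_le he0 (le_rad_of_mem he0 he j)
  obtain ⟨b, hb⟩ : ∃ b : Bool, 0 ≤ sgn b * (e.2.2 - 2 * j) := by
    rcases le_total 0 (e.2.2 - 2 * j) with h1 | h1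
    · exact ⟨true, by simpa [sgn] using h1⟩
    · exact ⟨false, by simpa [sgn] using h1⟩
  have hge : rad j e.1 e.2.2 ≤ CapBub_den b j e := by
    unfold CapBub_den
    linarith
  have hd : 0 < CapBub_den b j e := lt_of_lt_of_le hr0 hge
  obtain ⟨h1, h2, h3⟩ := CapBub_main he0 he1 he h hd
  refine ⟨b, CapBub_psi b j e, h1, ?_, h3⟩
  rw [h2, div_le_one hd]
  linarith

end Pool.Agent.Lib.MP_94aef8_gt.Cap
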