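import Pool.Agent.Lib.MP_94aef8_gt.CapBasic

/-! The middle patch of a cap. -/

open scoped Manifold ContDiff Topology

namespace Pool.Agent.Lib.MP_94aef8_gt.Cap

theorem capMid_normSq (δ ε : ℝ) (j : ℤ) (y : R4) :
    Complex.normSq (EMid δ ε j y).1 = (y 0 ^ 2 + y 1 ^ 2) / δ ^ 2 := by
  simp only [EMid, map_div₀, normSq_cx, Complex.normSq_ofReal, pow_two δ]

theorem capMid_z (δ ε : ℝ) (j : ℤ) (y : R4) : (EMid δ ε j y).2.2 - 2 * j = y 2 / δ := by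
  simp only [EMid]
  ring

theorem rad_EMid {δ : ℝ} (h0 : 0 < δ) (ε : ℝ) (j : ℤ) (y : R4) :
    rad j (EMid δ ε j y).1 (EMid δ ε j y).2.2 = Real.sqrt (y 0 ^ 2 + y 1 ^ 2 + y 2 ^ 2) / δ := by
  rw [rad, capMid_normSq, capMid_z, div_pow, ← add_div, Real.sqrt_div' _ (sq_nonneg δ),
    Real.sqrt_sq h0.le]

theorem capMid_pos {a s : ℝ} (ha : 0 < a) (h : a ^ 2 < s) : 0 < alV (Real.sqrt s / a - 1) := by
  rw [alV_pos_iff, sub_pos, one_lt_div ha]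
  exact Real.lt_sqrt_of_sq_lt h

theorem capMid_abs {P : Par} (hP : P.ok) {j : ℤ} {y : R4} (hy : y ∈ capU P (.mid j)) :
    |(EMid P.δ P.ε j y).2.2 - 2 * j| < 9 / 5 := by
  rw [capMid_z, abs_div, abs_of_pos hP.2.1, div_lt_iff₀ hP.2.1]
  exact hy.2.1

theorem EMid_smooth {P : Par} (hP : P.ok) {j : ℤ} {y : R4} (hy : y ∈ capU P (.mid j)) :
    ContDiffAt ℝ ∞ (capE P (.mid j)) y := by
  have ha : 0 < P.ε * P.δ := mul_pos hP.2.2.2.1 hP.2.1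
  have hc := fun i => (contDiff_coord i).contDiffAt (x := y)
  have h1 : ContDiffAt ℝ ∞ (fun y : R4 =>
      Real.sqrt (alV (Real.sqrt (y 0 ^ 2 + y 1 ^ 2 + y 2 ^ 2) / (P.ε * P.δ) - 1))) y := by
    refine ContDiffAt.sqrt (contDiff_alV.contDiffAt.comp y ?_) (capMid_pos ha hy.2.2).ne'
    exact ((((((hc 0).pow 2).add ((hc 1).pow 2)).add ((hc 2).pow 2)).sqrt
      ((pow_pos ha 2).trans hy.2.2).ne').div_const _).sub contDiffAt_const
  refine ContDiffAt.prodMk ?_ (ContDiffAt.prodMk ?_ ?_)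
  · exact (contDiff_cx.contDiffAt.comp y ((hc 0).prodMk (hc 1))).div_const _
  · exact (Complex.ofRealCLM.contDiff.contDiffAt.comp y h1).mul
      (contDiff_cis.contDiffAt.comp y ((hc 3).div_const _))
  · exact contDiffAt_const.add ((hc 2).div_const _)

theorem EMid_mem {P : Par} (hP : P.ok) {j : ℤ} {y : R4} (hy : y ∈ capU P (.mid j)) :
    capE P (.mid j) y ∈ Yo P.δ P.ε := by
  have h0 := hP.2.1
  have h1 := hP.2.2.1
  have ha : 0 < P.ε * P.δ := mul_pos hP.2.2.2.1 h0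
  refine ⟨?_, ?_⟩
  · change Complex.normSq (EMid P.δ P.ε j y).2.1 =
      hyp P.ε (EMid P.δ P.ε j y).1 (EMid P.δ P.ε j y).2.2
    rw [hyp_eq' hP.2.2.2.1 hP.2.2.2.2 _ (capMid_abs hP hy).le, rad_EMid h0, div_div,
      mul_comm P.δ]
    simp only [EMid, map_mul, normSq_cis, mul_one, Complex.normSq_ofReal]
    exact Real.mul_self_sqrt (capMid_pos ha hy.2.2).le
  · change P.δ * rOf P.δ (EMid P.δ P.ε j y).1 < 1 / 2
    rw [rOf, capMid_normSq, mul_assoc, mul_div_cancel₀ _ (pow_pos h0 2).ne']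
    have h2 := hy.1
    nlinarith

theorem capMid_sq (δ : ℝ) (X : ℂ) (u : ℝ) :
    (δ * X.re) ^ 2 + (δ * X.im) ^ 2 + (δ * u) ^ 2 = δ ^ 2 * (Complex.normSq X + u ^ 2) := by
  rw [Complex.normSq_apply]
  ring

theorem capMid_E {P : Par} (hP : P.ok) {e : Amb} (he : e ∈ YY P.ε) {j : ℤ}
    (hj : |e.2.2 - 2 * j| < 9 / 5) {t : ℝ}
    (ht : (Real.sqrt (Complex.normSq e.2.1) : ℂ) * cis t = e.2.1) :
    EMid P.δ P.ε j !₂[P.δ * e.1.re, P.δ * e.1.im, P.δ * (e.2.2 - 2 * j), 2 * (P.ε * P.δ) * t] =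
      e := by
  have h0 := hP.2.1
  have h1 := hP.2.2.2.1
  have h2 : (P.δ : ℂ) ≠ 0 := Complex.ofReal_ne_zero.2 h0.ne'
  refine Prod.ext ?_ (Prod.ext ?_ ?_)
  · change cx (P.δ * e.1.re) (P.δ * e.1.im) / P.δ = e.1
    rw [div_eq_iff h2, cx]
    conv_rhs => rw [← Complex.re_add_im e.1]
    push_cast
    ring
  · change (Real.sqrt (alV (Real.sqrt ((P.δ * e.1.re) ^ 2 + (P.δ * e.1.im) ^ 2 +
      (P.δ * (e.2.2 - 2 * j)) ^ 2) / (P.ε * P.δ) - 1)) : ℂ) *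
        cis (2 * (P.ε * P.δ) * t / (2 * (P.ε * P.δ))) = e.2.1
    rw [capMid_sq, Real.sqrt_mul (sq_nonneg _), Real.sqrt_sq h0.le, mul_comm P.ε,
      mul_div_mul_left _ _ h0.ne', mul_div_cancel_left₀ _ (by positivity), ← rad,
      ← hyp_eq' h1 hP.2.2.2.2 _ hj.le, ← he, ht]
  · change 2 * j + P.δ * (e.2.2 - 2 * j) / P.δ = e.2.2
    rw [mul_div_cancel_left₀ _ h0.ne']
    ring

theorem EMid_inv {P : Par} (hP : P.ok) {j : ℤ} {y : R4} (hy : y ∈ capU P (.mid j)) :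
    ∃ ψ, AmbInv P.ε (capE P (.mid j)) y ψ := by
  have h0 := hP.2.1
  have ha : 0 < P.ε * P.δ := mul_pos hP.2.2.2.1 h0
  obtain ⟨θ, h1, h2, h3⟩ := exists_arg (Real.sqrt_pos.2 (capMid_pos ha hy.2.2))
    (y 3 / (2 * (P.ε * P.δ)))
  have hc := fun i => (contDiff_coord i).continuous
  refine ⟨fun e => !₂[P.δ * e.1.re, P.δ * e.1.im, P.δ * (e.2.2 - 2 * j),
    2 * (P.ε * P.δ) * θ e.2.1], contDiffAt_mk4 ?_ ?_ ?_ ?_, ?_, ?_⟩
  · exact contDiffAt_const.mul (Complex.reCLM.contDiff.contDiffAt.comp _ contDiffAt_fst)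
  · exact contDiffAt_const.mul (Complex.imCLM.contDiff.contDiffAt.comp _ contDiffAt_fst)
  · exact contDiffAt_const.mul (contDiffAt_snd.snd.sub contDiffAt_const)
  · exact contDiffAt_const.mul (ContDiffAt.comp (g := θ) _ h1 contDiffAt_snd.fst)
  · have h4 : ∀ᶠ z : R4 in 𝓝 y, (P.ε * P.δ) ^ 2 < z 0 ^ 2 + z 1 ^ 2 + z 2 ^ 2 :=
      (isOpen_lt continuous_const
        ((((hc 0).pow 2).add ((hc 1).pow 2)).add ((hc 2).pow 2))).mem_nhds hy.2.2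
    filter_upwards [h4, (((hc 3).div_const (2 * (P.ε * P.δ))).tendsto y).eventually h3]
      with z hz hz'
    change (!₂[P.δ * (cx (z 0) (z 1) / P.δ).re, P.δ * (cx (z 0) (z 1) / P.δ).im,
      P.δ * ((EMid P.δ P.ε j z).2.2 - 2 * j), 2 * (P.ε * P.δ) * θ (_ * cis _)] : R4) = z
    rw [hz' _ (Real.sqrt_pos.2 (capMid_pos ha hz)), capMid_z, Complex.div_ofReal_re,
      Complex.div_ofReal_im, cx_re, cx_im, mul_div_cancel₀ _ h0.ne', mul_div_cancel₀ _ h0.ne',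
      mul_div_cancel₀ _ h0.ne', mul_div_cancel₀ _ (by positivity), mk4_eta]
  · have h4 : ∀ᶠ e : Amb in 𝓝 (capE P (.mid j) y), |e.2.2 - 2 * j| < 9 / 5 :=
      (isOpen_lt ((continuous_snd.snd.sub continuous_const).abs) continuous_const).mem_nhds
        (capMid_abs hP hy)
    filter_upwards [h4] with e h5 he
    exact capMid_E hP he h5 (h2 _)

theorem EMid_onto {P : Par} (hP : P.ok) {e : Amb} (he : e ∈ YY P.ε) (h : rOf P.δ e.1 < 3)
    {j : ℤ} (hj : |e.2.2 - 2 * j| < 9 / 5) (hW : e.2.1 ≠ 0) :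
    ∃ y ∈ capU P (.mid j), capE P (.mid j) y = e := by
  have h0 := hP.2.1
  have h1 := hP.2.2.2.1
  obtain ⟨θ, -, h2, -⟩ := exists_arg one_pos 0
  refine ⟨_, ⟨?_, ?_, ?_⟩, capMid_E hP he hj (h2 _)⟩
  · change (P.δ * e.1.re) ^ 2 + (P.δ * e.1.im) ^ 2 < 8 / 3
    rw [rOf, Complex.normSq_apply] at h
    linarith
  · change |P.δ * (e.2.2 - 2 * j)| < 9 / 5 * P.δ
    rw [abs_mul, abs_of_pos h0, mul_comm]
    exact mul_lt_mul_of_pos_right hj h0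
  · change (P.ε * P.δ) ^ 2 <
      (P.δ * e.1.re) ^ 2 + (P.δ * e.1.im) ^ 2 + (P.δ * (e.2.2 - 2 * j)) ^ 2
    have h3 : 0 < hyp P.ε e.1 e.2.2 := he ▸ Complex.normSq_pos.2 hW
    rw [capMid_sq, ← rad_sq, ← mul_pow, mul_comm P.ε]
    exact pow_lt_pow_left₀ (mul_lt_mul_of_pos_left ((hyp_pos_iff h1).1 h3 j) h0)
      (by positivity) two_ne_zero

end Pool.Agent.Lib.MP_94aef8_gt.Cap
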