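import Pool.Agent.Lib.MP_94aef8_gt.CapOm
import Pool.Agent.Lib.MP_94aef8_gt.CapMid
import Pool.Agent.Lib.MP_94aef8_gt.CapBub

/-! The patches of a cap form an atlas of the hypersurface. -/

open scoped Manifold ContDiff Topology

namespace Pool.Agent.Lib.MP_94aef8_gt.Cap

theorem isOpen_capU {P : Par} (hP : P.ok) (a : CP) : IsOpen (capU P a) := by
  have _ := hP
  have c : ∀ i : Fin 4, Continuous fun y : R4 => y i := fun i => (contDiff_coord i).continuous
  cases a with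
  | om => exact (isOpen_lt continuous_const (c 3)).inter (isOpen_lt (c 3) continuous_const)
  | mid j =>
    exact (isOpen_lt (((c 0).pow 2).add ((c 1).pow 2)) continuous_const).inter
      ((isOpen_lt (c 2).abs continuous_const).inter
        (isOpen_lt continuous_const ((((c 0).pow 2).add ((c 1).pow 2)).add ((c 2).pow 2))))
  | bub b j => exact isOpen_lt (((c 0).pow 2).add ((c 1).pow 2)) continuous_const

theorem capE_smooth {P : Par} (hP : P.ok) {a : CP} {y : R4} (hy : y ∈ capU P a) :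
    ContDiffAt ℝ ∞ (capE P a) y := by
  cases a with
  | om => exact EOm_smooth hP hy
  | mid j => exact EMid_smooth hP hy
  | bub b j => exact (contDiff_EBub P.ε b j).contDiffAt

theorem capE_mem {P : Par} (hP : P.ok) {a : CP} {y : R4} (hy : y ∈ capU P a) :
    capE P a y ∈ Yo P.δ P.ε := by
  cases a with
  | om => exact EOm_mem hP hy
  | mid j => exact EMid_mem hP hy
  | bub b j => exact EBub_mem hP hy

theorem capE_inv {P : Par} (hP : P.ok) {a : CP} {y : R4} (hy : y ∈ capU P a) :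
    ∃ ψ, AmbInv P.ε (capE P a) y ψ := by
  cases a with
  | om => exact EOm_inv hP hy
  | mid j => exact EMid_inv hP hy
  | bub b j => exact EBub_inv hP hy

theorem capE_cover {P : Par} (hP : P.ok) {e : Amb} (he : e ∈ Yo P.δ P.ε) :
    ∃ a, ∃ y ∈ capU P a, capE P a y = e := by
  obtain ⟨-, d0, d1, e0, -⟩ := id hP
  by_cases h : hgt P.δ e < ytop P.δ
  · exact ⟨_, EOm_onto hP he h⟩
  rw [hgt_lt_top_iff d0, not_lt] at h
  by_cases hW : e.2.1 = 0
  · have h1 : Complex.normSq e.2.1 = alV (rad (round (e.2.2 / 2)) e.1 e.2.2 / P.ε - 1) := he.1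
    rw [hW, map_zero] at h1
    have h2 : ¬ 0 < rad (round (e.2.2 / 2)) e.1 e.2.2 / P.ε - 1 := fun h2 =>
      (alV_pos_iff.2 h2).ne h1
    rw [not_lt, sub_nonpos, div_le_one e0] at h2
    obtain ⟨b, y, hy, -, h3⟩ := EBub_onto hP he.1 (j := round (e.2.2 / 2)) (by linarith)
    exact ⟨_, y, hy, h3⟩
  · refine ⟨_, EMid_onto hP he.1 ?_ (j := round (e.2.2 / 2))
      ((abs_sub_round_le _).trans_lt (by norm_num)) hW⟩
    have h1 : P.δ ^ 2 ≤ 1 := by nlinarith
    have h2 := mul_le_mul h1 h (Complex.normSq_nonneg _) zero_le_one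
    rw [rOf]
    linarith

/-- The transition maps between the patches of a cap. -/
theorem cap_trans {P : Par} (hP : P.ok) {a a' : CP} {y y' : R4} (hy : y ∈ capU P a)
    (hy' : y' ∈ capU P a') {m : ℤ} (h : capE P a' y' = sh (2 * m) (capE P a y)) :
    ∃ φ : R4 → R4, ContDiffAt ℝ ∞ φ y ∧ φ y = y' ∧
      ∀ᶠ z in 𝓝 y, φ z ∈ capU P a' ∧ capE P a' (φ z) = sh (2 * m) (capE P a z) := by
  obtain ⟨ψ, h1, h2, h3⟩ := capE_inv hP hy'
  have g1 : ContDiffAt ℝ ∞ (fun z => sh (2 * m) (capE P a z)) y :=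
    (contDiff_sh _).contDiffAt.comp y (capE_smooth hP hy)
  have h4 := h2.self_of_nhds
  rw [h] at h1 h3 h4
  have g2 : ContDiffAt ℝ ∞ (fun z => ψ (sh (2 * m) (capE P a z))) y := h1.comp y g1
  refine ⟨_, g2, h4, ?_⟩
  have g3 : ∀ᶠ z in 𝓝 y, ψ (sh (2 * m) (capE P a z)) ∈ capU P a' :=
    g2.continuousAt.eventually ((isOpen_capU hP a').mem_nhds (h4.symm ▸ hy' : ψ _ ∈ _))
  filter_upwards [g3, g1.continuousAt.eventually h3, (isOpen_capU hP a).mem_nhds hy]
    with z a1 a2 a3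
  exact ⟨a1, a2 ((sh_mem_YY m).2 (capE_mem hP a3).1)⟩

/-- The patches are locally injective modulo the translations. -/
theorem cap_inj {P : Par} (hP : P.ok) {a : CP} {y : R4} (hy : y ∈ capU P a) :
    ∃ V ∈ 𝓝 y, ∀ z ∈ V, ∀ z' ∈ V, ∀ m : ℤ,
      capE P a z' = sh (2 * m) (capE P a z) → z' = z := by
  obtain ⟨ψ, -, h2, -⟩ := capE_inv hP hy
  have g1 : ContinuousAt (fun z => (capE P a z).2.2) y := (capE_smooth hP hy).continuousAt.snd.snd
  have g2 : ∀ᶠ z in 𝓝 y, |(capE P a z).2.2 - (capE P a y).2.2| < 1 :=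
    Metric.tendsto_nhds.1 g1 1 one_pos
  refine ⟨_, h2.and g2, fun z hz z' hz' m h => ?_⟩
  have a1 : (capE P a z').2.2 = (capE P a z).2.2 + 2 * m := congrArg (fun e => e.2.2) h
  have a2 := abs_lt.1 hz.2
  have a3 := abs_lt.1 hz'.2
  have a4 : (m : ℝ) < 1 := by linarith [a2.1, a3.2]
  have a5 : (-1 : ℝ) < m := by linarith [a2.2, a3.1]
  have a6 : m < 1 := by exact_mod_cast a4
  have a7 : -1 < m := by exact_mod_cast a5
  have a8 : m = 0 := by omega
  rw [a8, Int.cast_zero, mul_zero, sh_zero] at h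
  rw [← hz.1, ← h, hz'.1]

end Pool.Agent.Lib.MP_94aef8_gt.Cap
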