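import Pool.Agent.Lib.MP_94aef8_gt.CapDefs

/-! Basic facts on the profile function of the caps. -/

open scoped Manifold ContDiff Topology

namespace Pool.Agent.Lib.MP_94aef8_gt.Cap

theorem one_le_phiV (v : ℝ) : 1 ≤ phiV v := by
  unfold phiV cutV
  rcases le_total v 3 with h | h
  · rw [Real.smoothTransition.zero_of_nonpos (by linarith)]; simp
  · have := Real.smoothTransition.nonneg (v - 3)
    nlinarith

theorem phiV_pos (v : ℝ) : 0 < phiV v := lt_of_lt_of_le one_pos (one_le_phiV v)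

theorem contDiff_phiV : ContDiff ℝ ∞ phiV := by
  have h : ContDiff ℝ ∞ cutV :=
    Real.smoothTransition.contDiff.comp (contDiff_id.sub contDiff_const)
  exact (contDiff_const.sub h).add (h.mul contDiff_id)

theorem contDiff_alV : ContDiff ℝ ∞ alV :=
  contDiff_id.div contDiff_phiV fun v => (phiV_pos v).ne'

theorem alV_mul (v : ℝ) : alV v * phiV v = v := div_mul_cancel₀ _ (phiV_pos v).ne'

theorem alV_low {v : ℝ} (h : v ≤ 3) : alV v = v := by
  unfold alV phiV cutV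
  rw [Real.smoothTransition.zero_of_nonpos (by linarith)]; simp

theorem alV_high {v : ℝ} (h : 4 ≤ v) : alV v = 1 := by
  unfold alV phiV cutV
  rw [Real.smoothTransition.one_of_one_le (by linarith)]
  have : v ≠ 0 := by linarith
  simp [this]

theorem alV_pos_iff {v : ℝ} : 0 < alV v ↔ 0 < v := div_pos_iff_of_pos_right (phiV_pos v)

theorem alV_nonneg_iff {v : ℝ} : 0 ≤ alV v ↔ 0 ≤ v := by
  unfold alV
  rw [le_div_iff₀ (phiV_pos v), zero_mul]

theorem alV_le (v : ℝ) : alV v ≤ 4 := by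
  rcases le_total v 4 with h | h
  · unfold alV
    rw [div_le_iff₀ (phiV_pos v)]
    have := one_le_phiV v
    linarith
  · rw [alV_high h]; norm_num

theorem alV_far {ε r : ℝ} (h0 : 0 < ε) (h : 5 * ε ≤ r) : alV (r / ε - 1) = 1 := by
  refine alV_high ?_
  have : 5 ≤ r / ε := by rwa [le_div_iff₀ h0]
  linarith

theorem contDiff_normSq : ContDiff ℝ ∞ fun X : ℂ => Complex.normSq X := by
  simp only [Complex.normSq_apply]
  exact (Complex.reCLM.contDiff.mul Complex.reCLM.contDiff).add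
    (Complex.imCLM.contDiff.mul Complex.imCLM.contDiff)

theorem rad_nonneg (j : ℤ) (X : ℂ) (z : ℝ) : 0 ≤ rad j X z := Real.sqrt_nonneg _

theorem rad_sq (j : ℤ) (X : ℂ) (z : ℝ) :
    rad j X z ^ 2 = Complex.normSq X + (z - 2 * j) ^ 2 :=
  Real.sq_sqrt (add_nonneg (Complex.normSq_nonneg X) (sq_nonneg _))

theorem abs_le_rad (j : ℤ) (X : ℂ) (z : ℝ) : |z - 2 * j| ≤ rad j X z :=
  Real.abs_le_sqrt (by have := Complex.normSq_nonneg X; linarith)

theorem rad_smooth {j : ℤ} {X : ℂ} {z : ℝ} (h : 0 < rad j X z) :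
    ContDiffAt ℝ ∞ (fun q : ℂ × ℝ => rad j q.1 q.2) (X, z) := by
  have h1 : ContDiff ℝ ∞ fun q : ℂ × ℝ => Complex.normSq q.1 + (q.2 - 2 * j) ^ 2 :=
    (contDiff_normSq.comp contDiff_fst).add ((contDiff_snd.sub contDiff_const).pow 2)
  refine h1.contDiffAt.sqrt ?_
  exact (Real.sqrt_pos.1 h).ne'

theorem continuous_rad (j : ℤ) : Continuous fun q : ℂ × ℝ => rad j q.1 q.2 := by
  unfold rad
  fun_prop

theorem abs_sub_round_le (z : ℝ) : |z - 2 * (round (z / 2) : ℤ)| ≤ 1 := by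
  have h := abs_sub_round (z / 2)
  have : z - 2 * (round (z / 2) : ℤ) = 2 * (z / 2 - (round (z / 2) : ℤ)) := by ring
  rw [this, abs_mul, abs_two]
  linarith

theorem round_eq_of_lt {z : ℝ} {j : ℤ} (h : |z - 2 * j| < 1) : round (z / 2) = j := by
  rw [round_eq, Int.floor_eq_iff]
  rw [abs_lt] at h
  constructor <;> linarith [h.1, h.2]

theorem rad_round_le (j : ℤ) (X : ℂ) (z : ℝ) : rad (round (z / 2)) X z ≤ rad j X z := by
  unfold rad
  apply Real.sqrt_le_sqrt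
  have h := round_le (z / 2) j
  have h2 : (z / 2 - (round (z / 2) : ℤ)) ^ 2 ≤ (z / 2 - j) ^ 2 := sq_le_sq.2 h
  nlinarith

theorem hyp_eq {ε : ℝ} (h0 : 0 < ε) (h1 : ε ≤ 1 / 10) {j : ℤ} (X : ℂ) {z : ℝ}
    (h : |z - 2 * j| ≤ 1) : hyp ε X z = alV (rad j X z / ε - 1) := by
  rcases h.lt_or_eq with h | h
  · rw [hyp, round_eq_of_lt h]
  · have h2 : 1 ≤ |z - 2 * (round (z / 2) : ℤ)| := by
      by_contra h3
      push Not at h3
      rw [abs_lt] at h3
      rcases abs_eq (by norm_num : (0 : ℝ) ≤ 1) |>.1 h with h4 | h4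
      · have a1 : ((round (z / 2) : ℤ) : ℝ) < (j + 1 : ℤ) := by push_cast; linarith [h3.1]
        have a2 : ((j : ℤ) : ℝ) < (round (z / 2) : ℤ) := by linarith [h3.2]
        have := Int.cast_lt.1 a1
        have := Int.cast_lt.1 a2
        omega
      · have a1 : ((round (z / 2) : ℤ) : ℝ) < (j : ℤ) := by linarith [h3.1]
        have a2 : ((j - 1 : ℤ) : ℝ) < (round (z / 2) : ℤ) := by push_cast; linarith [h3.2]
        have := Int.cast_lt.1 a1
        have := Int.cast_lt.1 a2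
        omega
    rw [hyp, alV_far h0 (by linarith [abs_le_rad (round (z / 2)) X z]),
      alV_far h0 (by linarith [abs_le_rad j X z])]

theorem hyp_eq' {ε : ℝ} (h0 : 0 < ε) (h1 : ε ≤ 1 / 40) {j : ℤ} (X : ℂ) {z : ℝ}
    (h : |z - 2 * j| ≤ 9 / 5) : hyp ε X z = alV (rad j X z / ε - 1) := by
  rcases le_total |z - 2 * j| 1 with h2 | h2
  · exact hyp_eq h0 (by linarith) X h2
  · by_cases h3 : round (z / 2) = j
    · rw [hyp, h3]
    · have h4 : 1 / 5 ≤ |z - 2 * (round (z / 2) : ℤ)| := by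
        have a : (1 : ℝ) ≤ |((round (z / 2) : ℤ) : ℝ) - j| := by
          have : (1 : ℤ) ≤ |round (z / 2) - j| := Int.one_le_abs (sub_ne_zero.2 h3)
          exact_mod_cast this
        have b := abs_sub_le (2 * ((round (z / 2) : ℤ) : ℝ)) z (2 * j)
        rw [← mul_sub, abs_mul, abs_two, abs_sub_comm _ z] at b
        linarith
      rw [hyp, alV_far h0 (by linarith [abs_le_rad (round (z / 2)) X z]),
        alV_far h0 (by linarith [abs_le_rad j X z])]

theorem hyp_one' {ε : ℝ} (h0 : 0 < ε) {X : ℂ} (z : ℝ)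
    (h : 25 * ε ^ 2 ≤ Complex.normSq X) : hyp ε X z = 1 := by
  refine alV_far h0 ?_
  apply Real.le_sqrt_of_sq_le
  nlinarith [sq_nonneg (z - 2 * (round (z / 2) : ℤ))]

theorem hyp_one {ε : ℝ} (h0 : 0 < ε) (h1 : ε ≤ 1 / 10) {X : ℂ} (z : ℝ)
    (h : 1 / 4 ≤ Complex.normSq X) : hyp ε X z = 1 := hyp_one' h0 z (by nlinarith)

/-- Near every point the profile is given by one centre, or it is constant. -/
theorem hyp_local {ε : ℝ} (h0 : 0 < ε) (h1 : ε ≤ 1 / 10) (X : ℂ) (z : ℝ) :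
    ((fun q : ℂ × ℝ => hyp ε q.1 q.2) =ᶠ[𝓝 (X, z)]
      fun q => alV (rad (round (z / 2)) q.1 q.2 / ε - 1)) ∨
    (fun q : ℂ × ℝ => hyp ε q.1 q.2) =ᶠ[𝓝 (X, z)] fun _ => 1 := by
  have hc : Continuous fun q : ℂ × ℝ => |q.2 - 2 * (round (z / 2) : ℤ)| := by fun_prop
  rcases (abs_sub_round_le z).lt_or_eq with h | h
  · left
    have : ∀ᶠ q : ℂ × ℝ in 𝓝 (X, z), |q.2 - 2 * (round (z / 2) : ℤ)| < 1 :=
      hc.continuousAt.eventually_lt continuousAt_const h
    filter_upwards [this] with q hq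
    exact hyp_eq h0 h1 _ hq.le
  · right
    have a : ∀ᶠ q : ℂ × ℝ in 𝓝 (X, z), |q.2 - 2 * (round (z / 2) : ℤ)| < 3 / 2 :=
      hc.continuousAt.eventually_lt continuousAt_const (by simp only [h]; norm_num)
    have b : ∀ᶠ q : ℂ × ℝ in 𝓝 (X, z), 1 / 2 < |q.2 - 2 * (round (z / 2) : ℤ)| :=
      continuousAt_const.eventually_lt hc.continuousAt (by simp only [h]; norm_num)
    filter_upwards [a, b] with q ha hb
    have h4 : 1 / 2 ≤ |q.2 - 2 * (round (q.2 / 2) : ℤ)| := by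
      by_cases h3 : round (q.2 / 2) = round (z / 2)
      · rw [h3]; exact hb.le
      · have a : (1 : ℝ) ≤ |((round (q.2 / 2) : ℤ) : ℝ) - (round (z / 2) : ℤ)| := by
          have : (1 : ℤ) ≤ |round (q.2 / 2) - round (z / 2)| := Int.one_le_abs (sub_ne_zero.2 h3)
          exact_mod_cast this
        have b := abs_sub_le (2 * ((round (q.2 / 2) : ℤ) : ℝ)) q.2 (2 * (round (z / 2) : ℤ))
        rw [← mul_sub, abs_mul, abs_two, abs_sub_comm _ q.2] at b
        linarith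
    exact alV_far h0 (by linarith [abs_le_rad (round (q.2 / 2)) q.1 q.2])

theorem hyp_le (ε : ℝ) (X : ℂ) (z : ℝ) : hyp ε X z ≤ 4 := alV_le _

theorem continuous_hyp {ε : ℝ} (h0 : 0 < ε) (h1 : ε ≤ 1 / 10) :
    Continuous fun q : ℂ × ℝ => hyp ε q.1 q.2 := by
  rw [continuous_iff_continuousAt]
  rintro ⟨X, z⟩
  rcases hyp_local h0 h1 X z with h | h
  · refine ContinuousAt.congr ?_ h.symm
    exact (contDiff_alV.continuous.comp
      (((continuous_rad _).div_const ε).sub continuous_const)).continuousAt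
  · exact ContinuousAt.congr continuousAt_const h.symm

theorem isClosed_YY {ε : ℝ} (h0 : 0 < ε) (h1 : ε ≤ 1 / 10) : IsClosed (YY ε) := by
  refine isClosed_eq (by fun_prop) ?_
  exact (continuous_hyp h0 h1).comp (f := fun e : Amb => (e.1, e.2.2)) (by fun_prop)

theorem hyp_two {ε : ℝ} (h0 : 0 < ε) (h1 : ε ≤ 1 / 10) {j : ℤ} (X : ℂ) {z : ℝ}
    (h : |z - (2 * j + 1)| ≤ 1) :
    hyp ε X z = alV (rad j X z / ε - 1) * alV (rad (j + 1) X z / ε - 1) := by
  rw [abs_le] at h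
  rcases le_total z (2 * j + 1) with h2 | h2
  · have a : 1 ≤ |z - 2 * ((j + 1 : ℤ) : ℝ)| := by
      push_cast
      rw [le_abs]; right; linarith
    rw [hyp_eq h0 h1 (j := j) X (by rw [abs_le]; constructor <;> linarith [h.1]),
      alV_far h0 (r := rad (j + 1) X z) (by linarith [abs_le_rad (j + 1) X z]), mul_one]
  · have a : 1 ≤ |z - 2 * (j : ℝ)| := by
      rw [le_abs]; left; linarith
    rw [hyp_eq h0 h1 (j := j + 1) X (by push_cast; rw [abs_le]; constructor <;> linarith [h.2]),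
      alV_far h0 (r := rad j X z) (by linarith [abs_le_rad j X z]), one_mul]

theorem hyp_congr (ε : ℝ) {X X' : ℂ} (z : ℝ) (h : Complex.normSq X = Complex.normSq X') :
    hyp ε X z = hyp ε X' z := by
  unfold hyp rad
  rw [h]

theorem hyp_sh (ε : ℝ) (X : ℂ) (z : ℝ) (m : ℤ) : hyp ε X (z + 2 * m) = hyp ε X z := by
  have h : round ((z + 2 * m) / 2) = round (z / 2) + m := by
    rw [show (z + 2 * m) / 2 = z / 2 + m by ring, round_add_intCast]
  unfold hyp rad
  rw [h]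
  push_cast
  congr 5
  ring

theorem hyp_pos_iff {ε : ℝ} (h0 : 0 < ε) {X : ℂ} {z : ℝ} :
    0 < hyp ε X z ↔ ∀ j : ℤ, ε < rad j X z := by
  rw [hyp, alV_pos_iff, sub_pos, one_lt_div h0]
  exact ⟨fun h j => h.trans_le (rad_round_le j X z), fun h => h _⟩

theorem hyp_nonneg_iff {ε : ℝ} (h0 : 0 < ε) {X : ℂ} {z : ℝ} :
    0 ≤ hyp ε X z ↔ ∀ j : ℤ, ε ≤ rad j X z := by
  rw [hyp, alV_nonneg_iff, sub_nonneg, one_le_div h0]
  exact ⟨fun h j => h.trans (rad_round_le j X z), fun h => h _⟩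

theorem hyp_smooth {ε : ℝ} (h0 : 0 < ε) (h1 : ε ≤ 1 / 10) {X : ℂ} {z : ℝ}
    (h : ∀ j : ℤ, 0 < rad j X z) :
    ContDiffAt ℝ ∞ (fun q : ℂ × ℝ => hyp ε q.1 q.2) (X, z) := by
  rcases hyp_local h0 h1 X z with h2 | h2
  · refine ContDiffAt.congr_of_eventuallyEq ?_ h2
    exact contDiff_alV.contDiffAt.comp _
      (((rad_smooth (h _)).div_const ε).sub contDiffAt_const)
  · exact ContDiffAt.congr_of_eventuallyEq contDiffAt_const h2

theorem le_rad_of_mem {ε : ℝ} (h0 : 0 < ε) {e : Amb} (h : e ∈ YY ε) (j : ℤ) :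
    ε ≤ rad j e.1 e.2.2 := by
  refine (hyp_nonneg_iff h0).1 ?_ j
  rw [← show Complex.normSq e.2.1 = hyp ε e.1 e.2.2 from h]
  exact Complex.normSq_nonneg _

theorem sh_mem_YY {ε : ℝ} {e : Amb} (m : ℤ) : sh (2 * m) e ∈ YY ε ↔ e ∈ YY ε := by
  simp only [YY, sh, Set.mem_ofPred_eq, hyp_sh]

theorem sh_mem_Yo {δ ε : ℝ} {e : Amb} (m : ℤ) : sh (2 * m) e ∈ Yo δ ε ↔ e ∈ Yo δ ε := by
  simp only [Yo, Set.mem_ofPred_eq, sh_mem_YY]
  rfl

theorem sh_sh (t u : ℝ) (e : Amb) : sh t (sh u e) = sh (u + t) e := by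
  simp [sh, add_assoc]

theorem sh_zero (e : Amb) : sh 0 e = e := by
  simp [sh]

theorem contDiff_sh (t : ℝ) : ContDiff ℝ ∞ (sh t) := by
  unfold sh
  fun_prop

theorem normSq_cis (t : ℝ) : Complex.normSq (cis t) = 1 := by
  rw [cis, Complex.normSq_eq_norm_sq, Complex.norm_exp_ofReal_mul_I]; norm_num

theorem cis_add (t u : ℝ) : cis (t + u) = cis t * cis u := by
  simp [cis, add_mul, Complex.exp_add]

theorem cis_zero : cis 0 = 1 := by
  simp [cis]

theorem conj_cis (t : ℝ) : (starRingEnd ℂ) (cis t) = cis (-t) := by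
  simp [cis, ← Complex.exp_conj]

theorem contDiff_cis : ContDiff ℝ ∞ cis :=
  (Complex.contDiff_exp (𝕜 := ℝ)).comp (Complex.ofRealCLM.contDiff.mul contDiff_const)

theorem normSq_cx (a b : ℝ) : Complex.normSq (cx a b) = a ^ 2 + b ^ 2 := Complex.normSq_add_mul_I a b

theorem cx_re (a b : ℝ) : (cx a b).re = a := by
  simp [cx]

theorem cx_im (a b : ℝ) : (cx a b).im = b := by
  simp [cx]

theorem cx_re_im (X : ℂ) : cx X.re X.im = X := Complex.re_add_im X

theorem contDiff_cx : ContDiff ℝ ∞ fun q : ℝ × ℝ => cx q.1 q.2 :=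
  (Complex.ofRealCLM.contDiff.comp contDiff_fst).add
    ((Complex.ofRealCLM.contDiff.comp contDiff_snd).mul contDiff_const)

/-- A smooth local branch of the argument. -/
theorem exists_arg {r₀ : ℝ} (h : 0 < r₀) (t₀ : ℝ) :
    ∃ θ : ℂ → ℝ, ContDiffAt ℝ ∞ θ (r₀ * cis t₀) ∧
      (∀ W : ℂ, (Real.sqrt (Complex.normSq W) : ℂ) * cis (θ W) = W) ∧
      ∀ᶠ t in 𝓝 t₀, ∀ r : ℝ, 0 < r → θ (r * cis t) = t := by
  have hmul : ∀ r t : ℝ, (r : ℂ) * cis t * cis (-t₀) = r * cis (t - t₀) := fun r t => by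
    rw [mul_assoc, ← cis_add, sub_eq_add_neg]
  refine ⟨fun W => t₀ + (Complex.log (W * cis (-t₀))).im, ?_, fun W => ?_, ?_⟩
  · have h1 : (r₀ : ℂ) * cis t₀ * cis (-t₀) ∈ Complex.slitPlane := by
      rw [hmul, sub_self, cis_zero, mul_one]
      exact Complex.ofReal_mem_slitPlane.2 h
    have h2 : ContDiffAt ℝ ∞ Complex.log ((r₀ : ℂ) * cis t₀ * cis (-t₀)) :=
      (Complex.contDiffAt_log h1).restrict_scalars ℝ
    have h3 : ContDiffAt ℝ ∞ (fun W : ℂ => W * cis (-t₀)) ((r₀ : ℂ) * cis t₀) :=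
      contDiffAt_id.mul contDiffAt_const
    exact contDiffAt_const.add (Complex.imCLM.contDiff.contDiffAt.comp _
      (ContDiffAt.comp (f := fun W : ℂ => W * cis (-t₀)) _ h2 h3))
  · have h1 : ‖W * cis (-t₀)‖ = Real.sqrt (Complex.normSq W) := by
      rw [Complex.norm_def, map_mul, normSq_cis, mul_one]
    have h2 := Complex.norm_mul_exp_arg_mul_I (W * cis (-t₀))
    rw [h1] at h2
    beta_reduce
    rw [Complex.log_im, cis_add, mul_left_comm]
    change cis t₀ * ((Real.sqrt (Complex.normSq W) : ℂ) *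
      Complex.exp ((W * cis (-t₀)).arg * Complex.I)) = W
    rw [h2, mul_left_comm, ← cis_add, add_neg_cancel, cis_zero, mul_one]
  · have : Set.Ioo (t₀ - Real.pi) (t₀ + Real.pi) ∈ 𝓝 t₀ :=
      Ioo_mem_nhds (by linarith [Real.pi_pos]) (by linarith [Real.pi_pos])
    filter_upwards [this] with t ht r hr
    rw [hmul, Complex.log_im, cis, Complex.exp_mul_I,
      Complex.arg_mul_cos_add_sin_mul_I hr ⟨by linarith [ht.1], by linarith [ht.2]⟩]
    ring

theorem rOf_sOf {δ y : ℝ} (h0 : 0 < δ) (hy : 0 < y) {X : ℂ}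
    (h : Complex.normSq X = sOf δ y) : δ * rOf δ X = 1 / y := by
  rw [rOf, h, sOf]
  field_simp
  ring

theorem sOf_rOf {δ : ℝ} (h0 : 0 < δ) (X : ℂ) :
    sOf δ (1 / (δ * rOf δ X)) = Complex.normSq X := by
  have h : 0 < rOf δ X := by
    have := Complex.normSq_nonneg X
    unfold rOf
    positivity
  unfold sOf
  rw [show 1 / (δ * (1 / (δ * rOf δ X))) = rOf δ X by field_simp, rOf]
  field_simp
  ring

theorem lt_sOf {δ y : ℝ} (h0 : 0 < δ) (h1 : δ ≤ 1 / 10) (hy : 0 < y) (h : y < 1 / (2 * δ)) :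
    100 < sOf δ y := by
  have a : 2 < 1 / (δ * y) := by
    rw [lt_div_iff₀ (by positivity)] at h ⊢
    linarith
  unfold sOf
  rw [lt_div_iff₀ (by positivity)]
  nlinarith

theorem lt_sOf_top {δ y : ℝ} (h0 : 0 < δ) (hy : 0 < y) (h : y < ytop δ) : 1 / 25 < sOf δ y :=
  by
    have a : 1 + 3 / 100 * δ ^ 2 < 1 / (δ * y) := by
      unfold ytop at h
      rw [lt_div_iff₀ (by positivity)] at h ⊢
      linarith
    unfold sOf
    rw [lt_div_iff₀ (by positivity)]
    linarith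

theorem one_le_rOf (δ : ℝ) (X : ℂ) : 1 ≤ rOf δ X := by
  have := Complex.normSq_nonneg X
  have : 0 ≤ 3 / 4 * δ ^ 2 * Complex.normSq X := by positivity
  unfold rOf
  linarith

theorem hgt_pos {δ : ℝ} (h0 : 0 < δ) (e : Amb) : 0 < hgt δ e := by
  have := one_le_rOf δ e.1
  unfold hgt
  positivity

theorem two_lt_hgt_iff {δ : ℝ} (h0 : 0 < δ) (e : Amb) : 2 < hgt δ e ↔ δ * rOf δ e.1 < 1 / 2 :=
  by
    have := one_le_rOf δ e.1
    unfold hgt
    rw [lt_div_iff₀ (by positivity)]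
    constructor <;> intro h <;> linarith

theorem hgt_lt_top_iff {δ : ℝ} (h0 : 0 < δ) (e : Amb) :
    hgt δ e < ytop δ ↔ 1 / 25 < Complex.normSq e.1 := by
  have := one_le_rOf δ e.1
  unfold hgt ytop
  rw [one_div_lt_one_div (by positivity) (by positivity), mul_lt_mul_iff_right₀ h0, rOf]
  have h2 : 0 < δ ^ 2 := by positivity
  constructor <;> intro h <;> nlinarith

theorem contDiff_hgt {δ : ℝ} (h0 : 0 < δ) : ContDiff ℝ ∞ (hgt δ) := by
  refine contDiff_const.div (contDiff_const.mul (contDiff_const.add (contDiff_const.mul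
    (contDiff_normSq.comp contDiff_fst)))) fun e => ?_
  have := one_le_rOf δ e.1
  change δ * rOf δ e.1 ≠ 0
  positivity

theorem three_lt_ytop {δ : ℝ} (h0 : 0 < δ) (h1 : δ ≤ 1 / 10) : 9 < ytop δ := by
  unfold ytop
  rw [lt_div_iff₀ (by positivity)]
  have : δ ^ 2 ≤ 1 / 100 := by nlinarith
  nlinarith

theorem normSq_EOm {K δ n : ℝ} {x : R4} (h : 0 ≤ sOf δ (x 3)) :
    Complex.normSq (EOm K δ n x).1 = sOf δ (x 3) := by
  simp only [EOm, map_mul, normSq_cis, mul_one, Complex.normSq_ofReal]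
  exact Real.mul_self_sqrt h

/-- A point of `R4` with smooth coordinates is smooth. -/
theorem contDiffAt_mk4 {E : Type} [NormedAddCommGroup E] [NormedSpace ℝ E] {a b c d : E → ℝ}
    {x : E} (ha : ContDiffAt ℝ ∞ a x) (hb : ContDiffAt ℝ ∞ b x) (hc : ContDiffAt ℝ ∞ c x)
    (hd : ContDiffAt ℝ ∞ d x) :
    ContDiffAt ℝ ∞ (fun e => (!₂[a e, b e, c e, d e] : R4)) x := by
  rw [contDiffAt_euclidean]
  intro i
  fin_cases i
  · exact ha
  · exact hb
  · exact hc
  · exact hd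

theorem contDiff_coord (i : Fin 4) : ContDiff ℝ ∞ fun y : R4 => y i := (EuclideanSpace.proj i : R4 →L[ℝ] ℝ).contDiff

theorem mk4_eta (y : R4) : (!₂[y 0, y 1, y 2, y 3] : R4) = y := by
  ext i
  fin_cases i <;> rfl

end Pool.Agent.Lib.MP_94aef8_gt.Cap
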