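import Mathlib

/-!
The caps of the manifolds `M_n` as hypersurfaces of `ℂ × ℂ × ℝ`, their four kinds of patches, and
the description of a manifold as a core with caps attached.
-/

open scoped Manifold ContDiff Topology

namespace Pool.Agent.Lib.MP_94aef8_gt.Cap

/-- Euclidean 4-space. -/
abbrev R4 : Type := EuclideanSpace ℝ (Fin 4)

/-- The ambient space of the caps, with points `(X, W, z)`. -/
abbrev Amb : Type := ℂ × ℂ × ℝ

/-- `e^{it}`. -/
noncomputable def cis (t : ℝ) : ℂ := Complex.exp (t * Complex.I)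

/-- The complex number with coordinates `a`, `b`. -/
noncomputable def cx (a b : ℝ) : ℂ := a + b * Complex.I

/-- A cutoff: `0` for `v ≤ 3` and `1` for `v ≥ 4`. -/
noncomputable def cutV (v : ℝ) : ℝ := Real.smoothTransition (v - 3)

/-- A positive smooth function: `1` for `v ≤ 3` and `v` for `v ≥ 4`. -/
noncomputable def phiV (v : ℝ) : ℝ := 1 - cutV v + cutV v * v

/-- A smooth function with the sign of `v`: `v` for `v ≤ 3` and `1` for `v ≥ 4`. -/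
noncomputable def alV (v : ℝ) : ℝ := v / phiV v

/-- The distance from `(X, z)` to the centre `(0, 2j)`. -/
noncomputable def rad (j : ℤ) (X : ℂ) (z : ℝ) : ℝ :=
  Real.sqrt (Complex.normSq X + (z - 2 * j) ^ 2)

/-- The profile `|W|^2 = hyp ε X z` of the cap with bubbles of radius `ε`. -/
noncomputable def hyp (ε : ℝ) (X : ℂ) (z : ℝ) : ℝ := alV (rad (round (z / 2)) X z / ε - 1)

/-- The hypersurface `|W|^2 = hyp ε X z`. -/
def YY (ε : ℝ) : Set Amb := {e | Complex.normSq e.2.1 = hyp ε e.1 e.2.2}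

/-- The radius `r = 1 / (δ y)` as a function of `X`. -/
noncomputable def rOf (δ : ℝ) (X : ℂ) : ℝ := 1 + 3 / 4 * δ ^ 2 * Complex.normSq X

/-- The height `y` of a point of the cap. -/
noncomputable def hgt (δ : ℝ) (e : Amb) : ℝ := 1 / (δ * rOf δ e.1)

/-- The top of the outer patch (the height where `|X| = 1/5`). -/
noncomputable def ytop (δ : ℝ) : ℝ := 1 / (δ * (1 + 3 / 100 * δ ^ 2))

/-- The part `y > 2` of the hypersurface. -/
def Yo (δ ε : ℝ) : Set Amb := {e | e ∈ YY ε ∧ δ * rOf δ e.1 < 1 / 2}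

/-- Translation along the axis. -/
def sh (t : ℝ) (e : Amb) : Amb := (e.1, e.2.1, e.2.2 + t)

/-- The value of `|X|^2` at height `y`. -/
noncomputable def sOf (δ y : ℝ) : ℝ := 4 / 3 * (1 / (δ * y) - 1) / δ ^ 2

/-- The parameters of a cap (the Schwarzschild radius is `ρ = ε δ`). -/
structure Par where
  /-- the period of the cusp lattice -/
  K : ℝ
  /-- the scale -/
  δ : ℝ
  /-- the radius of the bubbles in units of `δ` -/
  ε : ℝ
  /-- the slope -/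
  n : ℝ

/-- Admissible parameters. -/
def Par.ok (P : Par) : Prop :=
  (∃ k : ℤ, 0 < k ∧ P.K = 2 * k) ∧ 0 < P.δ ∧ P.δ ≤ 1 / 10 ∧ 0 < P.ε ∧ P.ε ≤ 1 / 40

/-- The outer patch, coordinates `(x₁, x₂, x₃, y)`. -/
noncomputable def EOm (K δ n : ℝ) (x : R4) : Amb :=
  (Real.sqrt (sOf δ (x 3)) * cis (2 * Real.pi * x 0 / K),
    cis (2 * Real.pi * (x 1 - 2 * n * x 0) / K), x 2)

/-- The middle patch centred at the bubble `j`, twisted coordinates `(X₁, X₂, ζ, t)`. -/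
noncomputable def EMid (δ ε : ℝ) (j : ℤ) (y : R4) : Amb :=
  (cx (y 0) (y 1) / δ,
    Real.sqrt (alV (Real.sqrt (y 0 ^ 2 + y 1 ^ 2 + y 2 ^ 2) / (ε * δ) - 1)) *
      cis (y 3 / (2 * (ε * δ))), 2 * j + y 2 / δ)

/-- The sign of a hemisphere. -/
def sgn (b : Bool) : ℝ := if b then 1 else -1

/-- The bubble patches, coordinates `(w₁, w₂, p₁, p₂)`. -/
noncomputable def EBub (ε : ℝ) (b : Bool) (j : ℤ) (y : R4) : Amb :=
  ((ε * (1 + (y 0 ^ 2 + y 1 ^ 2)) * (2 / (1 + (y 2 ^ 2 + y 3 ^ 2))) : ℝ) * cx (y 2) (y 3),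
    cx (y 0) (y 1),
    2 * j + sgn b * (ε * (1 + (y 0 ^ 2 + y 1 ^ 2)) *
      ((1 - (y 2 ^ 2 + y 3 ^ 2)) / (1 + (y 2 ^ 2 + y 3 ^ 2)))))

/-- The kinds of patches of a cap. -/
inductive CP where
  | om : CP
  | mid (j : ℤ) : CP
  | bub (b : Bool) (j : ℤ) : CP

/-- The domains of the patches. -/
def capU (P : Par) : CP → Set R4
  | .om => {x | 2 < x 3 ∧ x 3 < ytop P.δ}
  | .mid _ => {y | y 0 ^ 2 + y 1 ^ 2 < 8 / 3 ∧ |y 2| < 9 / 5 * P.δ ∧
      (P.ε * P.δ) ^ 2 < y 0 ^ 2 + y 1 ^ 2 + y 2 ^ 2}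
  | .bub _ _ => {y | y 0 ^ 2 + y 1 ^ 2 < 3}

/-- The patches as maps to the ambient space. -/
noncomputable def capE (P : Par) : CP → R4 → Amb
  | .om => EOm P.K P.δ P.n
  | .mid j => EMid P.δ P.ε j
  | .bub b j => EBub P.ε b j

/-- `ψ` is a smooth ambient local inverse at `y` of the patch `E` of the hypersurface. -/
def AmbInv (ε : ℝ) (E : R4 → Amb) (y : R4) (ψ : Amb → R4) : Prop :=
  ContDiffAt ℝ ∞ ψ (E y) ∧ (∀ᶠ z in 𝓝 y, ψ (E z) = z) ∧
    ∀ᶠ e in 𝓝 (E y), e ∈ YY ε → E (ψ e) = e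

/-- `f` is smooth at `y` and has a smooth local section through `y`. -/
def LocD {M : Type} [TopologicalSpace M] [ChartedSpace R4 M] (f : R4 → M) (y : R4) : Prop :=
  ContMDiffAt 𝓘(ℝ, R4) 𝓘(ℝ, R4) ∞ f y ∧
    ∃ g : M → R4, ContMDiffAt 𝓘(ℝ, R4) 𝓘(ℝ, R4) ∞ g (f y) ∧ g (f y) = y ∧
      ∀ᶠ m in 𝓝 (f y), f (g m) = m

/-- The manifold `M` is the union of a core, made of copies of `U` indexed by `C` and glued along
`rel`, and of caps with parameters `P` indexed by `C`. -/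
structure Capped (C : Type) (U : Set R4) (rel : C → R4 → C → R4 → Prop)
    (P : Par) (M : Type) [TopologicalSpace M] [ChartedSpace R4 M] where
  /-- the parametrisations of the core -/
  slab : C → R4 → M
  /-- the parametrisations of the caps -/
  cap : C → Amb → M
  onto : ∀ m : M, (∃ c, ∃ p ∈ U, slab c p = m) ∨ ∃ c, ∃ e ∈ Yo P.δ P.ε, cap c e = m
  slab_slab : ∀ c c', ∀ p ∈ U, ∀ p' ∈ U, slab c p = slab c' p' ↔ rel c p c' p'
  cap_cap : ∀ c c', ∀ e ∈ Yo P.δ P.ε, ∀ e' ∈ Yo P.δ P.ε,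
    cap c e = cap c' e' ↔ c = c' ∧ ∃ m : ℤ, e' = sh (P.K * m) e
  slab_cap : ∀ c c', ∀ p ∈ U, ∀ e ∈ Yo P.δ P.ε, slab c p = cap c' e ↔
    ∃ x : R4, 2 < x 3 ∧ x 3 < 3 ∧ rel c p c' x ∧ e = EOm P.K P.δ P.n x
  slab_loc : ∀ c, ∀ p ∈ U, LocD (slab c) p
  cap_loc : ∀ c a, ∀ y ∈ capU P a, LocD (fun z => cap c (capE P a z)) y

/-- One half of an isomorphism of caps: `Φ` is smooth from one cap to the other, has the left
inverse `Ψ`, commutes with the translations by even integers and respects the collars. -/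
def Half (K δ ε n δ' ε' n' : ℝ) (Φ Ψ : Amb → Amb) : Prop :=
  Set.MapsTo Φ (Yo δ ε) (Yo δ' ε') ∧ ContDiffOn ℝ ∞ Φ (Yo δ ε) ∧
    (∀ e ∈ Yo δ ε, Ψ (Φ e) = e) ∧
    (∀ e ∈ Yo δ ε, ∀ m : ℤ, Φ (sh (2 * m) e) = sh (2 * m) (Φ e)) ∧
    ∀ x : R4, 2 < x 3 → x 3 < 3 → Φ (EOm K δ n x) = EOm K δ' n' x

/-- The caps with parameters `(δ, ε, n)` and `(δ', ε', n')` are isomorphic. -/
def AmbIso (K δ ε n δ' ε' n' : ℝ) : Prop :=
  ∃ Φ Ψ : Amb → Amb, Half K δ ε n δ' ε' n' Φ Ψ ∧ Half K δ' ε' n' δ ε n Ψ Φ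

end Pool.Agent.Lib.MP_94aef8_gt.Cap
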