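import Pool.Agent.Lib.MP_94aef8_gt.CapTube

/-! The shear of the collar by two extends over the cap. -/

open scoped Manifold ContDiff Topology

namespace Pool.Agent.Lib.MP_94aef8_gt.Cap

/-- `X` or its conjugate. -/
noncomputable def pp (b : Bool) (X : ℂ) : ℂ := if b then X else (starRingEnd ℂ) X

/-- The shear, defined off the axis. -/
noncomputable def shear (b : Bool) (e : Amb) : Amb :=
  (e.1, pp b e.1 ^ 2 * e.2.1 / (Complex.normSq e.1 : ℝ), e.2.2)

/-- The replacement of the shear on the tube `j`. -/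
noncomputable def tube (ε : ℝ) (b : Bool) (j : ℤ) (e : Amb) : Amb :=
  ofS ε j e.1 (rot (pp b e.1) (sgn b * eta ε (Complex.normSq e.1)) (toS ε j e))

/-- The extension of the shear over the cap. -/
noncomputable def gluck (ε : ℝ) (b : Bool) (e : Amb) : Amb :=
  if Complex.normSq e.1 < ε ^ 2 then tube ε b ⌊e.2.2 / 2⌋ e else shear b e

variable {ε : ℝ}

theorem capGluck_normSq (b : Bool) (X : ℂ) : Complex.normSq (pp b X) = Complex.normSq X := by
  cases b <;> simp [pp]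

theorem capGluck_not (b : Bool) (X : ℂ) : pp (!b) X = (starRingEnd ℂ) (pp b X) := by
  cases b <;> simp [pp]

theorem capGluck_sgn (b : Bool) : sgn (!b) = -sgn b := by
  cases b <;> simp [sgn]

theorem capGluck_smooth (b : Bool) : ContDiff ℝ ∞ (pp b) := by
  cases b
  · exact Complex.conjCLE.contDiff
  · exact contDiff_id

theorem capGluck_pos (h0 : 0 < ε) (b : Bool) (X : ℂ) :
    0 < Complex.normSq (pp b X) + (sgn b * eta ε (Complex.normSq X)) ^ 2 := by
  have h := eta_pos h0 (Complex.normSq_nonneg X)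
  rw [capGluck_normSq, mul_pow]
  cases b <;> simpa [sgn] using h

theorem capGluck_tube {b : Bool} {e : Amb} (hs : Complex.normSq e.1 < ε ^ 2) :
    gluck ε b e = tube ε b ⌊e.2.2 / 2⌋ e := if_pos hs

theorem capGluck_shear {b : Bool} {e : Amb} (hs : ¬Complex.normSq e.1 < ε ^ 2) :
    gluck ε b e = shear b e := if_neg hs

theorem capGluck_unit (h0 : 0 < ε) (h1 : ε ≤ 1 / 10) (b : Bool) {e : Amb} (he : e ∈ YY ε)
    (hs : Complex.normSq e.1 < ε ^ 2) :
    Complex.normSq (rot (pp b e.1) (sgn b * eta ε (Complex.normSq e.1))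
        (toS ε ⌊e.2.2 / 2⌋ e)).1 +
      (rot (pp b e.1) (sgn b * eta ε (Complex.normSq e.1)) (toS ε ⌊e.2.2 / 2⌋ e)).2 ^ 2 = 1 := by
  rw [rot_norm (capGluck_pos h0 b _), toS_norm h0 h1 he (tube_floor h0 he hs).le]

theorem gluck_fst (ε : ℝ) (b : Bool) (e : Amb) : (gluck ε b e).1 = e.1 := by
  unfold gluck
  split_ifs <;> rfl

theorem gluck_eq_shear (h0 : 0 < ε) (h1 : ε ≤ 1 / 10) (b : Bool) {e : Amb} (he : e ∈ YY ε)
    (hs : ε ^ 2 / 4 ≤ Complex.normSq e.1) : gluck ε b e = shear b e := by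
  by_cases h : Complex.normSq e.1 < ε ^ 2
  · have h2 : 0 < Complex.normSq (pp b e.1) := by
      rw [capGluck_normSq]
      exact lt_of_lt_of_le (by positivity) hs
    rw [capGluck_tube h, tube, eta_zero h0 hs, mul_zero, rot_zero h2, mul_div_right_comm,
      ofS_mul h0 h1 he (tube_floor h0 he h).le, capGluck_normSq, shear, mul_div_right_comm]
  · exact capGluck_shear h

theorem gluck_mem (h0 : 0 < ε) (h1 : ε ≤ 1 / 10) (b : Bool) {e : Amb} (he : e ∈ YY ε) :
    gluck ε b e ∈ YY ε := by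
  by_cases h : Complex.normSq e.1 < ε ^ 2
  · rw [capGluck_tube h]
    exact ofS_mem h0 h1 h (capGluck_unit h0 h1 b he h)
  · have h2 : 0 < Complex.normSq e.1 := lt_of_lt_of_le (by positivity) (not_lt.1 h)
    rw [capGluck_shear h]
    refine Eq.trans ?_ he
    simp only [shear, map_div₀, map_mul, map_pow, capGluck_normSq, Complex.normSq_ofReal]
    field_simp

theorem gluck_gluck (h0 : 0 < ε) (h1 : ε ≤ 1 / 10) (b : Bool) {e : Amb} (he : e ∈ YY ε) :
    gluck ε (!b) (gluck ε b e) = e := by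
  have h3 := gluck_fst ε b e
  by_cases h : Complex.normSq e.1 < ε ^ 2
  · have h4 := capGluck_unit h0 h1 b he h
    rw [capGluck_tube (h3 ▸ h), tube, h3, capGluck_tube h, tube,
      floor_eq_of_lt (ofS_abs h0 h1 h h4), toS_ofS h0 h1 h h4, capGluck_not, capGluck_sgn,
      neg_mul, rot_inv (capGluck_pos h0 b _), ofS_toS h0 h1 he (tube_floor h0 he h).le]
  · have h2 : 0 < Complex.normSq e.1 := lt_of_lt_of_le (by positivity) (not_lt.1 h)
    have h5 : ((Complex.normSq e.1 : ℝ) : ℂ) ≠ 0 := Complex.ofReal_ne_zero.2 h2.ne'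
    have h6 := Complex.mul_conj (pp b e.1)
    rw [capGluck_normSq] at h6
    rw [capGluck_shear (h3 ▸ h), capGluck_shear h]
    refine Prod.ext rfl (Prod.ext ?_ rfl)
    simp only [shear, capGluck_not]
    field_simp
    rw [← h6]
    ring

theorem gluck_smooth (h0 : 0 < ε) (h1 : ε ≤ 1 / 10) (b : Bool) :
    ContDiffOn ℝ ∞ (gluck ε b) (YY ε) := by
  intro e he
  have hN : ContDiff ℝ ∞ fun e : Amb => Complex.normSq e.1 := contDiff_normSq.comp contDiff_fst
  have hP : ContDiff ℝ ∞ fun e : Amb => pp b e.1 := (capGluck_smooth b).comp contDiff_fst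
  by_cases h : Complex.normSq e.1 < ε ^ 2
  · have h2 := tube_floor h0 he h
    have h3 : ContDiffAt ℝ ∞ (fun e' : Amb => rot (pp b e'.1)
        (sgn b * eta ε (Complex.normSq e'.1)) (toS ε ⌊e.2.2 / 2⌋ e')) e :=
      ContDiffAt.comp (f := fun e' : Amb => (pp b e'.1, sgn b * eta ε (Complex.normSq e'.1),
        toS ε ⌊e.2.2 / 2⌋ e')) e (rot_smooth (capGluck_pos h0 b e.1) _) (hP.contDiffAt.prodMk
        ((contDiff_const.mul ((contDiff_eta ε).comp hN)).contDiffAt.prodMk (toS_smooth h0 h1 h2)))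
    have h4 : ContDiffAt ℝ ∞ (tube ε b ⌊e.2.2 / 2⌋) e :=
      ContDiffAt.comp (f := fun e' : Amb => (e'.1, rot (pp b e'.1)
        (sgn b * eta ε (Complex.normSq e'.1)) (toS ε ⌊e.2.2 / 2⌋ e'))) e
        (ofS_smooth h0 h1 h (capGluck_unit h0 h1 b he h)) (contDiffAt_fst.prodMk h3)
    refine (h4.congr_of_eventuallyEq ?_).contDiffWithinAt
    have h5 : Continuous fun e' : Amb => |e'.2.2 - (2 * (⌊e.2.2 / 2⌋ : ℤ) + 1)| := by fun_prop
    filter_upwards [hN.continuous.continuousAt.eventually_lt continuousAt_const h,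
      h5.continuousAt.eventually_lt continuousAt_const h2] with e' a1 a2
    rw [capGluck_tube a1, floor_eq_of_lt a2]
  · have h2 : ε ^ 2 / 4 < Complex.normSq e.1 :=
      lt_of_lt_of_le (by linarith [pow_pos h0 2]) (not_lt.1 h)
    have h3 : ((Complex.normSq e.1 : ℝ) : ℂ) ≠ 0 :=
      Complex.ofReal_ne_zero.2 (lt_trans (by positivity) h2).ne'
    have h4 : ContDiffAt ℝ ∞ (shear b) e :=
      contDiffAt_fst.prodMk (ContDiffAt.prodMk
        (((hP.pow 2).mul contDiff_snd.fst).contDiffAt.mul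
          ((Complex.ofRealCLM.contDiff.comp hN).contDiffAt.inv h3)) contDiffAt_snd.snd)
    refine h4.contDiffWithinAt.congr_of_eventuallyEq ?_ (gluck_eq_shear h0 h1 b he h2.le)
    filter_upwards [self_mem_nhdsWithin, mem_nhdsWithin_of_mem_nhds
      (continuousAt_const.eventually_lt hN.continuous.continuousAt h2)] with e' a1 a2
    exact gluck_eq_shear h0 h1 b a1 a2.le

theorem gluck_sh (ε : ℝ) (b : Bool) (e : Amb) (m : ℤ) :
    gluck ε b (sh (2 * m) e) = sh (2 * m) (gluck ε b e) := by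
  by_cases h : Complex.normSq e.1 < ε ^ 2
  · have h2 : ⌊(sh (2 * m) e).2.2 / 2⌋ = ⌊e.2.2 / 2⌋ + m := by
      rw [← Int.floor_add_intCast, sh]
      congr 1
      ring
    rw [capGluck_tube (e := sh _ e) h, capGluck_tube h, h2, tube, toS_sh, ofS_sh]
    rfl
  · rw [capGluck_shear (e := sh _ e) h, capGluck_shear h]
    rfl

theorem gluck_EOm {K δ n : ℝ} (d0 : 0 < δ) (d1 : δ ≤ 1 / 10) (h0 : 0 < ε) (h1 : ε ≤ 1 / 10)
    (b : Bool) {x : R4} (h2 : 2 < x 3) (h3 : x 3 < 3) :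
    gluck ε b (EOm K δ n x) = EOm K δ (n - sgn b) x := by
  have h4 : 100 < sOf δ (x 3) := lt_sOf d0 d1 (by linarith) (by
    rw [lt_div_iff₀ (by positivity)]
    nlinarith)
  have h5 := normSq_EOm (K := K) (n := n) (h4.trans' (by norm_num)).le
  have h6 : ((Real.sqrt (sOf δ (x 3)) : ℝ) : ℂ) ^ 2 = (sOf δ (x 3) : ℝ) := by
    rw [← Complex.ofReal_pow, Real.sq_sqrt (by linarith)]
  have h7 : ((sOf δ (x 3) : ℝ) : ℂ) ≠ 0 := Complex.ofReal_ne_zero.2 (by linarith)
  rw [capGluck_shear (by rw [h5]; nlinarith), shear, h5]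
  refine Prod.ext rfl (Prod.ext ?_ rfl)
  cases b
  · simp only [EOm, pp, sgn, Bool.false_eq_true, if_false, map_mul, Complex.conj_ofReal, conj_cis]
    rw [mul_pow, h6, mul_assoc, mul_div_cancel_left₀ _ h7, sq, ← cis_add, ← cis_add]
    congr 1
    ring
  · simp only [EOm, pp, sgn, if_true]
    rw [mul_pow, h6, mul_assoc, mul_div_cancel_left₀ _ h7, sq, ← cis_add, ← cis_add]
    congr 1
    ring

theorem capGluck_half {K δ n n' : ℝ} (d0 : 0 < δ) (d1 : δ ≤ 1 / 10) (h0 : 0 < ε)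
    (h1 : ε ≤ 1 / 10) (b : Bool) (hn : n' = n - sgn b) :
    Half K δ ε n δ ε n' (gluck ε b) (gluck ε (!b)) :=
  ⟨fun _ he => ⟨gluck_mem h0 h1 b he.1, by rw [gluck_fst]; exact he.2⟩,
    (gluck_smooth h0 h1 b).mono fun _ he => he.1, fun _ he => gluck_gluck h0 h1 b he.1,
    fun e _ m => gluck_sh ε b e m, fun _ h2 h3 => hn ▸ gluck_EOm d0 d1 h0 h1 b h2 h3⟩

theorem ambIso_gluck {K δ n : ℝ} (d0 : 0 < δ) (d1 : δ ≤ 1 / 10) (h0 : 0 < ε) (h1 : ε ≤ 1 / 10) :
    AmbIso K δ ε n δ ε (n + 1) :=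
  ⟨_, _, capGluck_half d0 d1 h0 h1 false (by simp [sgn]),
    capGluck_half d0 d1 h0 h1 true (by simp [sgn])⟩

end Pool.Agent.Lib.MP_94aef8_gt.Cap
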