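import Pool.Agent.Lib.MP_94aef8_gt.CapRadInv

/-! Changing the radius of the bubbles of a cap. -/

open scoped Manifold ContDiff Topology

namespace Pool.Agent.Lib.MP_94aef8_gt.Cap

/-- The radial map round the centre `(0, 2j)`. -/
noncomputable def nearAt (m : ℝ → ℝ) (j : ℤ) (e : Amb) : Amb :=
  (Real.sqrt (m (Complex.normSq e.1 + (e.2.2 - 2 * j) ^ 2)) * e.1, e.2.1,
    2 * j + Real.sqrt (m (Complex.normSq e.1 + (e.2.2 - 2 * j) ^ 2)) * (e.2.2 - 2 * j))

/-- The radial map round the nearest centre. -/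
noncomputable def nearMap (m : ℝ → ℝ) (e : Amb) : Amb := nearAt m (round (e.2.2 / 2)) e

theorem capRad2_u {m : ℝ → ℝ} (hpos : ∀ s, 0 < m s) (j : ℤ) (e : Amb) :
    Complex.normSq (nearAt m j e).1 + ((nearAt m j e).2.2 - 2 * j) ^ 2 =
      m (Complex.normSq e.1 + (e.2.2 - 2 * j) ^ 2) *
        (Complex.normSq e.1 + (e.2.2 - 2 * j) ^ 2) := by
  simp only [nearAt, map_mul, Complex.normSq_ofReal, add_sub_cancel_left, mul_pow,
    Real.mul_self_sqrt (hpos _).le, Real.sq_sqrt (hpos _).le]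
  ring

theorem capRad2_id {m : ℝ → ℝ} (hone : ∀ u, 1 / 2 ≤ u → m u = 1) {j : ℤ} {e : Amb}
    (h : 1 / 2 ≤ Complex.normSq e.1 + (e.2.2 - 2 * j) ^ 2) : nearAt m j e = e := by
  simp [nearAt, hone _ h]

theorem capRad2_lt {m m' : ℝ → ℝ} (hm : RadPair m m') (hone : ∀ u, 1 / 2 ≤ u → m u = 1)
    {j : ℤ} {e : Amb} (h : Complex.normSq e.1 + (e.2.2 - 2 * j) ^ 2 < 1 / 2) :
    Complex.normSq (nearAt m j e).1 + ((nearAt m j e).2.2 - 2 * j) ^ 2 < 1 / 2 := by
  have h1 := hm.2.2.1 h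
  simp only [hone _ le_rfl, one_mul] at h1
  rwa [capRad2_u hm.2.1]

theorem capRad2_round {m m' : ℝ → ℝ} (hm : RadPair m m') (hone : ∀ u, 1 / 2 ≤ u → m u = 1)
    (e : Amb) : round ((nearMap m e).2.2 / 2) = round (e.2.2 / 2) := by
  rcases le_or_gt (1 / 2) (Complex.normSq e.1 + (e.2.2 - 2 * (round (e.2.2 / 2) : ℤ)) ^ 2)
    with h | h
  · rw [nearMap, capRad2_id hone h]
  · have h1 := capRad2_lt hm hone h
    have h2 := Complex.normSq_nonneg (nearAt m (round (e.2.2 / 2)) e).1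
    exact round_eq_of_lt ((sq_lt_one_iff_abs_lt_one _).1 (by rw [nearMap]; linarith))

theorem capRad2_eq {m : ℝ → ℝ} (hone : ∀ u, 1 / 2 ≤ u → m u = 1) {j : ℤ} {e : Amb}
    (h : |e.2.2 - 2 * j| < 5 / 4) : nearMap m e = nearAt m j e := by
  rw [nearMap]
  have h1 := abs_sub_round_le e.2.2
  generalize round (e.2.2 / 2) = k at h1 ⊢
  have h2 := Complex.normSq_nonneg e.1
  rw [abs_lt] at h
  rw [abs_le] at h1
  rcases lt_trichotomy k j with h3 | h3 | h3
  · have h4 : (k : ℝ) + 1 ≤ j := by exact_mod_cast h3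
    rw [capRad2_id hone (by nlinarith), capRad2_id hone (by nlinarith)]
  · rw [h3]
  · have h4 : (j : ℝ) + 1 ≤ k := by exact_mod_cast h3
    rw [capRad2_id hone (by nlinarith), capRad2_id hone (by nlinarith)]

theorem capRad2_smoothAt {m : ℝ → ℝ} (hs : ContDiff ℝ ∞ m) (hpos : ∀ s, 0 < m s) (j : ℤ) :
    ContDiff ℝ ∞ (nearAt m j) := by
  have h1 : ContDiff ℝ ∞ fun e : Amb => e.2.2 - 2 * j := by fun_prop
  have h2 : ContDiff ℝ ∞ fun e : Amb =>
      Real.sqrt (m (Complex.normSq e.1 + (e.2.2 - 2 * j) ^ 2)) :=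
    (hs.comp ((contDiff_normSq.comp contDiff_fst).add (h1.pow 2))).sqrt fun e => (hpos _).ne'
  exact ((Complex.ofRealCLM.contDiff.comp h2).mul contDiff_fst).prodMk
    ((contDiff_fst.comp contDiff_snd).prodMk (contDiff_const.add (h2.mul h1)))

theorem capRad2_smooth {m : ℝ → ℝ} (hs : ContDiff ℝ ∞ m) (hpos : ∀ s, 0 < m s)
    (hone : ∀ u, 1 / 2 ≤ u → m u = 1) : ContDiff ℝ ∞ (nearMap m) := by
  refine contDiff_iff_contDiffAt.2 fun e => ?_
  refine (capRad2_smoothAt hs hpos (round (e.2.2 / 2))).contDiffAt.congr_of_eventuallyEq ?_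
  have h1 : Continuous fun e' : Amb => |e'.2.2 - 2 * (round (e.2.2 / 2) : ℤ)| := by fun_prop
  have h2 : |e.2.2 - 2 * (round (e.2.2 / 2) : ℤ)| < 5 / 4 :=
    (abs_sub_round_le e.2.2).trans_lt (by norm_num)
  filter_upwards [(h1.tendsto e).eventually_lt_const h2] with e' h3
  exact capRad2_eq hone h3

theorem half_near {K δ ε ε' n : ℝ} (h0 : 0 < δ) (h1 : δ ≤ 1 / 10) {m m' : ℝ → ℝ}
    (hm : RadPair m m') (hone : ∀ u, 1 / 2 ≤ u → m u = 1) (hone' : ∀ u, 1 / 2 ≤ u → m' u = 1)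
    (hal : ∀ u, 0 ≤ u → alV (Real.sqrt (m u * u) / ε' - 1) = alV (Real.sqrt u / ε - 1)) :
    Half K δ ε n δ ε' n (nearMap m) (nearMap m') := by
  refine ⟨fun e he => ⟨?_, ?_⟩, (capRad2_smooth hm.1 hm.2.1 hone).contDiffOn, fun e _ => ?_,
    fun e _ k => ?_, fun x hx hx' => ?_⟩
  · have h2 : Complex.normSq e.2.1 = hyp ε e.1 e.2.2 := he.1
    change Complex.normSq e.2.1 = hyp ε' (nearMap m e).1 (nearMap m e).2.2
    rw [h2, hyp, hyp, capRad2_round hm hone, rad, rad, nearMap, capRad2_u hm.2.1,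
      hal _ (add_nonneg (Complex.normSq_nonneg _) (sq_nonneg _))]
  · rcases le_or_gt (1 / 2) (Complex.normSq e.1 + (e.2.2 - 2 * (round (e.2.2 / 2) : ℤ)) ^ 2)
      with h | h
    · rw [nearMap, capRad2_id hone h]
      exact he.2
    · have h2 := capRad2_lt hm hone h
      have h3 : Complex.normSq (nearMap m e).1 ≤ 1 := by
        rw [nearMap]
        linarith [sq_nonneg ((nearAt m (round (e.2.2 / 2)) e).2.2 - 2 * (round (e.2.2 / 2) : ℤ))]
      have h4 : δ ^ 2 ≤ 1 := by nlinarith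
      have h5 : δ ^ 2 * Complex.normSq (nearMap m e).1 ≤ 1 :=
        mul_le_one₀ h4 (Complex.normSq_nonneg _) h3
      have h6 : rOf δ (nearMap m e).1 ≤ 2 := by
        rw [rOf]
        linarith
      nlinarith
  · have h2 : Real.sqrt (m' (Complex.normSq (nearAt m (round (e.2.2 / 2)) e).1 +
        ((nearAt m (round (e.2.2 / 2)) e).2.2 - 2 * (round (e.2.2 / 2) : ℤ)) ^ 2)) *
        Real.sqrt (m (Complex.normSq e.1 + (e.2.2 - 2 * (round (e.2.2 / 2) : ℤ)) ^ 2)) = 1 := by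
      rw [capRad2_u hm.2.1, ← Real.sqrt_mul' _ (hm.2.1 _).le, hm.2.2.2, Real.sqrt_one]
    rw [nearMap.eq_1 m', capRad2_round hm hone, nearMap]
    generalize round (e.2.2 / 2) = j at h2 ⊢
    rw [nearAt.eq_1 m']
    generalize Real.sqrt (m' _) = a at h2 ⊢
    refine Prod.ext ?_ (Prod.ext rfl ?_)
    · simp only [nearAt]
      rw [← mul_assoc, ← Complex.ofReal_mul, h2, Complex.ofReal_one, one_mul]
    · simp only [nearAt]
      rw [add_sub_cancel_left, ← mul_assoc, h2]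
      ring
  · have h2 : round ((e.2.2 + 2 * (k : ℝ)) / 2) = round (e.2.2 / 2) + k := by
      rw [show (e.2.2 + 2 * (k : ℝ)) / 2 = e.2.2 / 2 + k by ring, round_add_intCast]
    have h3 : e.2.2 + 2 * (k : ℝ) - 2 * ((round (e.2.2 / 2) + k : ℤ) : ℝ) =
        e.2.2 - 2 * (round (e.2.2 / 2) : ℤ) := by
      push_cast
      ring
    simp only [nearMap, nearAt, sh, h2, h3]
    refine Prod.ext rfl (Prod.ext rfl ?_)
    push_cast
    ring
  · have h2 : 100 < sOf δ (x 3) := by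
      refine lt_sOf h0 h1 (by linarith) (hx'.trans_le ?_)
      rw [le_div_iff₀ (by positivity)]
      linarith
    refine capRad2_id hone ?_
    rw [normSq_EOm (by linarith)]
    linarith [sq_nonneg ((EOm K δ n x).2.2 - 2 * (round ((EOm K δ n x).2.2 / 2) : ℤ))]

theorem ambIso_near {K δ ε ε' n : ℝ} (h0 : 0 < δ) (h1 : δ ≤ 1 / 10) (e0 : 0 < ε')
    (e1 : ε' ≤ ε) (e2 : ε ≤ 1 / 10) : AmbIso K δ ε n δ ε' n := by
  obtain ⟨m, m', a, b, c, d, e, f⟩ := exists_pair_near e0 e1 e2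
  exact ⟨_, _, half_near h0 h1 a c d e, half_near h0 h1 b d c f⟩

end Pool.Agent.Lib.MP_94aef8_gt.Cap
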