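import Pool.Agent.Lib.MP_94aef8_gt.CapRad1
import Pool.Agent.Lib.MP_94aef8_gt.CapRad2
import Pool.Agent.Lib.MP_94aef8_gt.CapGluck

/-! Any two caps whose slopes differ by an integer are isomorphic. -/

open scoped Manifold ContDiff Topology

namespace Pool.Agent.Lib.MP_94aef8_gt.Cap

theorem Half.comp {K δ ε n δ' ε' n' δ'' ε'' n'' : ℝ} {Φ Ψ Φ' Ψ' : Amb → Amb}
    (h : Half K δ ε n δ' ε' n' Φ Ψ) (h' : Half K δ' ε' n' δ'' ε'' n'' Φ' Ψ') :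
    Half K δ ε n δ'' ε'' n'' (Φ' ∘ Φ) (Ψ ∘ Ψ') := by
  obtain ⟨a1, a2, a3, a4, a5⟩ := h
  obtain ⟨b1, b2, b3, b4, b5⟩ := h'
  refine ⟨b1.comp a1, b2.comp a2 a1, fun e he => ?_, fun e he m => ?_, fun x h2 h3 => ?_⟩
  · simp only [Function.comp]
    rw [b3 _ (a1 he), a3 e he]
  · simp only [Function.comp]
    rw [a4 e he, b4 _ (a1 he)]
  · simp only [Function.comp]
    rw [a5 x h2 h3, b5 x h2 h3]

theorem AmbIso.refl (K δ ε n : ℝ) : AmbIso K δ ε n δ ε n :=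
  ⟨id, id, ⟨fun _ h => h, contDiffOn_id, fun _ _ => rfl, fun _ _ _ => rfl, fun _ _ _ => rfl⟩,
    ⟨fun _ h => h, contDiffOn_id, fun _ _ => rfl, fun _ _ _ => rfl, fun _ _ _ => rfl⟩⟩

theorem AmbIso.symm {K δ ε n δ' ε' n' : ℝ} (h : AmbIso K δ ε n δ' ε' n') :
    AmbIso K δ' ε' n' δ ε n := by
  obtain ⟨Φ, Ψ, a, b⟩ := h
  exact ⟨Ψ, Φ, b, a⟩

theorem AmbIso.trans {K δ ε n δ' ε' n' δ'' ε'' n'' : ℝ} (h : AmbIso K δ ε n δ' ε' n')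
    (h' : AmbIso K δ' ε' n' δ'' ε'' n'') : AmbIso K δ ε n δ'' ε'' n'' := by
  obtain ⟨Φ, Ψ, a, b⟩ := h
  obtain ⟨Φ', Ψ', a', b'⟩ := h'
  exact ⟨Φ' ∘ Φ, Ψ ∘ Ψ', a.comp a', b'.comp b⟩

theorem ambIso_all {K δ ε n δ' ε' n' : ℝ} (d0 : 0 < δ) (d1 : δ ≤ 1 / 10) (e0 : 0 < ε)
    (e1 : ε ≤ 1 / 10) (d0' : 0 < δ') (d1' : δ' ≤ 1 / 10) (e0' : 0 < ε') (e1' : ε' ≤ 1 / 10)
    {N : ℤ} (hn : n' = n + N) : AmbIso K δ ε n δ' ε' n' := by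
  have far : ∀ {δ : ℝ}, 0 < δ → δ ≤ 1 / 10 → ∀ {ε : ℝ}, 0 < ε → ε ≤ 1 / 10 → ∀ n : ℝ,
      AmbIso K (1 / 10) (1 / 10) n δ ε n := fun d0 d1 _ e0 e1 n =>
    (ambIso_near (by norm_num) le_rfl e0 e1 le_rfl).trans (ambIso_far d0 d1 le_rfl e0 e1)
  have step : ∀ N : ℤ, AmbIso K (1 / 10) (1 / 10) n (1 / 10) (1 / 10) (n + N) := by
    intro N
    induction N using Int.induction_on with
    | zero => simpa using AmbIso.refl K (1 / 10) (1 / 10) n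
    | succ i ih =>
      have := ih.trans (ambIso_gluck (by norm_num) le_rfl (by norm_num) le_rfl)
      rwa [show n + ((i : ℤ) : ℝ) + 1 = n + (((i : ℤ) + 1 : ℤ) : ℝ) by push_cast; ring] at this
    | pred i ih =>
      have h := ambIso_gluck (K := K) (n := n + ((-(i : ℤ) - 1 : ℤ) : ℝ)) (δ := 1 / 10)
        (ε := 1 / 10) (by norm_num) le_rfl (by norm_num) le_rfl
      rw [show n + ((-(i : ℤ) - 1 : ℤ) : ℝ) + 1 = n + ((-(i : ℤ) : ℤ) : ℝ) by push_cast; ring] at h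
      exact ih.trans h.symm
  rw [hn]
  exact ((far d0 d1 e0 e1 n).symm.trans (step N)).trans (far d0' d1' e0' e1' _)

end Pool.Agent.Lib.MP_94aef8_gt.Cap
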