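import Pool.Agent.Lib.MP_94aef8_gt.CapAtlas

/-! An isomorphism of caps induces a diffeomorphism of the capped manifolds. -/

open scoped Manifold ContDiff Topology

namespace Pool.Agent.Lib.MP_94aef8_gt.Cap

theorem LocD.of_isLocalDiffeomorphAt {M : Type} [TopologicalSpace M] [ChartedSpace R4 M]
    {f : R4 → M} {y : R4} (h : IsLocalDiffeomorphAt 𝓘(ℝ, R4) 𝓘(ℝ, R4) ∞ f y) : LocD f y := by
  refine ⟨h.contMDiffAt, h.localInverse, h.localInverse_contMDiffAt, ?_, ?_⟩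
  · exact h.localInverse_left_inv h.localInverse_mem_target
  · exact h.localInverse_eventuallyEq_right

theorem LocD.congr {M : Type} [TopologicalSpace M] [ChartedSpace R4 M]
    {f f' : R4 → M} {y : R4} (h : LocD f y) (h' : f' =ᶠ[𝓝 y] f) : LocD f' y := by
  obtain ⟨h1, g, g1, g2, g3⟩ := h
  have e : f' y = f y := h'.eq_of_nhds
  refine ⟨h1.congr_of_eventuallyEq h', g, e ▸ g1, e ▸ g2, ?_⟩
  rw [e]
  have : ∀ᶠ m in 𝓝 (f y), f' (g m) = f (g m) := by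
    have t : Filter.Tendsto g (𝓝 (f y)) (𝓝 y) := by
      have := g1.continuousAt.tendsto
      rwa [g2] at this
    exact t.eventually h'
  filter_upwards [this, g3] with m a b
  rw [a, b]

variable {C : Type} {U : Set R4} {rel : C → R4 → C → R4 → Prop} {P P' : Par}
  {M M' : Type} [TopologicalSpace M] [ChartedSpace R4 M] [TopologicalSpace M'] [ChartedSpace R4 M']

theorem exists_transfer (hU : IsOpen U) (hP : P.ok) (hP' : P'.ok) (hK : P'.K = P.K)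
    (D : Capped C U rel P M) (D' : Capped C U rel P' M') {Φ Ψ : Amb → Amb}
    (h : Half P.K P.δ P.ε P.n P'.δ P'.ε P'.n Φ Ψ) :
    ∃ F : M → M', ContMDiff 𝓘(ℝ, R4) 𝓘(ℝ, R4) ∞ F ∧
      (∀ c, ∀ p ∈ U, F (D.slab c p) = D'.slab c p) ∧
      ∀ c, ∀ e ∈ Yo P.δ P.ε, F (D.cap c e) = D'.cap c (Φ e) := by
  classical
  obtain ⟨a1, a2, -, a4, a5⟩ := h
  obtain ⟨k, -, hk⟩ := hP.1
  have hc : ∀ m : M, (¬∃ q : C × R4, q.2 ∈ U ∧ D.slab q.1 q.2 = m) →
      ∃ q : C × Amb, q.2 ∈ Yo P.δ P.ε ∧ D.cap q.1 q.2 = m := by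
    intro m hm
    rcases D.onto m with ⟨c, p, hp, e⟩ | ⟨c, e, he, h⟩
    · exact absurd ⟨(c, p), hp, e⟩ hm
    · exact ⟨(c, e), he, h⟩
  let F : M → M' := fun m =>
    if hm : ∃ q : C × R4, q.2 ∈ U ∧ D.slab q.1 q.2 = m then D'.slab hm.choose.1 hm.choose.2
    else D'.cap (hc m hm).choose.1 (Φ (hc m hm).choose.2)
  have F1 : ∀ c, ∀ p ∈ U, F (D.slab c p) = D'.slab c p := by
    intro c p hp
    have hm : ∃ q : C × R4, q.2 ∈ U ∧ D.slab q.1 q.2 = D.slab c p := ⟨(c, p), hp, rfl⟩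
    simp only [F, dif_pos hm]
    exact (D'.slab_slab _ _ _ hm.choose_spec.1 _ hp).2
      ((D.slab_slab _ _ _ hm.choose_spec.1 _ hp).1 hm.choose_spec.2)
  have F2 : ∀ c, ∀ e ∈ Yo P.δ P.ε, F (D.cap c e) = D'.cap c (Φ e) := by
    intro c e he
    by_cases hm : ∃ q : C × R4, q.2 ∈ U ∧ D.slab q.1 q.2 = D.cap c e
    · simp only [F, dif_pos hm]
      obtain ⟨x, h2, h3, hr, hx⟩ := (D.slab_cap _ _ _ hm.choose_spec.1 _ he).1 hm.choose_spec.2
      refine (D'.slab_cap _ _ _ hm.choose_spec.1 _ (a1 he)).2 ⟨x, h2, h3, hr, ?_⟩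
      rw [hx, a5 x h2 h3, hK]
    · simp only [F, dif_neg hm]
      have hs := (hc _ hm).choose_spec
      obtain ⟨h1, m, h2⟩ := (D.cap_cap _ _ _ hs.1 _ he).1 hs.2
      refine (D'.cap_cap _ _ _ (a1 hs.1) _ (a1 he)).2 ⟨h1, m, ?_⟩
      have e1 : P.K * m = 2 * ((k * m : ℤ) : ℝ) := by rw [hk]; push_cast; ring
      rw [hK, e1, ← a4 _ hs.1, ← e1, ← h2]
  refine ⟨F, fun m => ?_, F1, F2⟩
  rcases D.onto m with ⟨c, p, hp, rfl⟩ | ⟨c, e, he, rfl⟩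
  · obtain ⟨-, g, g1, g2, g3⟩ := D.slab_loc c p hp
    have s1 : ContMDiffAt 𝓘(ℝ, R4) 𝓘(ℝ, R4) ∞ (D'.slab c) (g (D.slab c p)) := by
      rw [g2]; exact (D'.slab_loc c p hp).1
    refine (s1.comp _ g1).congr_of_eventuallyEq ?_
    have : ∀ᶠ m in 𝓝 (D.slab c p), g m ∈ U :=
      g1.continuousAt.eventually_mem (hU.mem_nhds (by rwa [g2]))
    filter_upwards [this, g3] with m h1 h2
    rw [← h2, F1 c _ h1, Function.comp, h2]
  · obtain ⟨a, y, hy, rfl⟩ := capE_cover hP he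
    obtain ⟨a', y', hy', hE⟩ := capE_cover hP' (a1 he)
    obtain ⟨ψ, p1, p2, p3⟩ := capE_inv hP' hy'
    obtain ⟨-, g, g1, g2, g3⟩ := D.cap_loc c a y hy
    have hn : capU P a ∈ 𝓝 y := (isOpen_capU hP a).mem_nhds hy
    have c1 : ContDiffAt ℝ ∞ (Φ ∘ capE P a) y :=
      ((a2 _ he).comp y (capE_smooth hP hy).contDiffWithinAt
        (fun z hz => capE_mem hP hz : Set.MapsTo (capE P a) (capU P a) _)).contDiffAt hn
    have c2 : ContDiffAt ℝ ∞ (ψ ∘ Φ ∘ capE P a) y := by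
      refine ContDiffAt.comp y ?_ c1
      rw [Function.comp, ← hE]; exact p1
    have c3 : (ψ ∘ Φ ∘ capE P a) y = y' := by
      simp only [Function.comp]
      rw [← hE]; exact p2.self_of_nhds
    have s1 : ContMDiffAt 𝓘(ℝ, R4) 𝓘(ℝ, R4) ∞ (fun z => D'.cap c (capE P' a' z))
        ((ψ ∘ Φ ∘ capE P a) y) := by
      rw [c3]; exact (D'.cap_loc c a' y' hy').1
    have s2 := s1.comp y c2.contMDiffAt
    have s3 := ContMDiffAt.comp (D.cap c (capE P a y)) (f := g) (by rw [g2]; exact s2) g1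
    refine s3.congr_of_eventuallyEq ?_
    have t : Filter.Tendsto g (𝓝 (D.cap c (capE P a y))) (𝓝 y) := by
      have := g1.continuousAt.tendsto
      rwa [g2] at this
    have t2 : Filter.Tendsto (Φ ∘ capE P a) (𝓝 y) (𝓝 (capE P' a' y')) := by
      rw [hE]; exact c1.continuousAt.tendsto
    filter_upwards [t.eventually hn, g3, (t2.comp t).eventually p3] with m h1 h2 h3
    have hm := capE_mem hP h1
    have h4 := h3 (a1 hm).1
    simp only [Function.comp] at h4 ⊢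
    rw [h4, ← F2 c _ hm, h2]

theorem diffeo_of_ambIso (hU : IsOpen U) (hP : P.ok) (hP' : P'.ok) (hK : P'.K = P.K)
    (D : Capped C U rel P M) (D' : Capped C U rel P' M')
    (h : AmbIso P.K P.δ P.ε P.n P'.δ P'.ε P'.n) :
    Nonempty (M ≃ₘ⟮𝓘(ℝ, R4), 𝓘(ℝ, R4)⟯ M') := by
  obtain ⟨Φ, Ψ, a, b⟩ := h
  obtain ⟨F, f1, f2, f3⟩ := exists_transfer hU hP hP' hK D D' a
  obtain ⟨G, g1, g2, g3⟩ := exists_transfer hU hP' hP hK.symm D' D (Φ := Ψ) (Ψ := Φ) (hK ▸ b)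
  refine ⟨⟨⟨F, G, fun m => ?_, fun m => ?_⟩, f1, g1⟩⟩
  · rcases D.onto m with ⟨c, p, hp, rfl⟩ | ⟨c, e, he, rfl⟩
    · rw [f2 c p hp, g2 c p hp]
    · rw [f3 c e he, g3 c _ (a.1 he), a.2.2.1 e he]
  · rcases D'.onto m with ⟨c, p, hp, rfl⟩ | ⟨c, e, he, rfl⟩
    · rw [g2 c p hp, f2 c p hp]
    · rw [g3 c e he, f3 c _ (b.1 he), b.2.2.1 e he]

end Pool.Agent.Lib.MP_94aef8_gt.Cap
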