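import Pool.Agent.Lib.MP_94aef8_gt.CapIso
import Pool.Agent.Lib.MP_94aef8_gt.CapTransfer

/-! Capped manifolds with the same core whose slopes differ by an integer are diffeomorphic. -/

open scoped Manifold ContDiff Topology

namespace Pool.Agent.Lib.MP_94aef8_gt.Cap

theorem capped_diffeo {C : Type} {U : Set R4} {rel : C → R4 → C → R4 → Prop}
    {P P' : Par} {M M' : Type} [TopologicalSpace M]
    [ChartedSpace R4 M] [TopologicalSpace M'] [ChartedSpace R4 M'] (hU : IsOpen U) (hP : P.ok)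
    (hP' : P'.ok) (hK : P'.K = P.K) {N : ℤ} (hn : P'.n = P.n + N)
    (D : Capped C U rel P M) (D' : Capped C U rel P' M') :
    Nonempty (M ≃ₘ⟮𝓘(ℝ, R4), 𝓘(ℝ, R4)⟯ M') :=
  diffeo_of_ambIso hU hP hP' hK D D'
    (ambIso_all hP.2.1 hP.2.2.1 hP.2.2.2.1 (hP.2.2.2.2.trans (by norm_num)) hP'.2.1 hP'.2.2.1
      hP'.2.2.2.1 (hP'.2.2.2.2.trans (by norm_num)) hn)

end Pool.Agent.Lib.MP_94aef8_gt.Cap
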