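import Pool.Agent.Lib.MP_94aef8_gt.CapBasic

/-! The outer patch of a cap. -/

open scoped Manifold ContDiff Topology

namespace Pool.Agent.Lib.MP_94aef8_gt.Cap

theorem CapOm_cis_int (t : ℝ) (m : ℤ) : cis (t + m * (2 * Real.pi)) = cis t := by
  unfold cis
  rw [Complex.exp_eq_exp_iff_exists_int]
  exact ⟨m, by push_cast; ring⟩

theorem CapOm_cis_inj {t u : ℝ} (h : cis t = cis u) : ∃ m : ℤ, t = u + m * (2 * Real.pi) := by
  unfold cis at h
  obtain ⟨m, hm⟩ := Complex.exp_eq_exp_iff_exists_int.1 h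
  refine ⟨m, ?_⟩
  have h1 : (t : ℂ) = u + m * (2 * Real.pi) :=
    mul_right_cancel₀ Complex.I_ne_zero (by rw [hm]; ring)
  exact_mod_cast h1

theorem CapOm_K {P : Par} (hP : P.ok) : P.K ≠ 0 := by
  obtain ⟨⟨k, h1, h2⟩, -⟩ := hP
  have h3 : (0 : ℝ) < k := by exact_mod_cast h1
  rw [h2]
  positivity

theorem CapOm_hyp {P : Par} (hP : P.ok) {X : ℂ} (z : ℝ) (h : 1 / 25 < Complex.normSq X) :
    hyp P.ε X z = 1 := by
  obtain ⟨-, -, -, h1, h2⟩ := hP
  refine hyp_one' h1 z ?_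
  nlinarith

/-- The inverse of the outer patch from two branches of the argument. -/
noncomputable def CapOm_psi (K δ n : ℝ) (θ θ' : ℂ → ℝ) (e : Amb) : R4 :=
  !₂[K * θ e.1 / (2 * Real.pi),
    K * θ' e.2.1 / (2 * Real.pi) + 2 * n * (K * θ e.1 / (2 * Real.pi)), e.2.2, hgt δ e]

theorem CapOm_rec {K δ : ℝ} (hK : K ≠ 0) (hδ : 0 < δ) (n : ℝ) {θ θ' : ℂ → ℝ}
    (h1 : ∀ W : ℂ, (Real.sqrt (Complex.normSq W) : ℂ) * cis (θ W) = W)
    (h2 : ∀ W : ℂ, (Real.sqrt (Complex.normSq W) : ℂ) * cis (θ' W) = W) {e : Amb}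
    (he : Complex.normSq e.2.1 = 1) : EOm K δ n (CapOm_psi K δ n θ θ' e) = e := by
  have hp := Real.pi_ne_zero
  have e0 : 2 * Real.pi * CapOm_psi K δ n θ θ' e 0 / K = θ e.1 := by
    show 2 * Real.pi * (K * θ e.1 / (2 * Real.pi)) / K = _
    field_simp
  have e1 : 2 * Real.pi * (CapOm_psi K δ n θ θ' e 1 - 2 * n * CapOm_psi K δ n θ θ' e 0) / K =
      θ' e.2.1 := by
    show 2 * Real.pi * (K * θ' e.2.1 / (2 * Real.pi) + 2 * n * (K * θ e.1 / (2 * Real.pi)) -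
      2 * n * (K * θ e.1 / (2 * Real.pi))) / K = _
    field_simp
    ring
  have e3 : sOf δ (CapOm_psi K δ n θ θ' e 3) = Complex.normSq e.1 := sOf_rOf hδ e.1
  have h3 := h2 e.2.1
  rw [he, Real.sqrt_one, Complex.ofReal_one, one_mul] at h3
  unfold EOm
  rw [e0, e1, e3, h1, h3]
  rfl

theorem EOm_smooth {P : Par} (hP : P.ok) {y : R4} (hy : y ∈ capU P .om) :
    ContDiffAt ℝ ∞ (capE P .om) y := by
  have hδ : 0 < P.δ := hP.2.1
  have hy0 : 0 < y 3 := lt_trans two_pos hy.1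
  have hs := lt_sOf_top hδ hy0 hy.2
  have c := fun i => (contDiff_coord i).contDiffAt (x := y)
  have h1 : ContDiffAt ℝ ∞ (fun x : R4 => sOf P.δ (x 3)) y := by
    unfold sOf
    exact (contDiffAt_const.mul ((contDiffAt_const.div (contDiffAt_const.mul (c 3))
      (by positivity)).sub contDiffAt_const)).div_const _
  have h2 : ContDiffAt ℝ ∞ (fun x : R4 => (Real.sqrt (sOf P.δ (x 3)) : ℂ)) y :=
    Complex.ofRealCLM.contDiff.contDiffAt.comp y (h1.sqrt (by linarith))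
  have h3 : ContDiffAt ℝ ∞ (fun x : R4 => cis (2 * Real.pi * x 0 / P.K)) y :=
    contDiff_cis.contDiffAt.comp y ((contDiffAt_const.mul (c 0)).div_const _)
  have h4 : ContDiffAt ℝ ∞ (fun x : R4 => cis (2 * Real.pi * (x 1 - 2 * P.n * x 0) / P.K)) y :=
    contDiff_cis.contDiffAt.comp y
      ((contDiffAt_const.mul ((c 1).sub (contDiffAt_const.mul (c 0)))).div_const _)
  exact (h2.mul h3).prodMk (h4.prodMk (c 2))

theorem hgt_EOm {K δ n : ℝ} (h0 : 0 < δ) {q : R4} (h1 : 0 < q 3) (h2 : q 3 < ytop δ) :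
    hgt δ (EOm K δ n q) = q 3 := by
  have hs := lt_sOf_top h0 h1 h2
  unfold hgt
  rw [rOf_sOf h0 h1 (normSq_EOm (by linarith)), one_div_one_div]

theorem EOm_mem {P : Par} (hP : P.ok) {y : R4} (hy : y ∈ capU P .om) :
    capE P .om y ∈ Yo P.δ P.ε := by
  have hδ : 0 < P.δ := hP.2.1
  have hy0 : 0 < y 3 := lt_trans two_pos hy.1
  have hs := lt_sOf_top hδ hy0 hy.2
  refine ⟨?_, (two_lt_hgt_iff hδ _).1 ?_⟩
  · show Complex.normSq (cis _) = hyp P.ε (EOm P.K P.δ P.n y).1 _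
    rw [normSq_cis, CapOm_hyp hP]
    rwa [normSq_EOm (by linarith)]
  · show 2 < hgt P.δ (EOm P.K P.δ P.n y)
    rw [hgt_EOm hδ hy0 hy.2]
    exact hy.1

theorem EOm_inv {P : Par} (hP : P.ok) {y : R4} (hy : y ∈ capU P .om) :
    ∃ ψ, AmbInv P.ε (capE P .om) y ψ := by
  have hδ : 0 < P.δ := hP.2.1
  have hK := CapOm_K hP
  have hp := Real.pi_ne_zero
  have hy0 : 0 < y 3 := lt_trans two_pos hy.1
  have hs := lt_sOf_top hδ hy0 hy.2
  obtain ⟨θ, a1, a2, a3⟩ := exists_arg (r₀ := Real.sqrt (sOf P.δ (y 3)))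
    (Real.sqrt_pos.2 (by linarith)) (2 * Real.pi * y 0 / P.K)
  obtain ⟨θ', b1, b2, b3⟩ := exists_arg (r₀ := 1) one_pos
    (2 * Real.pi * (y 1 - 2 * P.n * y 0) / P.K)
  rw [Complex.ofReal_one, one_mul] at b1
  refine ⟨CapOm_psi P.K P.δ P.n θ θ', ?_, ?_, ?_⟩
  · have c1 : ContDiffAt ℝ ∞ (fun e : Amb => θ e.1) (capE P .om y) :=
      ContDiffAt.comp (g := θ) (f := fun e : Amb => e.1) _ a1 contDiffAt_fst
    have c2 : ContDiffAt ℝ ∞ (fun e : Amb => θ' e.2.1) (capE P .om y) :=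
      ContDiffAt.comp (g := θ') (f := fun e : Amb => e.2.1) _ b1 contDiffAt_snd.fst
    have c3 : ContDiffAt ℝ ∞ (fun e : Amb => P.K * θ e.1 / (2 * Real.pi)) (capE P .om y) :=
      (contDiffAt_const.mul c1).div_const _
    exact contDiffAt_mk4 c3
      (((contDiffAt_const.mul c2).div_const _).add (contDiffAt_const.mul c3))
      contDiffAt_snd.snd (contDiff_hgt hδ).contDiffAt
  · have c := fun i => (contDiff_coord i).continuous
    have t1 : ContinuousAt (fun x : R4 => 2 * Real.pi * x 0 / P.K) y :=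
      ((continuous_const.mul (c 0)).div_const _).continuousAt
    have t2 : ContinuousAt (fun x : R4 => 2 * Real.pi * (x 1 - 2 * P.n * x 0) / P.K) y :=
      ((continuous_const.mul ((c 1).sub (continuous_const.mul (c 0)))).div_const _).continuousAt
    filter_upwards [t1.eventually a3, t2.eventually b3,
      (c 3).continuousAt.eventually (lt_mem_nhds hy0),
      (c 3).continuousAt.eventually (gt_mem_nhds hy.2)] with z z1 z2 z3 z4
    have hz := lt_sOf_top hδ z3 z4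
    have e1 : θ (capE P .om z).1 = 2 * Real.pi * z 0 / P.K :=
      z1 _ (Real.sqrt_pos.2 (by linarith))
    have e2 : θ' (capE P .om z).2.1 = 2 * Real.pi * (z 1 - 2 * P.n * z 0) / P.K := by
      have := z2 1 one_pos
      rwa [Complex.ofReal_one, one_mul] at this
    have e3 : hgt P.δ (capE P .om z) = z 3 := hgt_EOm hδ z3 z4
    have e4 : (capE P .om z).2.2 = z 2 := rfl
    have f1 : P.K * (2 * Real.pi * z 0 / P.K) / (2 * Real.pi) = z 0 := by field_simp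
    have f2 : P.K * (2 * Real.pi * (z 1 - 2 * P.n * z 0) / P.K) / (2 * Real.pi) +
        2 * P.n * z 0 = z 1 := by
      field_simp
      ring
    unfold CapOm_psi
    rw [e1, e2, e3, e4, f1, f2, mk4_eta]
  · have t1 : ContinuousAt (fun e : Amb => Complex.normSq e.1) (capE P .om y) :=
      (contDiff_normSq.continuous.comp continuous_fst).continuousAt
    have h1 : 1 / 25 < Complex.normSq (capE P .om y).1 := by
      show 1 / 25 < Complex.normSq (EOm P.K P.δ P.n y).1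
      rwa [normSq_EOm (by linarith)]
    filter_upwards [t1.eventually (lt_mem_nhds h1)] with e e1 e2
    exact CapOm_rec hK hδ _ a2 b2 (e2.trans (CapOm_hyp hP _ e1))

theorem EOm_onto {P : Par} (hP : P.ok) {e : Amb} (he : e ∈ Yo P.δ P.ε)
    (h : hgt P.δ e < ytop P.δ) : ∃ y ∈ capU P .om, capE P .om y = e := by
  have hδ : 0 < P.δ := hP.2.1
  obtain ⟨θ, -, a2, -⟩ := exists_arg (r₀ := 1) one_pos 0
  refine ⟨CapOm_psi P.K P.δ P.n θ θ e, ⟨(two_lt_hgt_iff hδ e).2 he.2, h⟩, ?_⟩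
  exact CapOm_rec (CapOm_K hP) hδ _ a2 a2
    (he.1.trans (CapOm_hyp hP _ ((hgt_lt_top_iff hδ e).1 h)))

/-- The lattice `K ℤ³` acts on the outer patch through the translations of the axis. -/
theorem EOm_shift {K δ : ℝ} (hK : K ≠ 0) (n : ℤ) {q q' : R4} {a b c : ℤ}
    (h0 : q' 0 = q 0 + K * a) (h1 : q' 1 = q 1 + K * b) (h2 : q' 2 = q 2 + K * c)
    (h3 : q' 3 = q 3) : EOm K δ n q' = sh (K * c) (EOm K δ n q) := by
  have e0 : 2 * Real.pi * (q 0 + K * a) / K = 2 * Real.pi * q 0 / K + a * (2 * Real.pi) := by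
    field_simp
  have e1 : 2 * Real.pi * (q 1 + K * b - 2 * n * (q 0 + K * a)) / K =
      2 * Real.pi * (q 1 - 2 * n * q 0) / K + ((b - 2 * n * a : ℤ) : ℝ) * (2 * Real.pi) := by
    push_cast
    field_simp
    ring
  unfold EOm sh
  rw [h0, h1, h2, h3, e0, e1, CapOm_cis_int, CapOm_cis_int]

theorem EOm_inj {K δ : ℝ} (hK : K ≠ 0) (hδ : 0 < δ) (n : ℤ) {q q' : R4} (h1 : 0 < q 3)
    (h2 : q 3 < ytop δ) (h1' : 0 < q' 3) (h2' : q' 3 < ytop δ) {t : ℝ}
    (h : EOm K δ n q' = sh t (EOm K δ n q)) :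
    ∃ a b : ℤ, q' 0 = q 0 + K * a ∧ q' 1 = q 1 + K * b ∧ q' 2 = q 2 + t ∧ q' 3 = q 3 := by
  have hp := Real.pi_ne_zero
  have e3 : q' 3 = q 3 := by
    rw [← hgt_EOm (K := K) (n := n) hδ h1' h2', h, ← hgt_EOm (K := K) (n := n) hδ h1 h2]
    rfl
  have hs := lt_sOf_top hδ h1 h2
  have hr : (Real.sqrt (sOf δ (q 3)) : ℂ) ≠ 0 :=
    Complex.ofReal_ne_zero.2 (Real.sqrt_pos.2 (by linarith)).ne'
  have e0 : (Real.sqrt (sOf δ (q' 3)) : ℂ) * cis (2 * Real.pi * q' 0 / K) =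
      Real.sqrt (sOf δ (q 3)) * cis (2 * Real.pi * q 0 / K) := congrArg (fun e : Amb => e.1) h
  rw [e3] at e0
  obtain ⟨a, ha⟩ := CapOm_cis_inj (mul_left_cancel₀ hr e0)
  have e1 : cis (2 * Real.pi * (q' 1 - 2 * n * q' 0) / K) =
      cis (2 * Real.pi * (q 1 - 2 * n * q 0) / K) := congrArg (fun e : Amb => e.2.1) h
  obtain ⟨b, hb⟩ := CapOm_cis_inj e1
  have f0 : q' 0 = q 0 + K * a := by
    field_simp at ha
    linarith
  refine ⟨a, b + 2 * n * a, f0, ?_, congrArg (fun e : Amb => e.2.2) h, e3⟩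
  field_simp at hb
  push_cast
  rw [f0] at hb
  linarith

end Pool.Agent.Lib.MP_94aef8_gt.Cap
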