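import Pool.Agent.Lib.MP_94aef8_gt.CapRadInv

/-! Changing the scale of a cap. -/

open scoped Manifold ContDiff Topology

namespace Pool.Agent.Lib.MP_94aef8_gt.Cap

/-- The radial map in the variable `X`. -/
noncomputable def farMap (m : ℝ → ℝ) (e : Amb) : Amb :=
  (Real.sqrt (m (Complex.normSq e.1)) * e.1, e.2.1, e.2.2)

theorem capRad1_normSq {m : ℝ → ℝ} (hm : ∀ s, 0 < m s) (e : Amb) :
    Complex.normSq (farMap m e).1 = m (Complex.normSq e.1) * Complex.normSq e.1 := by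
  simp only [farMap]
  rw [Complex.normSq_mul, Complex.normSq_ofReal, Real.mul_self_sqrt (hm _).le]

theorem capRad1_lt {δ : ℝ} (h0 : 0 < δ) (X : ℂ) :
    δ * rOf δ X < 1 / 2 ↔ Complex.normSq X < sOf δ 2 := by
  have h1 : 3 / 4 * δ ^ 3 * sOf δ 2 = 1 / 2 - δ := by
    unfold sOf
    field_simp
  have h2 : δ * rOf δ X = δ + 3 / 4 * δ ^ 3 * Complex.normSq X := by
    unfold rOf
    ring
  rw [← mul_lt_mul_iff_right₀ (b := Complex.normSq X) (by positivity : 0 < 3 / 4 * δ ^ 3), h1, h2]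
  constructor <;> intro h <;> linarith

theorem half_far {K δ δ' ε n : ℝ} (h0 : 0 < δ) (h1 : δ ≤ 1 / 10) (h0' : 0 < δ')
    (h1' : δ' ≤ 1 / 10) (e0 : 0 < ε) (e1 : ε ≤ 1 / 10) {m m' : ℝ → ℝ} (hm : RadPair m m')
    (hone : ∀ s, s ≤ 1 → m s = 1)
    (hcol : ∀ y, 2 ≤ y → y ≤ 3 → m (sOf δ y) * sOf δ y = sOf δ' y) :
    Half K δ ε n δ' ε n (farMap m) (farMap m') := by
  obtain ⟨hs, hp, hmono, hinv⟩ := hm
  refine ⟨fun e he => ⟨?_, ?_⟩, ContDiff.contDiffOn ?_, fun e _ => ?_, fun e _ k => rfl,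
    fun x h2 h3 => ?_⟩
  · have h := he.1
    change Complex.normSq e.2.1 = hyp ε (farMap m e).1 e.2.2
    refine Eq.trans h ?_
    rcases le_or_gt (Complex.normSq e.1) 1 with h2 | h2
    · exact hyp_congr ε _ (by rw [capRad1_normSq hp, hone _ h2, one_mul])
    · have h3 : m 1 * 1 < m (Complex.normSq e.1) * Complex.normSq e.1 := hmono h2
      rw [hone 1 le_rfl, ← capRad1_normSq hp] at h3
      rw [hyp_one e0 e1 _ (by linarith), hyp_one e0 e1 _ (by linarith)]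
  · rw [capRad1_lt h0', capRad1_normSq hp, ← hcol 2 le_rfl (by norm_num)]
    exact hmono ((capRad1_lt h0 _).1 he.2)
  · refine ContDiff.prodMk (ContDiff.mul ?_ contDiff_fst) contDiff_snd
    exact Complex.ofRealCLM.contDiff.comp
      ((hs.comp (contDiff_normSq.comp contDiff_fst)).sqrt fun e => (hp _).ne')
  · refine Prod.ext ?_ rfl
    change (Real.sqrt (m' (Complex.normSq (farMap m e).1)) : ℂ) *
      (Real.sqrt (m (Complex.normSq e.1)) * e.1) = e.1
    rw [capRad1_normSq hp, ← mul_assoc, ← Complex.ofReal_mul, ← Real.sqrt_mul' _ (hp _).le, hinv,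
      Real.sqrt_one, Complex.ofReal_one, one_mul]
  · have h4 : 100 < sOf δ (x 3) := lt_sOf h0 h1 (by linarith) (by
      rw [lt_div_iff₀ (by positivity)]
      nlinarith)
    refine Prod.ext ?_ rfl
    change (Real.sqrt (m (Complex.normSq (EOm K δ n x).1)) : ℂ) *
      (Real.sqrt (sOf δ (x 3)) * cis (2 * Real.pi * x 0 / K)) =
        Real.sqrt (sOf δ' (x 3)) * cis (2 * Real.pi * x 0 / K)
    rw [normSq_EOm (by linarith), ← mul_assoc, ← Complex.ofReal_mul, ← Real.sqrt_mul (hp _).le,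
      hcol _ h2.le h3.le]

theorem ambIso_far {K δ δ' ε n : ℝ} (h0 : 0 < δ') (h1 : δ' ≤ δ) (h2 : δ ≤ 1 / 10)
    (e0 : 0 < ε) (e1 : ε ≤ 1 / 10) : AmbIso K δ ε n δ' ε n := by
  obtain ⟨m, m', a, b, c, d, e, f⟩ := exists_pair_far h0 h1 h2
  exact ⟨_, _, half_far (h0.trans_le h1) h2 h0 (h1.trans h2) e0 e1 a c e,
    half_far h0 (h1.trans h2) (h0.trans_le h1) h2 e0 e1 b d f⟩

end Pool.Agent.Lib.MP_94aef8_gt.Cap
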