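import Pool.Agent.Lib.MP_94aef8_gt.CapBasic

/-! Radial reparametrisations `s ↦ m s * s` and their inverses. -/

open scoped Manifold ContDiff Topology

namespace Pool.Agent.Lib.MP_94aef8_gt.Cap

/-- `m` is a smooth positive factor with `s ↦ m s * s` increasing, inverted by `u ↦ m' u * u`. -/
def RadPair (m m' : ℝ → ℝ) : Prop :=
  ContDiff ℝ ∞ m ∧ (∀ s, 0 < m s) ∧ StrictMono (fun s => m s * s) ∧ ∀ s, m' (m s * s) * m s = 1

theorem exists_radPair {m : ℝ → ℝ} (hm : ContDiff ℝ ∞ m) (hpos : ∀ s, 0 < m s)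
    (hd : ∀ s, 0 < deriv (fun s => m s * s) s)
    (hs : Function.Surjective fun s => m s * s) : ∃ m', RadPair m m' ∧ RadPair m' m := by
  have hg : StrictMono fun s => m s * s := strictMono_of_deriv_pos hd
  have hc : ContDiff ℝ ∞ fun s => m s * s := hm.mul contDiff_id
  let e := hg.orderIsoOfSurjective _ hs
  have he : ∀ s, e s = m s * s := fun _ => rfl
  have hi : ContDiff ℝ ∞ e.symm := e.toHomeomorph.contDiff_symm_deriv (fun s => (hd s).ne')
    (fun s => (hc.differentiable (by simp) s).hasDerivAt) hc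
  have h1 : ∀ u, (m (e.symm u))⁻¹ * u = e.symm u := fun u => by
    rw [inv_mul_eq_iff_eq_mul₀ (hpos _).ne', ← he, e.apply_symm_apply]
  refine ⟨fun u => (m (e.symm u))⁻¹, ⟨hm, hpos, hg, fun s => ?_⟩,
    (hm.comp hi).inv fun u => (hpos _).ne', fun u => inv_pos.2 (hpos _), ?_, fun u => ?_⟩
  · simp only [← he, e.symm_apply_apply, inv_mul_cancel₀ (hpos s).ne']
  · simp only [h1]
    exact e.symm.strictMono
  · simp only [h1, mul_inv_cancel₀ (hpos _).ne']

theorem capradinv_chi {a : ℝ} (ha : 0 < a) (s : ℝ) : ∃ d,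
    HasDerivAt (fun t => Real.smoothTransition (a * t - 1)) d s ∧ 0 ≤ d ∧ (s < 0 → d = 0) := by
  have h1 : ContDiff ℝ 1 fun t => Real.smoothTransition (a * t - 1) :=
    Real.smoothTransition.contDiff.comp (by fun_prop)
  have h2 : Monotone fun t => Real.smoothTransition (a * t - 1) := fun u v h =>
    Real.smoothTransition.monotone (by gcongr)
  refine ⟨_, (h1.differentiable (by simp) s).hasDerivAt, h2.deriv_nonneg, fun hs => ?_⟩
  have h3 : (fun t => Real.smoothTransition (a * t - 1)) =ᶠ[𝓝 s] fun _ => 0 :=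
    (eventually_lt_nhds hs).mono fun t ht =>
      Real.smoothTransition.zero_of_nonpos (by nlinarith [mul_pos ha (neg_pos.2 ht)])
  rw [h3.deriv_eq, deriv_const]

/-- The factor that changes the scale `δ`. -/
theorem exists_pair_far {δ δ' : ℝ} (h0 : 0 < δ') (h1 : δ' ≤ δ) (h2 : δ ≤ 1 / 10) :
    ∃ m m', RadPair m m' ∧ RadPair m' m ∧ (∀ s, s ≤ 1 → m s = 1) ∧ (∀ s, s ≤ 1 → m' s = 1) ∧
      (∀ y, 2 ≤ y → y ≤ 3 → m (sOf δ y) * sOf δ y = sOf δ' y) ∧
      (∀ y, 2 ≤ y → y ≤ 3 → m' (sOf δ' y) * sOf δ' y = sOf δ y) := by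
  have hδ : 0 < δ := h0.trans_le h1
  obtain ⟨a, ha⟩ : ∃ a, a = (δ / δ') ^ 3 - 1 := ⟨_, rfl⟩
  obtain ⟨c, hc⟩ : ∃ c, c = 4 / 3 * (δ - δ') / δ' ^ 3 := ⟨_, rfl⟩
  have ha0 : 0 ≤ a := ha ▸ sub_nonneg.2 (one_le_pow₀ ((one_le_div h0).2 h1))
  have hc0 : 0 ≤ c := hc ▸ div_nonneg (by linarith) (by positivity)
  obtain ⟨m, hm⟩ : ∃ m : ℝ → ℝ, m = fun s => 1 + Real.smoothTransition (1 * s - 1) * (a + c / s) :=
    ⟨_, rfl⟩
  have m1 : ∀ s, s ≤ 1 → m s = 1 := fun s hs => by
    simp only [hm, Real.smoothTransition.zero_of_nonpos (show 1 * s - 1 ≤ 0 by linarith), zero_mul,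
      add_zero]
  have m2 : ∀ s, 1 ≤ m s := fun s => by
    rcases le_or_gt s 1 with hs | hs
    · exact (m1 s hs).ge
    · have := Real.smoothTransition.nonneg (1 * s - 1)
      have h3 : 0 < s := by linarith
      rw [hm]
      exact le_add_of_nonneg_right (by positivity)
  have m3 : (fun s => m s * s) = fun s => s + Real.smoothTransition (1 * s - 1) * (a * s + c) := by
    funext s
    rcases eq_or_ne s 0 with rfl | hs
    · simp [Real.smoothTransition.zero_of_nonpos]
    · rw [hm]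
      field_simp
  have m4 : ContDiff ℝ ∞ m := contDiff_iff_contDiffAt.2 fun s => by
    rcases lt_or_ge s 1 with hs | hs
    · exact contDiffAt_const.congr_of_eventuallyEq
        ((eventually_lt_nhds hs).mono fun t ht => m1 t ht.le)
    · rw [hm]
      exact contDiffAt_const.add ((Real.smoothTransition.contDiffAt.comp s (by fun_prop)).mul
        (contDiffAt_const.add (contDiffAt_const.div contDiffAt_id (by simp; linarith))))
  have m5 : ∀ y, 2 ≤ y → y ≤ 3 → m (sOf δ y) * sOf δ y = sOf δ' y := fun y hy hy' => by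
    have hy0 : 0 < y := by linarith
    have h3 := lt_sOf hδ h2 hy0 ((lt_div_iff₀ (by positivity)).2 (by nlinarith))
    rw [congrFun m3, Real.smoothTransition.one_of_one_le (by linarith), ha, hc, sOf, sOf]
    field_simp
    ring
  have m6 : ∀ s, 0 < deriv (fun s => m s * s) s := fun s => by
    obtain ⟨d, h3, h4, h5⟩ := capradinv_chi one_pos s
    have h6 := (hasDerivAt_id' s).fun_add
      (h3.fun_mul (((hasDerivAt_id' s).const_mul a).add_const c))
    have h7 := Real.smoothTransition.nonneg (1 * s - 1)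
    rw [m3, h6.deriv]
    rcases lt_or_ge s 0 with hs | hs
    · rw [h5 hs, zero_mul, zero_add]
      positivity
    · positivity
  have m7 : Function.Surjective fun s => m s * s := by
    refine (m4.continuous.mul continuous_id).surjective
      (Filter.tendsto_atTop_mono' _ ?_ Filter.tendsto_id) (Filter.tendsto_id.congr' ?_)
    · filter_upwards [Filter.eventually_ge_atTop 0] with s hs
      exact le_mul_of_one_le_left hs (m2 s)
    · filter_upwards [Filter.eventually_le_atBot 1] with s hs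
      simp [m1 s hs]
  obtain ⟨m', p, p'⟩ := exists_radPair m4 (fun s => one_pos.trans_le (m2 s)) m6 m7
  refine ⟨m, m', p, p', m1, fun s hs => by simpa [m1 s hs] using p.2.2.2 s, m5,
    fun y hy hy' => ?_⟩
  rw [← m5 y hy hy', ← mul_assoc, p.2.2.2, one_mul]

/-- The factor that changes the radius `ε` of the bubbles. -/
theorem exists_pair_near {ε ε' : ℝ} (h0 : 0 < ε') (h1 : ε' ≤ ε) (h2 : ε ≤ 1 / 10) :
    ∃ m m', RadPair m m' ∧ RadPair m' m ∧ (∀ u, 1 / 2 ≤ u → m u = 1) ∧
      (∀ u, 1 / 2 ≤ u → m' u = 1) ∧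
      (∀ u, 0 ≤ u → alV (Real.sqrt (m u * u) / ε' - 1) = alV (Real.sqrt u / ε - 1)) ∧
      (∀ u, 0 ≤ u → alV (Real.sqrt (m' u * u) / ε - 1) = alV (Real.sqrt u / ε' - 1)) := by
  have hε : 0 < ε := h0.trans_le h1
  obtain ⟨k, hk⟩ : ∃ k, k = ε' / ε := ⟨_, rfl⟩
  have k0 : 0 < k := hk ▸ div_pos h0 hε
  have k1 : 0 ≤ 1 - k ^ 2 := sub_nonneg.2 (pow_le_one₀ k0.le (hk ▸ (div_le_one hε).2 h1))
  obtain ⟨m, hm⟩ : ∃ m : ℝ → ℝ,
    m = fun u => k ^ 2 + (1 - k ^ 2) * Real.smoothTransition (4 * u - 1) := ⟨_, rfl⟩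
  have m1 : ∀ u, 1 / 2 ≤ u → m u = 1 := fun u hu => by
    simp only [hm, Real.smoothTransition.one_of_one_le (show 1 ≤ 4 * u - 1 by linarith)]
    ring
  have m2 : ∀ u, u ≤ 1 / 4 → m u = k ^ 2 := fun u hu => by
    simp only [hm, Real.smoothTransition.zero_of_nonpos (show 4 * u - 1 ≤ 0 by linarith), mul_zero,
      add_zero]
  have m3 : ∀ u, k ^ 2 ≤ m u := fun u => by
    rw [hm]
    exact le_add_of_nonneg_right (mul_nonneg k1 (Real.smoothTransition.nonneg _))
  have m4 : ContDiff ℝ ∞ m := by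
    rw [hm]
    exact contDiff_const.add (contDiff_const.mul (Real.smoothTransition.contDiff.comp (by fun_prop)))
  have m5 : ∀ u, 0 ≤ u → alV (Real.sqrt (m u * u) / ε' - 1) = alV (Real.sqrt u / ε - 1) := by
    intro u hu
    have h3 : Real.sqrt (k ^ 2 * u) / ε' = Real.sqrt u / ε := by
      rw [Real.sqrt_mul (sq_nonneg k), Real.sqrt_sq k0.le, hk]
      field_simp
    rcases le_total u (1 / 4) with h | h
    · rw [m2 u h, h3]
    · have h4 : 1 / 2 ≤ Real.sqrt u := Real.le_sqrt_of_sq_le (by linarith)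
      have h5 : 5 ≤ Real.sqrt u / ε := (le_div_iff₀ hε).2 (by linarith)
      have h6 : Real.sqrt (k ^ 2 * u) / ε' ≤ Real.sqrt (m u * u) / ε' := by
        gcongr
        exact m3 u
      rw [alV_high (by linarith), alV_high (by linarith)]
  have mp : ∀ u, 0 < m u := fun u => (pow_pos k0 2).trans_le (m3 u)
  have m6 : ∀ s, 0 < deriv (fun s => m s * s) s := fun s => by
    obtain ⟨d, h3, h4, h5⟩ := capradinv_chi four_pos s
    have h6 : HasDerivAt m ((1 - k ^ 2) * d) s := hm ▸ (h3.const_mul _).const_add _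
    have h7 := mp s
    rw [(h6.fun_mul (hasDerivAt_id' s)).deriv]
    rcases lt_or_ge s 0 with hs | hs
    · rw [h5 hs, mul_zero, zero_mul, zero_add]
      positivity
    · positivity
  have m7 : Function.Surjective fun s => m s * s := by
    refine (m4.continuous.mul continuous_id).surjective (Filter.tendsto_id.congr' ?_)
      ((Filter.tendsto_id.const_mul_atBot (pow_pos k0 2)).congr' ?_)
    · filter_upwards [Filter.eventually_ge_atTop (1 / 2)] with s hs
      simp [m1 s hs]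
    · filter_upwards [Filter.eventually_le_atBot (1 / 4)] with s hs
      simp [m2 s hs]
  obtain ⟨m', p, p'⟩ := exists_radPair m4 mp m6 m7
  refine ⟨m, m', p, p', m1, fun s hs => by simpa [m1 s hs] using p.2.2.2 s, m5, fun u hu => ?_⟩
  rw [← m5 _ (mul_nonneg (p'.2.1 u).le hu), ← mul_assoc, p'.2.2.2, one_mul]

end Pool.Agent.Lib.MP_94aef8_gt.Cap
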