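import Pool.Agent.Lib.MP_94aef8_gt.CapBasic

/-! The rotations of `ℂ × ℝ` given by the quaternion `P + j η`, and the coordinate `b`. -/

open scoped Manifold ContDiff Topology

namespace Pool.Agent.Lib.MP_94aef8_gt.Cap

/-- The rotation of `ℂ × ℝ` given by the quaternion `P + j η`. -/
noncomputable def rot (P : ℂ) (η : ℝ) (v : ℂ × ℝ) : ℂ × ℝ :=
  ((P ^ 2 * v.1 - η ^ 2 * (starRingEnd ℂ) v.1 + 2 * η * P * v.2) / (Complex.normSq P + η ^ 2 : ℝ),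
    (v.2 * (Complex.normSq P - η ^ 2) - 2 * η * (P * v.1).re) / (Complex.normSq P + η ^ 2))

theorem CapRot_re (P : ℂ) (η : ℝ) (v : ℂ × ℝ) : (rot P η v).1.re =
    ((P.re ^ 2 - P.im ^ 2 - η ^ 2) * v.1.re - 2 * P.re * P.im * v.1.im + 2 * η * P.re * v.2) /
      (P.re * P.re + P.im * P.im + η ^ 2) := by
  rw [rot, Complex.div_ofReal_re, Complex.normSq_apply]
  congr 1
  simp [sq]
  ring

theorem CapRot_im (P : ℂ) (η : ℝ) (v : ℂ × ℝ) : (rot P η v).1.im =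
    ((P.re ^ 2 - P.im ^ 2 + η ^ 2) * v.1.im + 2 * P.re * P.im * v.1.re + 2 * η * P.im * v.2) /
      (P.re * P.re + P.im * P.im + η ^ 2) := by
  rw [rot, Complex.div_ofReal_im, Complex.normSq_apply]
  congr 1
  simp [sq]
  ring

theorem CapRot_snd (P : ℂ) (η : ℝ) (v : ℂ × ℝ) : (rot P η v).2 =
    (v.2 * (P.re * P.re + P.im * P.im - η ^ 2) - 2 * η * (P.re * v.1.re - P.im * v.1.im)) /
      (P.re * P.re + P.im * P.im + η ^ 2) := rfl

theorem rot_norm {P : ℂ} {η : ℝ} (h : 0 < Complex.normSq P + η ^ 2) (v : ℂ × ℝ) :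
    Complex.normSq (rot P η v).1 + (rot P η v).2 ^ 2 = Complex.normSq v.1 + v.2 ^ 2 := by
  rw [Complex.normSq_apply] at h
  simp only [Complex.normSq_apply, CapRot_re, CapRot_im, CapRot_snd]
  generalize hD : P.re * P.re + P.im * P.im + η ^ 2 = D at h
  field_simp
  rw [← hD]
  ring

theorem rot_inv {P : ℂ} {η : ℝ} (h : 0 < Complex.normSq P + η ^ 2) (v : ℂ × ℝ) :
    rot ((starRingEnd ℂ) P) (-η) (rot P η v) = v := by
  rw [Complex.normSq_apply] at h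
  refine Prod.ext (Complex.ext ?_ ?_) ?_ <;>
    simp only [CapRot_re, CapRot_im, CapRot_snd, Complex.conj_re, Complex.conj_im, neg_mul_neg,
      neg_sq] <;>
    generalize hD : P.re * P.re + P.im * P.im + η ^ 2 = D at h <;>
    field_simp <;> rw [← hD] <;> ring

theorem rot_zero {P : ℂ} (h : 0 < Complex.normSq P) (v : ℂ × ℝ) :
    rot P 0 v = (P ^ 2 * v.1 / (Complex.normSq P : ℝ), v.2) := by
  simp [rot, h.ne']

theorem rot_smooth {P : ℂ} {η : ℝ} (h : 0 < Complex.normSq P + η ^ 2) (v : ℂ × ℝ) :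
    ContDiffAt ℝ ∞ (fun q : ℂ × ℝ × ℂ × ℝ => rot q.1 q.2.1 q.2.2) (P, η, v) := by
  have h1 : ContDiff ℝ ∞ fun q : ℂ × ℝ × ℂ × ℝ => Complex.normSq q.1 :=
    contDiff_normSq.comp contDiff_fst
  have h2 := Complex.ofRealCLM.contDiff (n := ∞)
  have h3 : ContDiff ℝ ∞ fun q : ℂ × ℝ × ℂ × ℝ => (q.2.1 : ℂ) := h2.comp (by fun_prop)
  have h4 : ContDiff ℝ ∞ fun q : ℂ × ℝ × ℂ × ℝ => (q.2.2.2 : ℂ) := h2.comp (by fun_prop)
  have h5 : ContDiff ℝ ∞ fun q : ℂ × ℝ × ℂ × ℝ => (starRingEnd ℂ) q.2.2.1 :=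
    Complex.conjCLE.contDiff.comp (by fun_prop)
  have h6 : ContDiff ℝ ∞ fun q : ℂ × ℝ × ℂ × ℝ => (q.1 * q.2.2.1).re :=
    Complex.reCLM.contDiff.comp (f := fun q : ℂ × ℝ × ℂ × ℝ => q.1 * q.2.2.1) (by fun_prop)
  have h7 : ContDiff ℝ ∞ fun q : ℂ × ℝ × ℂ × ℝ => Complex.normSq q.1 + q.2.1 ^ 2 := by fun_prop
  refine ContDiffAt.prodMk ?_ (ContDiffAt.div (ContDiff.contDiffAt (by fun_prop)) h7.contDiffAt
    h.ne')
  simp only [div_eq_mul_inv]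
  exact ContDiffAt.mul (ContDiff.contDiffAt (by fun_prop))
    ((h2.comp h7).contDiffAt.inv (Complex.ofReal_ne_zero.2 h.ne'))

/-- The cutoff `η`: positive for `s < ε²/4`, zero for `s ≥ ε²/4`. -/
noncomputable def eta (ε s : ℝ) : ℝ := Real.smoothTransition (1 - 4 * s / ε ^ 2)

theorem contDiff_eta (ε : ℝ) : ContDiff ℝ ∞ (eta ε) := by
  exact Real.smoothTransition.contDiff.comp (by fun_prop)

theorem eta_zero {ε s : ℝ} (h0 : 0 < ε) (h : ε ^ 2 / 4 ≤ s) : eta ε s = 0 := by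
  refine Real.smoothTransition.zero_of_nonpos ?_
  rw [sub_nonpos, le_div_iff₀ (by positivity)]
  linarith

theorem eta_pos {ε s : ℝ} (h0 : 0 < ε) (hs : 0 ≤ s) : 0 < s + eta ε s ^ 2 := by
  rcases hs.eq_or_lt with rfl | h
  · simp [eta]
  · positivity

/-- The coordinate `b` along the axis, for `A = |X|^2 + 1 - ε^2`. -/
noncomputable def bb (A ζ : ℝ) : ℝ := 2 * ζ / (A + ζ ^ 2)

/-- The inverse of the coordinate `b`. -/
noncomputable def zz (A b : ℝ) : ℝ := b * A / (1 + Real.sqrt (1 - b ^ 2 * A))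

theorem zz_bb {A ζ : ℝ} (h0 : 0 < A) (h : ζ ^ 2 ≤ A) : zz A (bb A ζ) = ζ := by
  have h1 : 0 < A + ζ ^ 2 := by positivity
  have h2 : 1 - bb A ζ ^ 2 * A = ((A - ζ ^ 2) / (A + ζ ^ 2)) ^ 2 := by
    rw [bb]
    field_simp
    ring
  rw [zz, h2, Real.sqrt_sq (div_nonneg (sub_nonneg.2 h) h1.le), bb, one_add_div h1.ne',
    show A + ζ ^ 2 + (A - ζ ^ 2) = 2 * A by ring]
  field_simp

theorem bb_zz {A b : ℝ} (h0 : 0 < A) (h1 : A < 1) (h : b ^ 2 ≤ 1) : bb A (zz A b) = b := by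
  have h2 := Real.sq_sqrt (show 0 ≤ 1 - b ^ 2 * A by nlinarith)
  have h3 := Real.sqrt_nonneg (1 - b ^ 2 * A)
  rw [bb, zz]
  generalize Real.sqrt (1 - b ^ 2 * A) = q at h2 h3
  have h4 : A + (b * A / (1 + q)) ^ 2 = 2 * A / (1 + q) := by
    field_simp
    linear_combination h2
  rw [h4]
  field_simp

theorem abs_zz_lt {A b : ℝ} (h0 : 0 < A) (h1 : A < 1) (h : b ^ 2 ≤ 1) : |zz A b| < 1 := by
  have h3 := Real.sqrt_nonneg (1 - b ^ 2 * A)
  have h4 := (sq_le_one_iff_abs_le_one b).1 h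
  rw [zz, abs_div, abs_mul, abs_of_pos h0, abs_of_pos (add_pos_of_pos_of_nonneg one_pos h3),
    div_lt_one (by positivity)]
  nlinarith

theorem zz_smooth {A b : ℝ} (h0 : 0 < A) (h1 : A < 1) (h : b ^ 2 ≤ 1) :
    ContDiffAt ℝ ∞ (fun q : ℝ × ℝ => zz q.1 q.2) (A, b) := by
  refine ContDiffAt.div (by fun_prop) (contDiffAt_const.add (ContDiffAt.sqrt (by fun_prop) ?_))
    (by positivity)
  exact ne_of_gt (by nlinarith)

theorem bb_smooth {A : ℝ} (h0 : 0 < A) (ζ : ℝ) :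
    ContDiffAt ℝ ∞ (fun q : ℝ × ℝ => bb q.1 q.2) (A, ζ) := by
  exact ContDiffAt.div (by fun_prop) (by fun_prop) (by positivity)

end Pool.Agent.Lib.MP_94aef8_gt.Cap
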