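import Pool.Agent.Lib.MP_94aef8_gt.CapRot

/-! The tube round the arc of the axis between the bubbles `j` and `j + 1` is `S² × D²`. -/

open scoped Manifold ContDiff Topology

namespace Pool.Agent.Lib.MP_94aef8_gt.Cap

/-- `A = |X|^2 + 1 - ε^2`. -/
noncomputable def aa (ε : ℝ) (X : ℂ) : ℝ := Complex.normSq X + 1 - ε ^ 2

/-- The positive factor with `hyp * hh^2 = 1 - b^2`. -/
noncomputable def hh (ε : ℝ) (j : ℤ) (X : ℂ) (z : ℝ) : ℝ :=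
  ε ^ 2 * Real.sqrt (phiV (rad j X z / ε - 1) * phiV (rad (j + 1) X z / ε - 1) *
    (rad j X z / ε + 1) * (rad (j + 1) X z / ε + 1)) / (aa ε X + (z - (2 * j + 1)) ^ 2)

/-- The coordinates of a point of the tube on the sphere. -/
noncomputable def toS (ε : ℝ) (j : ℤ) (e : Amb) : ℂ × ℝ :=
  (e.2.1 * hh ε j e.1 e.2.2, bb (aa ε e.1) (e.2.2 - (2 * j + 1)))

/-- The point of the tube over `X` with given coordinates on the sphere. -/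
noncomputable def ofS (ε : ℝ) (j : ℤ) (X : ℂ) (v : ℂ × ℝ) : Amb :=
  (X, v.1 / hh ε j X (2 * j + 1 + zz (aa ε X) v.2), 2 * j + 1 + zz (aa ε X) v.2)

variable {ε : ℝ} {j : ℤ}

theorem capTube_in_pos (h0 : 0 < ε) (j : ℤ) (X : ℂ) (z : ℝ) :
    0 < phiV (rad j X z / ε - 1) * phiV (rad (j + 1) X z / ε - 1) *
      (rad j X z / ε + 1) * (rad (j + 1) X z / ε + 1) := by
  have a1 := phiV_pos (rad j X z / ε - 1)
  have a2 := phiV_pos (rad (j + 1) X z / ε - 1)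
  have a3 := rad_nonneg j X z
  have a4 := rad_nonneg (j + 1) X z
  positivity

theorem capTube_rad_one (ε : ℝ) (j : ℤ) (X : ℂ) (z : ℝ) :
    rad j X z ^ 2 - ε ^ 2 = aa ε X + (z - (2 * j + 1)) ^ 2 + 2 * (z - (2 * j + 1)) := by
  rw [rad_sq, aa]
  ring

theorem capTube_rad_two (ε : ℝ) (j : ℤ) (X : ℂ) (z : ℝ) :
    rad (j + 1) X z ^ 2 - ε ^ 2 = aa ε X + (z - (2 * j + 1)) ^ 2 - 2 * (z - (2 * j + 1)) := by
  rw [rad_sq, aa]
  push_cast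
  ring

theorem capTube_aa_smooth (ε : ℝ) : ContDiff ℝ ∞ (aa ε) :=
  (contDiff_normSq.add contDiff_const).sub contDiff_const

theorem capTube_aa_lt {X : ℂ} (hs : Complex.normSq X < ε ^ 2) : aa ε X < 1 := by
  unfold aa
  linarith

theorem capTube_sq_le {v : ℂ × ℝ} (hv : Complex.normSq v.1 + v.2 ^ 2 = 1) : v.2 ^ 2 ≤ 1 := by
  have := Complex.normSq_nonneg v.1
  linarith

theorem capTube_rad_sh (j m : ℤ) (X : ℂ) (z : ℝ) : rad (j + m) X (z + 2 * m) = rad j X z := by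
  unfold rad
  congr 3
  push_cast
  ring

theorem capTube_hh_sh (ε : ℝ) (j m : ℤ) (X : ℂ) (z : ℝ) :
    hh ε (j + m) X (z + 2 * m) = hh ε j X z := by
  have h : z + 2 * m - (2 * ((j + m : ℤ) : ℝ) + 1) = z - (2 * j + 1) := by
    push_cast
    ring
  unfold hh
  rw [add_right_comm j m 1, capTube_rad_sh, capTube_rad_sh, h]

theorem aa_pos (h0 : 0 < ε) (h1 : ε ≤ 1 / 10) (X : ℂ) : 0 < aa ε X := by
  have := Complex.normSq_nonneg X
  unfold aa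
  nlinarith

theorem hh_pos (h0 : 0 < ε) (h1 : ε ≤ 1 / 10) (j : ℤ) (X : ℂ) (z : ℝ) : 0 < hh ε j X z := by
  have h2 := aa_pos h0 h1 X
  have h3 := capTube_in_pos h0 j X z
  unfold hh
  exact div_pos (mul_pos (by positivity) (Real.sqrt_pos.2 h3)) (by positivity)

theorem hyp_mul_hh (h0 : 0 < ε) (h1 : ε ≤ 1 / 10) (X : ℂ) {z : ℝ} (h : |z - (2 * j + 1)| ≤ 1) :
    hyp ε X z * hh ε j X z ^ 2 = 1 - bb (aa ε X) (z - (2 * j + 1)) ^ 2 := by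
  have h2 := aa_pos h0 h1 X
  have h3 := capTube_in_pos h0 j X z
  have hD : 0 < aa ε X + (z - (2 * j + 1)) ^ 2 := by positivity
  have e1 := capTube_rad_one ε j X z
  have e2 := capTube_rad_two ε j X z
  have a1 := alV_mul (rad j X z / ε - 1)
  have a2 := alV_mul (rad (j + 1) X z / ε - 1)
  rw [hyp_two h0 h1 X h]
  unfold hh bb
  rw [div_pow, mul_pow, Real.sq_sqrt h3.le]
  generalize aa ε X + (z - (2 * j + 1)) ^ 2 = D at *
  generalize z - (2 * j + 1) = ζ at *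
  generalize rad j X z = r₁ at *
  generalize rad (j + 1) X z = r₂ at *
  have e3 : alV (r₁ / ε - 1) * alV (r₂ / ε - 1) * ((ε ^ 2) ^ 2 *
      (phiV (r₁ / ε - 1) * phiV (r₂ / ε - 1) * (r₁ / ε + 1) * (r₂ / ε + 1)) / D ^ 2) =
      (alV (r₁ / ε - 1) * phiV (r₁ / ε - 1)) * (alV (r₂ / ε - 1) * phiV (r₂ / ε - 1)) *
        (ε ^ 2) ^ 2 * (r₁ / ε + 1) * (r₂ / ε + 1) / D ^ 2 := by ring
  have e4 : (r₁ / ε - 1) * (r₂ / ε - 1) * (ε ^ 2) ^ 2 * (r₁ / ε + 1) * (r₂ / ε + 1) =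
      (r₁ ^ 2 - ε ^ 2) * (r₂ ^ 2 - ε ^ 2) := by
    field_simp
    ring
  rw [e3, a1, a2, e4, e1, e2]
  field_simp
  ring

theorem hh_smooth (h0 : 0 < ε) (h1 : ε ≤ 1 / 10) (X : ℂ) {z : ℝ} (h : |z - (2 * j + 1)| < 1) :
    ContDiffAt ℝ ∞ (fun q : ℂ × ℝ => hh ε j q.1 q.2) (X, z) := by
  have hz := abs_lt.1 h
  have r1 : 0 < rad j X z :=
    lt_of_lt_of_le (abs_pos.2 (by linarith [hz.1] : (0 : ℝ) < z - 2 * j).ne') (abs_le_rad j X z)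
  have r2 : 0 < rad (j + 1) X z := by
    refine lt_of_lt_of_le (abs_pos.2 (ne_of_lt ?_)) (abs_le_rad (j + 1) X z)
    push_cast
    linarith [hz.2]
  have s1 : ContDiffAt ℝ ∞ (fun q : ℂ × ℝ => rad j q.1 q.2 / ε) (X, z) :=
    (rad_smooth r1).div_const ε
  have s2 : ContDiffAt ℝ ∞ (fun q : ℂ × ℝ => rad (j + 1) q.1 q.2 / ε) (X, z) :=
    (rad_smooth r2).div_const ε
  have p1 : ContDiffAt ℝ ∞ (fun q : ℂ × ℝ => phiV (rad j q.1 q.2 / ε - 1)) (X, z) :=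
    contDiff_phiV.contDiffAt.comp (X, z) (s1.sub contDiffAt_const)
  have p2 : ContDiffAt ℝ ∞ (fun q : ℂ × ℝ => phiV (rad (j + 1) q.1 q.2 / ε - 1)) (X, z) :=
    contDiff_phiV.contDiffAt.comp (X, z) (s2.sub contDiffAt_const)
  have h2 := aa_pos h0 h1 X
  have h3 := capTube_in_pos h0 j X z
  have a1 : ContDiffAt ℝ ∞ (fun q : ℂ × ℝ => aa ε q.1) (X, z) :=
    (capTube_aa_smooth ε).contDiffAt.comp (X, z) contDiffAt_fst
  unfold hh
  refine ContDiffAt.div (contDiffAt_const.mul (ContDiffAt.sqrt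
    (((p1.mul p2).mul (s1.add contDiffAt_const)).mul (s2.add contDiffAt_const)) h3.ne'))
    (a1.add ((contDiffAt_snd.sub contDiffAt_const).pow 2)) ?_
  exact (by positivity : 0 < aa ε X + (z - (2 * j + 1)) ^ 2).ne'

/-- A point of the hypersurface near the axis lies strictly between two centres. -/
theorem tube_floor (h0 : 0 < ε) {e : Amb} (he : e ∈ YY ε) (hs : Complex.normSq e.1 < ε ^ 2) :
    |e.2.2 - (2 * (⌊e.2.2 / 2⌋ : ℤ) + 1)| < 1 := by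
  have h1 := le_rad_of_mem h0 he ⌊e.2.2 / 2⌋
  have h2 := rad_sq ⌊e.2.2 / 2⌋ e.1 e.2.2
  have h3 := Int.floor_le (e.2.2 / 2)
  have h4 := Int.lt_floor_add_one (e.2.2 / 2)
  have h5 : ε ^ 2 ≤ rad ⌊e.2.2 / 2⌋ e.1 e.2.2 ^ 2 := pow_le_pow_left₀ h0.le h1 2
  have h6 : e.2.2 - 2 * (⌊e.2.2 / 2⌋ : ℤ) ≠ 0 := by
    intro h
    rw [h] at h2
    linarith
  have h7 : 0 < e.2.2 - 2 * (⌊e.2.2 / 2⌋ : ℤ) := lt_of_le_of_ne (by linarith) h6.symm
  rw [abs_lt]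
  constructor <;> linarith

theorem floor_eq_of_lt {z : ℝ} (h : |z - (2 * j + 1)| < 1) : ⌊z / 2⌋ = j := by
  have hz := abs_lt.1 h
  rw [Int.floor_eq_iff]
  constructor <;> linarith [hz.1, hz.2]

theorem toS_norm (h0 : 0 < ε) (h1 : ε ≤ 1 / 10) {e : Amb} (he : e ∈ YY ε)
    (h : |e.2.2 - (2 * j + 1)| ≤ 1) :
    Complex.normSq (toS ε j e).1 + (toS ε j e).2 ^ 2 = 1 := by
  have h2 := hyp_mul_hh h0 h1 e.1 h
  have h3 : Complex.normSq e.2.1 = hyp ε e.1 e.2.2 := he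
  simp only [toS, map_mul, Complex.normSq_ofReal]
  rw [h3]
  linarith

theorem capTube_mul (h0 : 0 < ε) (h1 : ε ≤ 1 / 10) {e : Amb} (he : e ∈ YY ε)
    (h : |e.2.2 - (2 * j + 1)| ≤ 1) (c : ℂ) :
    ofS ε j e.1 (c * (toS ε j e).1, (toS ε j e).2) = (e.1, c * e.2.1, e.2.2) := by
  have e1 := capTube_rad_one ε j e.1 e.2.2
  have e2 := capTube_rad_two ε j e.1 e.2.2
  have a1 := pow_le_pow_left₀ h0.le (le_rad_of_mem h0 he j) 2
  have a2 := pow_le_pow_left₀ h0.le (le_rad_of_mem h0 he (j + 1)) 2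
  have hz := abs_le.1 h
  have h2 : (e.2.2 - (2 * j + 1)) ^ 2 ≤ aa ε e.1 := by
    generalize e.2.2 - (2 * j + 1) = ζ at *
    rcases le_total 0 ζ with h3 | h3
    · nlinarith [hz.2]
    · nlinarith [hz.1]
  have h4 := hh_pos h0 h1 j e.1 e.2.2
  simp only [ofS, toS]
  rw [zz_bb (aa_pos h0 h1 e.1) h2, add_sub_cancel, ← mul_assoc,
    mul_div_cancel_right₀ _ (Complex.ofReal_ne_zero.2 h4.ne')]

theorem ofS_toS (h0 : 0 < ε) (h1 : ε ≤ 1 / 10) {e : Amb} (he : e ∈ YY ε)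
    (h : |e.2.2 - (2 * j + 1)| ≤ 1) : ofS ε j e.1 (toS ε j e) = e := by
  have h2 := capTube_mul h0 h1 he h 1
  rw [one_mul, one_mul] at h2
  exact h2

/-- Multiplying the first coordinate on the sphere multiplies `W`. -/
theorem ofS_mul (h0 : 0 < ε) (h1 : ε ≤ 1 / 10) {e : Amb} (he : e ∈ YY ε)
    (h : |e.2.2 - (2 * j + 1)| ≤ 1) (c : ℂ) :
    ofS ε j e.1 (c * (toS ε j e).1, (toS ε j e).2) = (e.1, c * e.2.1, e.2.2) :=
  capTube_mul h0 h1 he h c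

theorem ofS_abs (h0 : 0 < ε) (h1 : ε ≤ 1 / 10) {X : ℂ} (hs : Complex.normSq X < ε ^ 2)
    {v : ℂ × ℝ} (hv : Complex.normSq v.1 + v.2 ^ 2 = 1) :
    |(ofS ε j X v).2.2 - (2 * j + 1)| < 1 := by
  have h2 := abs_zz_lt (aa_pos h0 h1 X) (capTube_aa_lt hs) (capTube_sq_le hv)
  simp only [ofS]
  rwa [add_sub_cancel_left]

theorem ofS_mem (h0 : 0 < ε) (h1 : ε ≤ 1 / 10) {X : ℂ} (hs : Complex.normSq X < ε ^ 2)
    {v : ℂ × ℝ} (hv : Complex.normSq v.1 + v.2 ^ 2 = 1) : ofS ε j X v ∈ YY ε := by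
  have h2 := ofS_abs (j := j) h0 h1 hs hv
  have h3 := hyp_mul_hh h0 h1 X h2.le
  have h4 := hh_pos h0 h1 j X (ofS ε j X v).2.2
  simp only [ofS] at h3 h4
  rw [add_sub_cancel_left, bb_zz (aa_pos h0 h1 X) (capTube_aa_lt hs) (capTube_sq_le hv)] at h3
  simp only [YY, ofS, Set.mem_ofPred_eq, map_div₀, Complex.normSq_ofReal]
  rw [div_eq_iff (mul_pos h4 h4).ne']
  linarith

theorem toS_ofS (h0 : 0 < ε) (h1 : ε ≤ 1 / 10) {X : ℂ} (hs : Complex.normSq X < ε ^ 2)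
    {v : ℂ × ℝ} (hv : Complex.normSq v.1 + v.2 ^ 2 = 1) : toS ε j (ofS ε j X v) = v := by
  have h4 := hh_pos h0 h1 j X (2 * j + 1 + zz (aa ε X) v.2)
  simp only [toS, ofS]
  rw [add_sub_cancel_left, bb_zz (aa_pos h0 h1 X) (capTube_aa_lt hs) (capTube_sq_le hv),
    div_mul_cancel₀ _ (Complex.ofReal_ne_zero.2 h4.ne')]

theorem capTube_comp {E F G : Type} [NormedAddCommGroup E] [NormedSpace ℝ E]
    [NormedAddCommGroup F] [NormedSpace ℝ F] [NormedAddCommGroup G] [NormedSpace ℝ G]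
    (Φ : F → ℝ → G) {f : E → F} {g : E → ℝ} {x : E}
    (h : ContDiffAt ℝ ∞ (fun q : F × ℝ => Φ q.1 q.2) (f x, g x)) (hf : ContDiffAt ℝ ∞ f x)
    (hg : ContDiffAt ℝ ∞ g x) : ContDiffAt ℝ ∞ (fun y => Φ (f y) (g y)) x :=
  ContDiffAt.comp (g := fun q : F × ℝ => Φ q.1 q.2) (f := fun y => (f y, g y)) x h (hf.prodMk hg)

theorem capTube_ofReal {E : Type} [NormedAddCommGroup E] [NormedSpace ℝ E] {g : E → ℝ} {x : E}
    (hg : ContDiffAt ℝ ∞ g x) : ContDiffAt ℝ ∞ (fun y => (g y : ℂ)) x :=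
  Complex.ofRealCLM.contDiff.contDiffAt.comp x hg

theorem capTube_aa_comp {E : Type} [NormedAddCommGroup E] [NormedSpace ℝ E] (ε : ℝ) {f : E → ℂ}
    {x : E} (hf : ContDiffAt ℝ ∞ f x) : ContDiffAt ℝ ∞ (fun y => aa ε (f y)) x :=
  (capTube_aa_smooth ε).contDiffAt.comp x hf

theorem toS_smooth (h0 : 0 < ε) (h1 : ε ≤ 1 / 10) {e : Amb} (h : |e.2.2 - (2 * j + 1)| < 1) :
    ContDiffAt ℝ ∞ (toS ε j) e := by
  have c1 : ContDiffAt ℝ ∞ (fun e : Amb => e.1) e := contDiffAt_fst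
  have c2 : ContDiffAt ℝ ∞ (fun e : Amb => e.2.1) e := contDiffAt_snd.fst
  have c3 : ContDiffAt ℝ ∞ (fun e : Amb => e.2.2) e := contDiffAt_snd.snd
  have c4 : ContDiffAt ℝ ∞ (fun e : Amb => e.2.2 - (2 * (j : ℝ) + 1)) e := c3.sub contDiffAt_const
  have s2 := capTube_comp (hh ε j) (f := fun e : Amb => e.1) (g := fun e : Amb => e.2.2) (x := e)
    (hh_smooth h0 h1 e.1 h) c1 c3
  have s4 := capTube_comp bb (f := fun e : Amb => aa ε e.1)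
    (g := fun e : Amb => e.2.2 - (2 * (j : ℝ) + 1)) (x := e) (bb_smooth (aa_pos h0 h1 e.1) _)
    (capTube_aa_comp ε c1) c4
  unfold toS
  exact (c2.mul (capTube_ofReal s2)).prodMk s4

theorem ofS_smooth (h0 : 0 < ε) (h1 : ε ≤ 1 / 10) {X : ℂ} (hs : Complex.normSq X < ε ^ 2)
    {v : ℂ × ℝ} (hv : Complex.normSq v.1 + v.2 ^ 2 = 1) :
    ContDiffAt ℝ ∞ (fun q : ℂ × ℂ × ℝ => ofS ε j q.1 q.2) (X, v) := by
  have c1 : ContDiffAt ℝ ∞ (fun e : ℂ × ℂ × ℝ => e.1) (X, v) := contDiffAt_fst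
  have c2 : ContDiffAt ℝ ∞ (fun e : ℂ × ℂ × ℝ => e.2.1) (X, v) := contDiffAt_snd.fst
  have c3 : ContDiffAt ℝ ∞ (fun e : ℂ × ℂ × ℝ => e.2.2) (X, v) := contDiffAt_snd.snd
  have s2 := capTube_comp zz (f := fun e : ℂ × ℂ × ℝ => aa ε e.1) (g := fun e : ℂ × ℂ × ℝ => e.2.2)
    (x := (X, v)) (zz_smooth (aa_pos h0 h1 X) (capTube_aa_lt hs) (capTube_sq_le hv))
    (capTube_aa_comp ε c1) c3
  have s3 : ContDiffAt ℝ ∞ (fun q : ℂ × ℂ × ℝ => 2 * (j : ℝ) + 1 + zz (aa ε q.1) q.2.2) (X, v) :=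
    contDiffAt_const.add s2
  have h3 : |2 * (j : ℝ) + 1 + zz (aa ε X) v.2 - (2 * j + 1)| < 1 := ofS_abs h0 h1 hs hv
  have s4 := capTube_comp (hh ε j) (f := fun e : ℂ × ℂ × ℝ => e.1)
    (g := fun q : ℂ × ℂ × ℝ => 2 * (j : ℝ) + 1 + zz (aa ε q.1) q.2.2) (x := (X, v))
    (hh_smooth h0 h1 X h3) c1 s3
  have h4 := hh_pos h0 h1 j X (2 * j + 1 + zz (aa ε X) v.2)
  have s5 := s4.inv h4.ne'
  simp only [ofS, div_eq_mul_inv, ← Complex.ofReal_inv]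
  exact c1.prodMk ((c2.mul (capTube_ofReal s5)).prodMk s3)

theorem toS_sh (ε : ℝ) (j m : ℤ) (e : Amb) : toS ε (j + m) (sh (2 * m) e) = toS ε j e := by
  simp only [toS, sh]
  rw [capTube_hh_sh]
  congr 2
  push_cast
  ring

theorem ofS_sh (ε : ℝ) (j m : ℤ) (X : ℂ) (v : ℂ × ℝ) :
    ofS ε (j + m) X v = sh (2 * m) (ofS ε j X v) := by
  have h : 2 * ((j + m : ℤ) : ℝ) + 1 + zz (aa ε X) v.2 = 2 * j + 1 + zz (aa ε X) v.2 + 2 * m := by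
    push_cast
    ring
  simp only [ofS, sh]
  rw [h, capTube_hh_sh]

end Pool.Agent.Lib.MP_94aef8_gt.Cap
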