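import Pool.Agent.Lib.MP_94aef8_gt.Defs

set_option autoImplicit false

/-! One shared copy of some automatically generated unfolding lemmas. -/

theorem Pool.Agent.Lib.MP_94aef8_gt.pdw_eq1Shared : type_of% @Pool.Agent.Lib.MP_94aef8_gt.pdw.eq_1 :=
  @Pool.Agent.Lib.MP_94aef8_gt.pdw.eq_1

theorem Pool.Agent.Lib.MP_94aef8_gt.pdw_eq2Shared : type_of% @Pool.Agent.Lib.MP_94aef8_gt.pdw.eq_2 :=
  @Pool.Agent.Lib.MP_94aef8_gt.pdw.eq_2

theorem Pool.Agent.Lib.MP_94aef8_gt.pdw_eqdefShared : type_of% @Pool.Agent.Lib.MP_94aef8_gt.pdw.eq_def :=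
  @Pool.Agent.Lib.MP_94aef8_gt.pdw.eq_def
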