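import Mathlib

/-!
Riemannian geometry of closed 4-manifolds in local coordinates: Christoffel symbols, Ricci tensor,
Einstein metrics, the Riemannian volume measure, the space of unit volume Einstein metrics with
the `C^∞` topology and its quotient by diffeomorphisms.
-/

open scoped Manifold ContDiff
open MeasureTheory

namespace Pool.Agent.Lib.MP_94aef8_gt

/-- Euclidean 4-space, the model space of the charts. -/
abbrev E4 : Type := EuclideanSpace ℝ (Fin 4)

/-- Real 4 by 4 matrices. -/
abbrev Mat : Type := Matrix (Fin 4) (Fin 4) ℝ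

/-- The `i`-th coordinate vector. -/
noncomputable def bas (i : Fin 4) : E4 := EuclideanSpace.single i 1

/-- The derivative `∂_i f` at `p`. -/
noncomputable def pd (i : Fin 4) (f : E4 → ℝ) (p : E4) : ℝ := fderiv ℝ f p (bas i)

/-- Christoffel symbols `Γ^k_{ij} = 1/2 ∑_l G^{kl} (∂_i G_{jl} + ∂_j G_{il} - ∂_l G_{ij})` of a
field `G` of metric coefficients. -/
noncomputable def chr (G : E4 → Mat) (k i j : Fin 4) (p : E4) : ℝ :=
  (1 / 2) * ∑ l, (G p)⁻¹ k l *
    (pd i (fun x => G x j l) p + pd j (fun x => G x i l) p - pd l (fun x => G x i j) p)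

/-- The Ricci tensor
`R_{jk} = ∑_i (∂_i Γ^i_{jk} - ∂_j Γ^i_{ik} + ∑_m (Γ^i_{im} Γ^m_{jk} - Γ^i_{jm} Γ^m_{ik}))`. -/
noncomputable def ric (G : E4 → Mat) (p : E4) : Mat :=
  Matrix.of fun j k => ∑ i, (pd i (chr G i j k) p - pd j (chr G i i k) p +
    ∑ m, (chr G i i m p * chr G m j k p - chr G i j m p * chr G m i k p))

/-- The iterated derivative `∂_{w_1} ... ∂_{w_k} f` along a word `w`. -/
noncomputable def pdw : List (Fin 4) → (E4 → ℝ) → E4 → ℝ
  | [], f => f
  | i :: w, f => pd i (pdw w f)

section Gen

variable {E : Type} [NormedAddCommGroup E] [NormedSpace ℝ E]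

/-- Smooth Riemannian metrics on a manifold `M` modelled on `E`. -/
abbrev RMet (E : Type) [NormedAddCommGroup E] [NormedSpace ℝ E] (M : Type) [TopologicalSpace M]
    [ChartedSpace E M] [IsManifold 𝓘(ℝ, E) ∞ M] : Type :=
  Bundle.ContMDiffRiemannianMetric 𝓘(ℝ, E) ∞ E (TangentSpace 𝓘(ℝ, E) : M → Type)

variable {M : Type} [TopologicalSpace M] [ChartedSpace E M]

/-- The differential at `p` of a map `φ : E → M`, applied to `v`. -/
noncomputable def push (φ : E → M) (p v : E) : TangentSpace 𝓘(ℝ, E) (φ p) :=
  mfderiv 𝓘(ℝ, E) 𝓘(ℝ, E) φ p v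

/-- The differential at `x` of a map `F : M → M`, applied to `v`. -/
noncomputable def dif (F : M → M) (x : M) (v : TangentSpace 𝓘(ℝ, E) x) :
    TangentSpace 𝓘(ℝ, E) (F x) :=
  mfderiv 𝓘(ℝ, E) 𝓘(ℝ, E) F x v

variable [IsManifold 𝓘(ℝ, E) ∞ M]

/-- The scalar product `g_x(v, w)` of two tangent vectors at `x`. -/
noncomputable def ip (g : RMet E M) (x : M) (v w : TangentSpace 𝓘(ℝ, E) x) : ℝ := g.inner x v w

/-- `g` is the pullback of `g'` by a diffeomorphism of `M`. -/
def PullbackOf (g g' : RMet E M) : Prop :=
  ∃ F : Diffeomorph 𝓘(ℝ, E) 𝓘(ℝ, E) M M ∞,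
    ∀ x v w, ip g x v w = ip g' (F x) (dif F x v) (dif F x w)

end Gen

/-- Smooth Riemannian metrics on the 4-manifold `M`. -/
abbrev Met (M : Type) [TopologicalSpace M] [ChartedSpace E4 M] [IsManifold 𝓘(ℝ, E4) ∞ M] : Type :=
  RMet E4 M

section Mfd

variable {M : Type} [TopologicalSpace M] [ChartedSpace E4 M] [IsManifold 𝓘(ℝ, E4) ∞ M]

/-- The coefficients `g_{ij}` of the metric `g` in the chart `e`. -/
noncomputable def coef (g : Met M) (e : OpenPartialHomeomorph M E4) (p : E4) : Mat :=
  Matrix.of fun i j => ip g (e.symm p) (push e.symm p (bas i)) (push e.symm p (bas j))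

/-- `Ric_g = c g` at every point, computed in the chart at the point. -/
def IsEinstein (g : Met M) (c : ℝ) : Prop :=
  ∀ x : M, ric (coef g (chartAt E4 x)) (chartAt E4 x x) = c • coef g (chartAt E4 x) (chartAt E4 x x)

variable [MeasurableSpace M]

/-- The measure `√(det g_{ij}) dy` of the chart `e`, carried over to `M`. -/
noncomputable def chartVol (g : Met M) (e : OpenPartialHomeomorph M E4) : Measure M :=
  Measure.map e.symm
    ((volume.restrict e.target).withDensity fun p => ENNReal.ofReal (Real.sqrt (coef g e p).det))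

/-- The Riemannian volume measure: the least measure dominating the measures of all the charts
(these agree on overlaps, so this glues them together). -/
noncomputable def vol (g : Met M) : Measure M := ⨆ x : M, chartVol g (chartAt E4 x)

variable (M) in
/-- Smooth Einstein metrics of total volume 1. -/
def Ein1 : Type := {g : Met M // vol g Set.univ = 1 ∧ ∃ c : ℝ, IsEinstein g c}

/-- The derivative along the word `w` of the coefficient `g_{ij}` in the chart at `x`, as a
function on the target of the chart with the topology of uniform convergence on compact subsets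
of the target. -/
noncomputable def jet (x : M) (w : List (Fin 4)) (i j : Fin 4) (g : Ein1 M) :
    UniformOnFun E4 ℝ {K | IsCompact K ∧ K ⊆ (chartAt E4 x).target} :=
  UniformOnFun.ofFun _ (pdw w fun p => coef g.1 (chartAt E4 x) p i j)

/-- The `C^∞` topology: locally uniform convergence of all derivatives in all charts. -/
noncomputable instance : TopologicalSpace (Ein1 M) :=
  ⨅ (x : M) (w : List (Fin 4)) (i : Fin 4) (j : Fin 4),
    TopologicalSpace.induced (jet x w i j) inferInstance

/-- `g` is the pullback of `g'` by a diffeomorphism of `M`. -/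
def Isom (g g' : Ein1 M) : Prop := PullbackOf g.1 g'.1

variable (M) in
/-- The moduli space of Einstein metrics, with the quotient topology. -/
def Moduli : Type := Quot (Isom (M := M))

noncomputable instance : TopologicalSpace (Moduli M) :=
  inferInstanceAs (TopologicalSpace (Quot (Isom (M := M))))

variable (M) in
/-- The set of Einstein constants of unit volume Einstein metrics. -/
def constants : Set ℝ := {c | ∃ g : Ein1 M, IsEinstein g.1 c}

end Mfd

end Pool.Agent.Lib.MP_94aef8_gt
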