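import Pool.Agent.Lib.MP_94aef8_gt.Cube

/-!
Tensor fields on a 4-manifold as matrix valued functions (components in the chart at the point),
patches, the global operators, the norms and the patch systems.
-/

open scoped Manifold ContDiff Topology ENNReal
open Matrix Filter Set MeasureTheory

namespace Pool.Agent.Lib.MP_94aef8_gt

section

variable {M : Type} [TopologicalSpace M] [ChartedSpace E4 M]
variable {N : Type} [TopologicalSpace N] [ChartedSpace E4 N]

/-- The matrix of the differential of a map between 4-manifolds. -/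
noncomputable def jm (F : N → M) (x : N) : Mat :=
  Matrix.of fun i a => (show E4 from mfderiv (𝓡 4) (𝓡 4) F x (bas a)) i

/-- Pullback of a rank two tensor field. With `N = E4` these are the components in a patch. -/
noncomputable def gpull (F : N → M) (h : M → Mat) (x : N) : Mat := (jm F x)ᵀ * h (F x) * jm F x

/-- Pullback of a vector field along a local diffeomorphism. -/
noncomputable def gpullV (F : N → M) (X : M → Fin 4 → ℝ) (x : N) : Fin 4 → ℝ :=
  (jm F x)⁻¹ *ᵥ X (F x)

/-- A patch: a smooth map on an open set with invertible differential (not always injective). -/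
structure Pt (π : N → M) (U : Set N) : Prop where
  isOpen : IsOpen U
  smooth : ContMDiffOn (𝓡 4) (𝓡 4) ∞ π U
  unit : ∀ y ∈ U, (jm π y).det ≠ 0

/-- The inverse of the chart at `x`. -/
noncomputable def ch (x : M) : E4 → M := (chartAt E4 x).symm

/-- The coordinates of `x` in the chart at `x`. -/
noncomputable def c0 (x : M) : E4 := chartAt E4 x x

/-- Smooth real functions. -/
abbrev Sm (f : M → ℝ) : Prop := ContMDiff (𝓡 4) 𝓘(ℝ, ℝ) ∞ f

/-- Smooth rank two tensor fields. -/
def SmG (h : M → Mat) : Prop := ∀ x : M, SmT (gpull (ch x) h) (chartAt E4 x).target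

/-- Smooth vector fields. -/
def SmVF (X : M → Fin 4 → ℝ) : Prop := ∀ x : M, SmV (gpullV (ch x) X) (chartAt E4 x).target

/-- Smooth Riemannian metrics as tensor fields. -/
structure GoodT (g : M → Mat) : Prop where
  smooth : SmG g
  pos : ∀ x, (g x).PosDef

/-- The tensor field of a Riemannian metric. -/
noncomputable def gm [IsManifold (𝓡 4) ∞ M] (g : Met M) (x : M) : Mat :=
  Matrix.of fun i j => ip g x (bas i) (bas j)

/-- A local operator on pairs (metric, tensor), evaluated in the chart at the point. -/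
noncomputable def atc {α : Type} (F : (E4 → Mat) → (E4 → Mat) → E4 → α) (g h : M → Mat) (x : M) :
    α := F (gpull (ch x) g) (gpull (ch x) h) (c0 x)

/-- The Ricci tensor. -/
noncomputable def GRic (g : M → Mat) (x : M) : Mat := ric (gpull (ch x) g) (c0 x)

/-- `Ric + 3 g`. -/
noncomputable def GE (g : M → Mat) (x : M) : Mat := GRic g x + (3 : ℝ) • g x

/-- The operator `P`. -/
noncomputable def GP (g h : M → Mat) : M → Mat := atc PP g h

/-- The nonlinear remainder. -/
noncomputable def GQ (g h : M → Mat) : M → Mat := atc QQ g h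

/-- The Einstein-DeTurck operator. -/
noncomputable def GPhi (g h : M → Mat) : M → Mat := atc Phi g h

/-- `|h|^2`. -/
noncomputable def n0 (g h : M → Mat) (x : M) : ℝ := ipM (g x) (h x) (h x)

/-- `⟨∇ h, ∇ k⟩`. -/
noncomputable def GD (g h k : M → Mat) (x : M) : ℝ :=
  ipD (gpull (ch x) g) (gpull (ch x) h) (gpull (ch x) k) (c0 x)

/-- The Koiso potential. -/
noncomputable def GKoi (g h : M → Mat) (x : M) : ℝ := koi (gpull (ch x) g) (c0 x) (h x)

/-- The zero order part of `⟨P h, h⟩`. -/
noncomputable def GPot (g h : M → Mat) (x : M) : ℝ := pot (gpull (ch x) g) (c0 x) (h x)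

/-- Divergence of a vector field. -/
noncomputable def GDiv (g : M → Mat) (X : M → Fin 4 → ℝ) (x : M) : ℝ :=
  dvg (gpull (ch x) g) (gpullV (ch x) X) (c0 x)

/-- The trace of `h`. -/
noncomputable def trg (g h : M → Mat) (x : M) : ℝ := ((g x)⁻¹ * h x).trace

/-- `F` is a local isometry of `g`. -/
structure IsoM (g : M → Mat) (F : M → M) : Prop where
  pt : Pt F univ
  eq : ∀ x, gpull F g x = g x

/-- Smooth symmetric tensor fields invariant under the maps in `S`. -/
structure InvT (S : Set (M → M)) (h : M → Mat) : Prop where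
  smooth : SmG h
  symm : ∀ x, (h x).IsSymm
  inv : ∀ F ∈ S, ∀ x, gpull F h x = h x

variable [MeasurableSpace M]

/-- The volume measure of a metric tensor field. -/
noncomputable def volT (g : M → Mat) : Measure M :=
  ⨆ x : M, Measure.map (ch x) ((volume.restrict (chartAt E4 x).target).withDensity
    fun p => ENNReal.ofReal (rho (gpull (ch x) g) p))

/-- Square of the norm on right hand sides. -/
noncomputable def NY2 (g : M → Mat) (s : M → ℝ) (f : M → Mat) : ℝ :=
  ∑ i ∈ Finset.range 5, ∫ x, s x ^ (4 * i + 2) * n0 g ((GP g)^[i] f) x ∂volT g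

/-- Square of the norm on solutions. -/
noncomputable def NX2 (g : M → Mat) (s : M → ℝ) (h : M → Mat) : ℝ :=
  (∫ x, (s x ^ 2)⁻¹ * n0 g h x ∂volT g) + NY2 g s (GP g h)

/-- A system of good patches with constant `C`, for the scale function `s` and the smallest
scale `ϱ`. -/
structure PSys (g : M → Mat) (s : M → ℝ) (ϱ C : ℝ) {A : Type} (Θ : A → E4 → M) (σ : A → ℝ) :
    Prop where
  cont : Continuous s
  pos : ∀ x, 0 < s x
  pt : ∀ a, Pt (Θ a) (Q 3)
  σpos : ∀ a, 0 < σ a
  σle : ∀ a, σ a ≤ 1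
  good : ∀ a, GoodB C fun y => (σ a ^ 2)⁻¹ • gpull (Θ a) g y
  sle : ∀ a, ∀ y ∈ Q 3, s (Θ a y) ≤ C * σ a
  sge : ∀ a, ∀ y ∈ Q 3, σ a ≤ C * s (Θ a y)
  cover : ∀ x, ∃ a, Θ a 0 = x
  chain : ∀ F₁ F₂ : M → ℝ≥0∞, Measurable F₁ → Measurable F₂ → ∀ L : ℝ≥0∞,
    (∀ a, ∫⁻ y in Q 1, F₁ (Θ a y) ≤ L * ∫⁻ y in Q 2, F₂ (Θ a y)) →
    ∫⁻ x, F₁ x ∂volT g ≤ ENNReal.ofReal C * L * ∫⁻ x, F₂ x ∂volT g
  mult : ∀ F : M → ℝ≥0∞, Measurable F → ∀ a,
    ∫⁻ y in Q 2, F (Θ a y) ≤ ENNReal.ofReal (C * ((ϱ * σ a) ^ 2)⁻¹) * ∫⁻ x, F x ∂volT g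

end

end Pool.Agent.Lib.MP_94aef8_gt
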