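import Pool.Agent.Lib.MP_94aef8_gt.Sys

/-!
Asymptotics of the geometric parameters.
-/

open scoped Topology
open Filter Set Real

namespace Pool.Agent.Lib.MP_94aef8_gt

theorem par_K (K n : ℕ) : (par K n).K = K := rfl

theorem par_n (K n : ℕ) : (par K n).n = n := rfl

theorem par_nu_pos (K n : ℕ) : 0 < (par K n).nu := Real.sqrt_pos.2 (by positivity)

theorem par_nu_sq (K n : ℕ) : (par K n).nu ^ 2 = 1 + 4 * (n : ℝ) ^ 2 := by
  unfold Par.nu
  rw [Real.sq_sqrt (by positivity)]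
  simp [par]

theorem par_δ (K n : ℕ) : (par K n).δ = 4 * π / (3 * K * (par K n).nu) := by
  simp [Par.nu, par]

theorem par_ϱ (K n : ℕ) : (par K n).ϱ = 1 / (3 * (par K n).nu ^ 2) := by
  rw [par_nu_sq]
  rfl

theorem par_ϱ_pos (K n : ℕ) : 0 < (par K n).ϱ := by
  change 0 < 1 / (3 * (1 + 4 * (n : ℝ) ^ 2))
  positivity

theorem par_δ_pos {K : ℕ} (h0 : 0 < K) (n : ℕ) : 0 < (par K n).δ := by
  have h1 : (0 : ℝ) < K := by exact_mod_cast h0
  have h2 := par_nu_pos K n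
  rw [par_δ]
  positivity

theorem par_ϱ_eq {K : ℕ} (h0 : 0 < K) (n : ℕ) :
    (par K n).ϱ = 3 * K ^ 2 / (16 * π ^ 2) * (par K n).δ ^ 2 := by
  have h1 : (0 : ℝ) < K := by exact_mod_cast h0
  have h2 := par_nu_pos K n
  rw [par_δ, par_ϱ]
  field_simp
  ring

theorem par_β {K : ℕ} (h0 : 0 < K) (n : ℕ) :
    (par K n).B * (par K n).ϱ = n / (1 + 4 * (n : ℝ) ^ 2) := by
  have h1 : (0 : ℝ) < K := by exact_mod_cast h0
  have h2 := par_nu_pos K n
  rw [← par_nu_sq K n, Par.B, par_δ, par_ϱ]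
  change 4 * π * ((n : ℤ) : ℝ) / (4 * π / (3 * K * (par K n).nu) * K * (par K n).nu) *
    (1 / (3 * (par K n).nu ^ 2)) = _
  push_cast
  field_simp

theorem par_nu_lim (K : ℕ) : Tendsto (fun n => (par K n).nu) atTop atTop := by
  refine tendsto_atTop_mono (fun n => ?_) tendsto_natCast_atTop_atTop
  refine Real.le_sqrt_of_sq_le ?_
  change (n : ℝ) ^ 2 ≤ 1 + 4 * ((n : ℤ) : ℝ) ^ 2
  push_cast
  nlinarith [sq_nonneg (n : ℝ)]

theorem par_δ_lim {K : ℕ} (h0 : 0 < K) : Tendsto (fun n => (par K n).δ) atTop (𝓝 0) := by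
  have h1 : (0 : ℝ) < K := by exact_mod_cast h0
  rw [funext (par_δ K)]
  exact tendsto_const_nhds.div_atTop ((par_nu_lim K).const_mul_atTop (by positivity))

theorem par_δ_small {K : ℕ} (h0 : 0 < K) {e : ℝ} (he : 0 < e) :
    ∀ᶠ n in atTop, (par K n).δ < e := (par_δ_lim h0).eventually (gt_mem_nhds he)

theorem par_β_lim {K : ℕ} (h0 : 0 < K) :
    Tendsto (fun n => (par K n).B * (par K n).ϱ) atTop (𝓝 0) := by
  simp only [par_β h0]
  refine squeeze_zero' (Eventually.of_forall fun n => by positivity) ?_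
    tendsto_inv_atTop_nhds_zero_nat
  filter_upwards [eventually_gt_atTop 0] with n hn
  have h1 : (0 : ℝ) < n := by exact_mod_cast hn
  rw [div_le_iff₀ (by positivity), inv_mul_eq_div, le_div_iff₀ h1]
  nlinarith

theorem par_geom {K : ℕ} (h0 : 0 < K) (h4 : 4 ∣ K) : ∀ᶠ n in atTop, (par K n).Geom := by
  have h1 : (0 : ℝ) < K := by exact_mod_cast h0
  have h2 : (0 : ℝ) < 16 * π ^ 2 / (300 * K ^ 2) := by positivity
  filter_upwards [par_δ_small h0 (by norm_num : (0 : ℝ) < 1 / 100), par_δ_small h0 h2,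
    eventually_gt_atTop 0] with n a1 a2 a3
  have h3 := par_δ_pos h0 n
  have h5 := par_nu_pos K n
  refine ⟨⟨h0, h4, h3, a1.le, par_ϱ_pos K n, ?_⟩, Int.natCast_pos.2 a3, par_δ K n, ?_⟩
  · rw [par_ϱ_eq h0]
    rw [lt_div_iff₀ (by positivity)] at a2
    rw [div_mul_eq_mul_div, div_le_div_iff₀ (by positivity) (by norm_num)]
    nlinarith
  · rw [par_ϱ, par_δ]
    change _ = 4 * π / (3 * K * (par K n).nu) * K / (4 * π * (par K n).nu)
    field_simp

end Pool.Agent.Lib.MP_94aef8_gt
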