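import Pool.Agent.Lib.MP_94aef8_gt.E2.Main
import Pool.Agent.Lib.MP_94aef8_gt.F.Main
import Pool.Agent.Lib.MP_94aef8_gt.H.Main
import Pool.Agent.Lib.MP_94aef8_gt.J.Main
import Pool.Agent.Lib.MP_94aef8_gt.L.Main
import Pool.Agent.Lib.MP_94aef8_gt.ParLim
import Pool.Agent.Lib.MP_94aef8_gt.C.Final

/-!
Assembly: infinitely many negative Einstein constants on one closed 4-manifold.
-/

open scoped Manifold ContDiff Topology
open Matrix Filter Set MeasureTheory Real

namespace Pool.Agent.Lib.MP_94aef8_gt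

/-- The closed manifold of the patch description. -/
abbrev MD.cm {P : Par} {A : Arith P.K} (D : MD P A) : CM :=
  ⟨D.M, D.top, D.t2, D.cpt, D.conn, D.chart, D.mfd, D.meas, D.borel⟩

theorem main_inf {T : Set ℝ} {V c C : ℝ} (hc : 0 < c) {d : ℕ → ℝ} (hd : ∀ n, 0 < d n)
    (hl : Tendsto d atTop (𝓝 0))
    (h : ∀ᶠ n in atTop, ∃ a ∈ T, |a - (V - c * d n ^ 3)| ≤ C * d n ^ 4) : T.Infinite := by
  intro hT
  have h1 : ∀ᶠ x in 𝓝 V, x ∉ T \ {V} :=
    (hT.subset sdiff_subset).isClosed.isOpen_compl.mem_nhds fun hx => hx.2 rfl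
  obtain ⟨e, he, h2⟩ := Metric.eventually_nhds_iff.1 h1
  have h3 : Tendsto (fun n => 2 * c * d n ^ 3) atTop (𝓝 0) := by
    simpa using (hl.pow 3).const_mul (2 * c)
  have h4 : Tendsto (fun n => C * d n) atTop (𝓝 0) := by simpa using hl.const_mul C
  obtain ⟨n, ⟨a, ha, h5⟩, h6, h7⟩ := (h.and ((h3.eventually (gt_mem_nhds he)).and
    (h4.eventually (gt_mem_nhds hc)))).exists
  have h8 : 0 < d n ^ 3 := pow_pos (hd n) 3
  have h9 : C * d n ^ 4 < c * d n ^ 3 := by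
    have := mul_lt_mul_of_pos_right h7 h8
    calc C * d n ^ 4 = C * d n * d n ^ 3 := by ring
      _ < _ := this
  obtain ⟨b1, b2⟩ := abs_le.1 h5
  have h10 : 0 < c * d n ^ 3 := mul_pos hc h8
  refine h2 (y := a) ?_ ⟨ha, fun h11 => ?_⟩
  · rw [Real.dist_eq, abs_lt]
    constructor <;> linarith
  · rw [mem_singleton_iff] at h11
    linarith

theorem main_rpow {K : ℕ} (h0 : 0 < K) {a e : ℝ} (ha : 0 < a) (he : 0 < e) :
    ∀ᶠ n in atTop, (par K n).l ^ a < e := by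
  have h1 : Tendsto (fun n => (par K n).l) atTop (𝓝 0) := by
    simpa [Par.l] using (par_δ_lim h0).const_mul 2
  exact (h1.rpow_const_nhds_zero ha).eventually (gt_mem_nhds he)

theorem main_n1 {N r δ : ℝ} (hN : 0 < N) (hr : 0 < r) (hδ : 0 < δ) (hδ1 : δ ≤ 1 / 100)
    (b : δ * (100 * N * r) < 1) : N * (r * δ ^ 2) ≤ 1 := by
  have h1 : 0 < δ * (100 * N * r) := by positivity
  have h2 : N * (r * δ ^ 2) = δ * (100 * N * r) * (δ / 100) := by ring
  rw [h2]
  exact mul_le_one₀ b.le (by positivity) (by linarith)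

theorem main_n2 {N r δ : ℝ} (hN : 0 < N) (hr : 0 < r) (hδ : 0 < δ) :
    N * (r * δ ^ 2) ≤ N * r * (2 * δ) ^ 2 := by
  have h1 := mul_pos (mul_pos hN hr) (pow_pos hδ 2)
  have h2 : N * r * (2 * δ) ^ 2 = 4 * (N * r * δ ^ 2) := by ring
  have h3 : N * (r * δ ^ 2) = N * r * δ ^ 2 := by ring
  linarith

theorem main_n3 {N r δ : ℝ} (hδ : 0 < δ) (b : δ * (100 * N * r) < 1) :
    N * (100 * (r * δ ^ 2)) ≤ 2 * δ := by
  have h1 := mul_lt_mul_of_pos_right b hδ
  have h2 : N * (100 * (r * δ ^ 2)) = δ * (100 * N * r) * δ := by ring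
  linarith

theorem main_n4 {a S V x C1 C3 u y : ℝ} (p : |a + S| ≤ C1 * (u * y)) (q : |-S + -V + x| ≤ C3 * y) :
    |a - (V - x)| ≤ (C1 * u + C3) * y := by
  have h1 : a - (V - x) = (a + S) + (-S + -V + x) := by ring
  have h2 : (C1 * u + C3) * y = C1 * (u * y) + C3 * y := by ring
  rw [h1, h2]
  exact (abs_add_le _ _).trans (add_le_add p q)

theorem main_E1 : ∃ Z : CM, (constants Z.M ∩ Iio 0).Infinite := by
  obtain ⟨C, A, c, hc, hJ1⟩ := thmJ1
  obtain ⟨N, hN, C', hL⟩ := thmL C A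
  obtain ⟨m, hm⟩ := exists_nat_ge N
  have h0 : 0 < 4 * (m + 1) := by omega
  have h4 : 4 ∣ 4 * (m + 1) := Dvd.intro _ rfl
  have hNK : N ≤ ((4 * (m + 1) : ℕ) : ℝ) / 2 := by
    push_cast
    linarith [Nat.cast_nonneg (α := ℝ) m]
  generalize 4 * (m + 1) = K at h0 h4 hNK
  have hK : (0 : ℝ) < K := by exact_mod_cast h0
  obtain ⟨Ar, Z, hG⟩ := thmGHI h0 h4
  obtain ⟨C2, hJ2⟩ := thmJ2 h0 h4 Ar
  obtain ⟨V, c3, C3, hc3, hJ3⟩ := thmJ3 h0 h4 Ar
  obtain ⟨c1, hc1, C1, hF⟩ := thmF C2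
  refine ⟨Z, ?_⟩
  set r : ℝ := 3 * K ^ 2 / (16 * π ^ 2) with hr
  have hr0 : 0 < r := by positivity
  set E : ℝ := max C' 1 with hE
  have hE1 : 1 ≤ E := le_max_right _ _
  set E2 : ℝ := max C2 1 with hE2
  have hE21 : 1 ≤ E2 := le_max_right _ _
  have key : {a | 0 < a ∧ -3 * √a ∈ constants Z.M}.Infinite := by
    refine main_inf (V := V) (C := C1 * r ^ 2 + C3) hc3 (par_δ_pos h0) (par_δ_lim h0) ?_
    have hβ : ∀ᶠ n in atTop, |(par K n).B * (par K n).ϱ| < 1 / N := by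
      have := (par_β_lim h0).abs
      rw [abs_zero] at this
      exact this.eventually (gt_mem_nhds (by positivity))
    filter_upwards [hG, hJ1 K h0 h4 Ar, hJ2, hJ3, par_geom h0 h4, hβ,
      main_rpow h0 (a := 1 / 10) (e := 1 / c) (by norm_num) (by positivity),
      main_rpow h0 (a := 9 / 10) (e := c / (N * r)) (by norm_num) (by positivity),
      main_rpow h0 (a := 1 / 5) (e := c1 * c ^ 8 / (E ^ 2 * E2)) (by norm_num) (by positivity),
      par_δ_small h0 (e := 1 / (100 * N * r)) (by positivity)]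
      with n ⟨D, ⟨X⟩, ⟨φ⟩⟩ j1 j2 j3 hP b1 b2 b3 b4 b5
    obtain ⟨B, _, U, Ψ, hB⟩ := j1 D X
    obtain ⟨⟨I, Θ, σ, hΘ⟩, hEr⟩ := j2 D X
    have j3' := j3 D X
    have hϱ := par_ϱ_eq h0 n
    rw [← hr] at hϱ
    have hδ := hP.δ0
    have hδ1 := hP.δ1
    have hϱ0 := hP.ϱ0
    have hϱ1 := hP.ϱ1
    have hl : (par K n).l = 2 * (par K n).δ := rfl
    generalize (par K n).B * (par K n).ϱ = β at *
    generalize (par K n).ϱ = ϱ at *
    generalize (par K n).l = l at *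
    generalize (par K n).δ = δ at *
    have hl0 : 0 < l := by linarith
    set t : ℝ := l ^ (1 / 10 : ℝ) with ht
    have ht0 : 0 < t := Real.rpow_pos_of_pos hl0 _
    have e1 : ∀ k : ℕ, l ^ ((k : ℝ) / 10) = t ^ k := fun k => by
      rw [ht, ← Real.rpow_natCast, ← Real.rpow_mul hl0.le]
      congr 1
      ring
    have e10 : l = t ^ 10 := by simpa using e1 10
    have e9 : l ^ (9 / 10 : ℝ) = t ^ 9 := by simpa using e1 9
    have e11 : l ^ (11 / 10 : ℝ) = t ^ 11 := by simpa using e1 11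
    have e2 : l ^ (1 / 5 : ℝ) = t ^ 2 := by
      rw [← e1 2]
      norm_num
    rw [e9, lt_div_iff₀ (by positivity)] at b3
    rw [e2, lt_div_iff₀ (by positivity)] at b4
    rw [lt_div_iff₀ hc] at b2
    rw [lt_div_iff₀ (by positivity)] at b5
    rw [lt_div_iff₀ hN] at b1
    rw [e11] at hB
    have hκ : 0 < c * t := by positivity
    have hκ1 : c * t ≤ 1 := by linarith
    have n1 : N * ϱ ≤ 1 := by
      rw [hϱ]
      exact main_n1 hN hr0 hδ hδ1 b5
    have n2 : N * ϱ ≤ c * t ^ 11 := by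
      have : N * ϱ ≤ t ^ 9 * (N * r) * t ^ 11 := by
        have h5 : t ^ 9 * (N * r) * t ^ 11 = N * r * l ^ 2 := by
          rw [e10]
          ring
        rw [h5, hϱ, hl]
        exact main_n2 hN hr0 hδ
      exact this.trans (mul_le_mul_of_nonneg_right b3.le (by positivity))
    have n3 : N ≤ l / (100 * ϱ) := by
      rw [le_div_iff₀ (by positivity), hϱ, hl]
      exact main_n3 hδ b5
    have hlin := hL D.cm X.g X.s X.S ϱ β _ _ _ _ B U Ψ X.good X.iso hB hNK hϱ0 n1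
      (by linarith) n2 n3 hκ hκ1
    have hΛ : 1 ≤ E * ((c * t) ^ 4)⁻¹ :=
      one_le_mul_of_one_le_of_one_le hE1 (one_le_inv₀ (by positivity) |>.2 (pow_le_one₀ hκ.le hκ1))
    have hNY : ∀ f, 0 ≤ NY2 X.g X.s f := fun f =>
      Finset.sum_nonneg fun i _ => integral_nonneg fun x =>
        mul_nonneg (pow_nonneg (hB.pos x).le _) (n0_nonneg X.good _ x)
    obtain ⟨g', hg', hEin, hvol⟩ := hF D.cm X.g X.s X.S ϱ (E * ((c * t) ^ 4)⁻¹) I Θ σ X.good X.iso
      hϱ0 (by linarith) hΘ hΛ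
      (fun h hh => (hlin h hh).trans (mul_le_mul_of_nonneg_right
        (mul_le_mul_of_nonneg_right (le_max_left _ _) (by positivity)) (hNY _)))
      (by
        have h5 : NY2 X.g X.s (GE X.g) ≤ E2 * t ^ 10 * ϱ ^ 2 := by
          refine hEr.trans (mul_le_mul_of_nonneg_right ?_ (by positivity))
          rw [← e10]
          exact mul_le_mul (le_max_left _ _) (by linarith) hδ.le (by linarith)
        refine (mul_le_mul_of_nonneg_left h5 (by positivity)).trans ?_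
        rw [← mul_assoc]
        refine mul_le_mul_of_nonneg_right ?_ (by positivity)
        have h6 : (E * ((c * t) ^ 4)⁻¹) ^ 2 * (E2 * t ^ 10) = t ^ 2 * (E ^ 2 * E2) / c ^ 8 := by
          field_simp
        rw [h6, div_le_iff₀ (by positivity)]
        exact b4.le)
    have hne : Nonempty D.M := inferInstance
    refine ⟨_, MP_94aef8_gt.thmC φ hg' hEin, ?_⟩
    have h7 : ϱ ^ 2 = r ^ 2 * δ ^ 4 := by
      rw [hϱ]
      ring
    rw [h7] at hvol
    refine main_n4 hvol (le_trans (le_of_eq ?_) j3')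
    rw [← abs_neg]
    congr 1
    ring
  refine (key.image (f := fun a => -3 * √a) fun a ha b hb hab => ?_).mono ?_
  · have h5 : √a = √b := by
      simp only at hab
      linarith
    exact (Real.sqrt_inj ha.1.le hb.1.le).1 h5
  · rintro _ ⟨a, ha, rfl⟩
    exact ⟨ha.2, by
      have := Real.sqrt_pos.2 ha.1
      simp only [mem_Iio]
      linarith⟩

theorem main_E2 : ∃ (M : Type) (_ : TopologicalSpace M) (_ : T2Space M) (_ : CompactSpace M)
    (_ : ConnectedSpace M) (_ : ChartedSpace E4 M) (_ : IsManifold 𝓘(ℝ, E4) ∞ M)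
    (_ : MeasurableSpace M) (_ : BorelSpace M),
    (constants M).Infinite ∧ Infinite (ConnectedComponents (Moduli M)) := by
  obtain ⟨Z, hZ⟩ := main_E1
  exact ⟨Z.M, Z.top, Z.t2, Z.cpt, Z.conn, Z.chart, Z.mfd, Z.meas, Z.borel,
    hZ.mono inter_subset_left, thmE2 hZ⟩

end Pool.Agent.Lib.MP_94aef8_gt
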