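import Pool.Agent.Lib.MP_94aef8_gt.GDefs

/-!
The model metrics, the transition maps, the abstract hyperbolic data and the abstract description
of the glued manifold.
Coordinates: slab `(x1, x2, x3, y)`, core `(X1, X2, ζ, t)`, bolt `(w1, w2, p1, p2)`.
-/

open scoped Manifold ContDiff Topology
open Matrix Filter Set MeasureTheory Real

namespace Pool.Agent.Lib.MP_94aef8_gt

/-- The point with given coordinates. -/
noncomputable def mk4 (a b c d : ℝ) : E4 := WithLp.toLp 2 ![a, b, c, d]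

/-- The symmetric square of a covector. -/
def sq1 (a : Fin 4 → ℝ) : Mat := vecMulVec a a

/-- Twice the symmetric product of two covectors. -/
def sym2 (a b : Fin 4 → ℝ) : Mat := vecMulVec a b + vecMulVec b a

/-- The coordinate covectors. -/
def ee (i : Fin 4) : Fin 4 → ℝ := Pi.single i 1

/-- `x0 ^ 2 + x1 ^ 2`. -/
def u01 (x : E4) : ℝ := x 0 ^ 2 + x 1 ^ 2

/-- `x2 ^ 2 + x3 ^ 2`. -/
def u23 (x : E4) : ℝ := x 2 ^ 2 + x 3 ^ 2

/-- The covector `x0 dx1 - x1 dx0`. -/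
def l01 (x : E4) : Fin 4 → ℝ := ![-x 1, x 0, 0, 0]

/-- The covector `x2 dx3 - x3 dx2`. -/
def l23 (x : E4) : Fin 4 → ℝ := ![0, 0, -x 3, x 2]

/-- Rotation of the first two coordinates by the angle `a`. -/
noncomputable def rot (a : ℝ) (x : E4) : E4 :=
  mk4 (cos a * x 0 - sin a * x 1) (sin a * x 0 + cos a * x 1) (x 2) (x 3)

/-- Upper half space. -/
def UH : Set E4 := {p | 0 < p 3}

/-- The hyperbolic metric. -/
noncomputable def GH (p : E4) : Mat := (p 3 ^ 2)⁻¹ • (1 : Mat)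

/-- Horizontal translation by `K v`. -/
noncomputable def trl (K : ℝ) (v : Fin 3 → ℤ) (p : E4) : E4 :=
  mk4 (p 0 + K * v 0) (p 1 + K * v 1) (p 2 + K * v 2) (p 3)

/-- The symmetries of a cusp: `x ↦ diag(e, e, e') x + 2 v`. -/
structure Sy : Type where
  e : ℤˣ
  e' : ℤˣ
  v : Fin 3 → ℤ

/-- The action of a cusp symmetry on the slab. -/
noncomputable def Sy.act (u : Sy) (p : E4) : E4 :=
  mk4 (((u.e : ℤ) : ℝ) * p 0 + 2 * u.v 0) (((u.e : ℤ) : ℝ) * p 1 + 2 * u.v 1)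
    (((u.e' : ℤ) : ℝ) * p 2 + 2 * u.v 2) (p 3)

/-- A cusped hyperbolic 4-manifold with cusp lattices `K ℤ^3`, given by one copy of upper half
space for each cusp and the sets of transition maps. -/
structure Arith (K : ℕ) : Type 1 where
  C : Type
  fin : Finite C
  ne : Nonempty C
  Tr : C → C → Set (E4 → E4)
  refl : ∀ c, id ∈ Tr c c
  comp : ∀ {a b c τ τ'}, τ ∈ Tr a b → τ' ∈ Tr b c → τ' ∘ τ ∈ Tr a c
  inv : ∀ {a b τ}, τ ∈ Tr a b → ∃ τ' ∈ Tr b a, ∀ p ∈ UH, τ' (τ p) = p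
  ld : ∀ {a b τ}, τ ∈ Tr a b → LDif τ UH UH
  iso : ∀ {a b τ}, τ ∈ Tr a b → ∀ p ∈ UH, pull τ GH p = GH p
  high : ∀ {a b τ}, τ ∈ Tr a b → ∀ p ∈ UH, 1 < p 3 * τ p 3 →
    a = b ∧ ∃ v, ∀ q ∈ UH, τ q = trl K v q
  lat : ∀ c v, ∃ τ ∈ Tr c c, ∀ q ∈ UH, τ q = trl K v q
  proper : ∀ a b (S S' : Set E4), IsCompact S → IsCompact S' → S ⊆ UH → S' ⊆ UH →
    {τ | τ ∈ Tr a b ∧ ∃ p ∈ S, τ p ∈ S'}.Finite
  free : ∀ {c τ}, τ ∈ Tr c c → ∀ p ∈ UH, τ p = p → ∀ q ∈ UH, τ q = q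
  red : ∀ c, ∀ p ∈ UH, ∃ c', ∃ τ ∈ Tr c c', 3 / 8 ≤ τ p 3
  sym : ∀ c (u : Sy), ∃ (φ : C → C) (U : C → Sy), φ c = c ∧ U c = u ∧
    ∀ a b, ∀ τ ∈ Tr a b, ∃ τ' ∈ Tr (φ a) (φ b), ∀ q ∈ UH, τ' ((U a).act q) = (U b).act (τ q)
  conn : ∀ c c', Relation.ReflTransGen (fun a b => ∃ τ ∈ Tr a b, ∃ p : E4,
    1 / 3 < p 3 ∧ p 3 < 3 ∧ 1 / 3 < τ p 3 ∧ τ p 3 < 3) c c'

/-- Parameters of the gluing. -/
structure Par : Type where
  K : ℕ
  n : ℤ
  δ : ℝ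
  ϱ : ℝ

namespace Par

variable (P : Par)

/-- The parameters for which the manifold is defined. -/
structure Ok : Prop where
  K0 : 0 < P.K
  K4 : 4 ∣ P.K
  δ0 : 0 < P.δ
  δ1 : P.δ ≤ 1 / 100
  ϱ0 : 0 < P.ϱ
  ϱ1 : P.ϱ ≤ P.δ / 100

/-- `√(1 + 4 n ^ 2)`. -/
noncomputable def nu : ℝ := √(1 + 4 * (P.n : ℝ) ^ 2)

/-- The parameters for which the metric is defined. -/
structure Geom : Prop extends P.Ok where
  n0 : 0 < P.n
  hδ : P.δ = 4 * π / (3 * P.K * P.nu)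
  hϱ : P.ϱ = P.δ * P.K / (4 * π * P.nu)

/-- Distance of neighbouring centres. -/
noncomputable def l : ℝ := 2 * P.δ

/-- The twist rate. -/
noncomputable def B : ℝ := 4 * π * P.n / (P.δ * P.K * P.nu)

/-- Third coordinate relative to the centre number `j`. -/
noncomputable def zj (j : ℤ) (x : E4) : ℝ := x 2 - j * P.l

/-- Distance to the centre number `j`. -/
noncomputable def Rj (j : ℤ) (x : E4) : ℝ := √(u01 x + P.zj j x ^ 2)

/-- The nearest centre. -/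
noncomputable def jn (x : E4) : ℤ := round (x 2 / P.l)

/-- Distance to the nearest centre. -/
noncomputable def Rn (x : E4) : ℝ := P.Rj (P.jn x) x

/-- The slab, up to the level where `|X| = l / 10`. -/
def UO : Set E4 := {p | 1 / 3 < p 3 ∧ P.δ * p 3 * (1 + 3 / 4 * (P.l / 10) ^ 2) < 1}

/-- The core region. -/
def UC : Set E4 := {x | u01 x < 8 / 3 ∧ ∀ j : ℤ, P.ϱ < P.Rj j x}

/-- `1 - χ(y) δ^3 y^3`. -/
noncomputable def vO (y : ℝ) : ℝ := 1 - smoothTransition (y - 3) * (P.δ * y) ^ 3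

/-- The metric on the slab: hyperbolic for `y ≤ 3`, the black hole for `4 ≤ y`. -/
noncomputable def GO (p : E4) : Mat :=
  (p 3 ^ 2)⁻¹ • ((P.vO (p 3))⁻¹ • sq1 (ee 3) + P.vO (p 3) • sq1 ![1 / P.nu, 2 * P.n / P.nu, 0, 0] +
    sq1 ![-2 * P.n / P.nu, 1 / P.nu, 0, 0] + sq1 (ee 2))

end Par

/-- The bolt region. -/
def UN : Set E4 := {z | u01 z < 3}

/-- The radial function of the black hole. -/
noncomputable def rB (x : E4) : ℝ := 1 + 3 / 4 * u01 x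

/-- The black hole metric in Cartesian coordinates, with the angle form `dθ` replaced by
`dθ + b dt`. -/
noncomputable def GBH (b : ℝ) (x : E4) : Mat :=
  (3 * rB x / (rB x ^ 2 + rB x + 1)) • (sq1 (ee 0) + sq1 (ee 1) + b • sym2 (l01 x) (ee 3) +
      (b ^ 2 * u01 x) • sq1 (ee 3)) +
    (3 / 16 * u01 x * (rB x ^ 2 + 4 * rB x + 1) / (rB x * (rB x ^ 2 + rB x + 1))) •
      sq1 (l01 x + (b * u01 x) • ee 3) +
    rB x ^ 2 • (sq1 (ee 2) + sq1 (ee 3))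

/-- The cut-off of the twist: `0` below `3/2`, `1` above `2`. -/
noncomputable def chiT (u : ℝ) : ℝ := smoothTransition (2 * u - 3)

/-- The cut-off of the shell: `1` below `1/20`, `0` above `1/10`. -/
noncomputable def chiS (u : ℝ) : ℝ := smoothTransition (2 - 20 * u)

/-- Schwarzschild metric of radius `ϱ` at the point with coordinates `(x0, x1, z)`, `R` the
distance to the centre, with the angle form `dθ` replaced by `dθ + b dt`. -/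
noncomputable def GSW (ϱ b z R : ℝ) (x : E4) : Mat :=
  sq1 (ee 0) + sq1 (ee 1) + sq1 (ee 2) + (ϱ / ((R - ϱ) * R ^ 2)) • sq1 ![x 0, x 1, z, 0] +
    (1 - ϱ / R + b ^ 2 * u01 x) • sq1 (ee 3) + b • sym2 (l01 x) (ee 3)

/-- Distance to the origin in the first three coordinates. -/
noncomputable def R3 (x : E4) : ℝ := √(u01 x + x 2 ^ 2)

/-- The metric of the ball in twisted coordinates and unit scale, twist rate `b`;
`GB 0` is the Schwarzschild metric. -/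
noncomputable def GB (b : ℝ) (x : E4) : Mat := GSW 1 (b * chiT (R3 x)) (x 2) (R3 x) x

/-- The metric near the bolt in unit scale, twist rate `b`. -/
noncomputable def GN (b : ℝ) (z : E4) : Mat :=
  (4 * (1 + u01 z)) • (sq1 (ee 0) + sq1 (ee 1)) - (4 * (2 + u01 z) / (1 + u01 z)) • sq1 (l01 z) +
    (4 * (1 + u01 z) ^ 2 / (1 + u23 z) ^ 2) • (sq1 (ee 2) + sq1 (ee 3) +
      (2 * b * chiT (1 + u01 z) / u01 z) • sym2 (l23 z) (l01 z) +
      ((2 * b * chiT (1 + u01 z) / u01 z) ^ 2 * u23 z) • sq1 (l01 z))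

/-- From the unit ball region to the bolt coordinates, hemisphere `e`. -/
noncomputable def P2u (e : ℤˣ) (x : E4) : E4 :=
  mk4 (√(R3 x - 1) * cos (x 3 / 2)) (√(R3 x - 1) * sin (x 3 / 2))
    (x 0 / (R3 x + ((e : ℤ) : ℝ) * x 2)) (x 1 / (R3 x + ((e : ℤ) : ℝ) * x 2))

/-- Change of hemisphere. -/
noncomputable def P3 (z : E4) : E4 := mk4 (z 0) (z 1) (z 2 / u23 z) (z 3 / u23 z)

namespace Par

variable (P : Par)

/-- The metric of the core near one centre (placed at the origin), twisted coordinates. -/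
noncomputable def GT (x : E4) : Mat :=
  chiS (R3 x / P.l) • GSW P.ϱ (P.B * chiT (R3 x / P.ϱ)) (x 2) (R3 x) x +
    (1 - chiS (R3 x / P.l)) • GBH P.B x

/-- The domain of `GT`. -/
def UT : Set E4 := {x | u01 x < 8 / 3 ∧ |x 2| < 9 / 10 * P.l ∧ P.ϱ < R3 x}

/-- Translation from the origin to the centre `j`. -/
noncomputable def sh (j : ℤ) (x : E4) : E4 := mk4 (x 0) (x 1) (x 2 + j * P.l) (x 3)

/-- From the slab to the twisted core coordinates. -/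
noncomputable def P1 (p : E4) : E4 :=
  mk4 (√(4 / 3 * (1 / (P.δ * p 3) - 1)) * cos (2 * π * p 0 / P.K))
    (√(4 / 3 * (1 / (P.δ * p 3) - 1)) * sin (2 * π * p 0 / P.K)) (P.δ * p 2)
    (4 * π * P.ϱ * (p 1 - 2 * P.n * p 0) / P.K)

/-- From unit scale coordinates round the centre `j` to the twisted core coordinates. -/
noncomputable def sc (j : ℤ) (x : E4) : E4 :=
  mk4 (P.ϱ * x 0) (P.ϱ * x 1) (P.ϱ * x 2 + j * P.l) (P.ϱ * x 3)

/-- The inverse of `sc`. -/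
noncomputable def usc (j : ℤ) (x : E4) : E4 :=
  mk4 (x 0 / P.ϱ) (x 1 / P.ϱ) (P.zj j x / P.ϱ) (x 3 / P.ϱ)

/-- Deck transformations of the twisted core coordinates. -/
noncomputable def dk (a b : ℤ) (x : E4) : E4 :=
  mk4 (x 0) (x 1) (x 2 + a * (P.K * P.δ)) (x 3 + b * (4 * π * P.ϱ))

/-- The action of a cusp symmetry on the twisted core coordinates. -/
noncomputable def actC (u : Sy) (x : E4) : E4 :=
  rot (4 * π * u.v 0 / P.K) (mk4 (x 0) (((u.e : ℤ) : ℝ) * x 1)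
    (((u.e' : ℤ) : ℝ) * x 2 + 2 * P.δ * u.v 2)
    (((u.e : ℤ) : ℝ) * x 3 + 8 * π * P.ϱ * (u.v 1 - 2 * P.n * u.v 0) / P.K))

end Par

/-- The glued manifold, described by its patches. -/
structure MD (P : Par) (A : Arith P.K) : Type 1 where
  M : Type
  top : TopologicalSpace M
  t2 : T2Space M
  cpt : CompactSpace M
  conn : ConnectedSpace M
  chart : ChartedSpace E4 M
  mfd : IsManifold (𝓡 4) ∞ M
  meas : MeasurableSpace M
  borel : BorelSpace M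
  pO : A.C → E4 → M
  pC : A.C → E4 → M
  pN : A.C → ℤ → ℤˣ → E4 → M
  ptO : ∀ c, Pt (pO c) P.UO
  ptC : ∀ c, Pt (pC c) P.UC
  ptN : ∀ c j e, Pt (pN c j e) UN
  cover : ∀ m, (∃ c, ∃ p ∈ P.UO, pO c p = m) ∨ (∃ c, ∃ x ∈ P.UC, pC c x = m) ∨
    ∃ c j e, ∃ z ∈ UN, pN c j e z = m
  eqO : ∀ c c', ∀ p ∈ P.UO, ∀ p' ∈ P.UO, pO c p = pO c' p' ↔ ∃ τ ∈ A.Tr c c', τ p = p'
  eqC : ∀ c c', ∀ x ∈ P.UC, ∀ x' ∈ P.UC, pC c x = pC c' x' ↔ c = c' ∧ ∃ a b, x' = P.dk a b x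
  eqN : ∀ c c' j j' e e', ∀ z ∈ UN, ∀ z' ∈ UN, pN c j e z = pN c' j' e' z' ↔
    c = c' ∧ (∃ a : ℤ, 2 * (j' - j) = a * P.K) ∧ (e = e' ∧ z' = z ∨ e ≠ e' ∧ u23 z ≠ 0 ∧ z' = P3 z)
  trOC : ∀ c, ∀ p ∈ P.UO, 1 / (3 * P.δ) < p 3 → pC c (P.P1 p) = pO c p
  trCN : ∀ c j (e : ℤˣ), ∀ x ∈ P.UC, P.Rj j x < 4 * P.ϱ → 0 < P.Rj j x + ((e : ℤ) : ℝ) * P.zj j x →
    pN c j e (P2u e (P.usc j x)) = pC c x
  djOC : ∀ c c', ∀ p ∈ P.UO, ∀ x ∈ P.UC, pO c p = pC c' x → c = c' ∧ 1 / (3 * P.δ) < p 3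
  djCN : ∀ c c' j (e : ℤˣ), ∀ x ∈ P.UC, ∀ z ∈ UN, pC c x = pN c' j e z → c = c' ∧
    ∃ j' a : ℤ, 2 * (j' - j) = a * P.K ∧ P.Rj j' x < 4 * P.ϱ ∧
      0 < P.Rj j' x + ((e : ℤ) : ℝ) * P.zj j' x
  djON : ∀ c c' j e, ∀ p ∈ P.UO, ∀ z ∈ UN, pO c p ≠ pN c' j e z

attribute [instance] MD.top MD.t2 MD.cpt MD.conn MD.chart MD.mfd MD.meas MD.borel

/-- The approximate solution on the glued manifold: metric, scale function, symmetries. -/
structure AP {P : Par} {A : Arith P.K} (D : MD P A) : Type where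
  g : D.M → Mat
  s : D.M → ℝ
  S : Set (D.M → D.M)
  good : GoodT g
  gO : ∀ c, ∀ p ∈ P.UO, gpull (D.pO c) g p = P.GO p
  gT : ∀ c j, ∀ x ∈ P.UT, gpull (D.pC c ∘ P.sh j) g x = P.GT x
  gB : ∀ c j x, 1 < R3 x → R3 x < P.l / (20 * P.ϱ) →
    gpull (D.pC c ∘ P.sc j) g x = P.ϱ ^ 2 • GB (P.B * P.ϱ) x
  gN : ∀ c j e, ∀ z ∈ UN, gpull (D.pN c j e) g z = P.ϱ ^ 2 • GN (P.B * P.ϱ) z
  scont : Continuous s
  sO : ∀ c, ∀ p ∈ P.UO, p 3 ≤ 1 / (2 * P.δ) → s (D.pO c p) = 1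
  sC : ∀ c, ∀ x ∈ P.UC, s (D.pC c x) = min 1 (P.Rn x)
  sN : ∀ c j e, ∀ z ∈ UN, s (D.pN c j e z) = P.ϱ * (1 + u01 z)
  iso : ∀ F ∈ S, IsoM g F
  sym : ∀ c (u : Sy), ∃ F ∈ S, ∀ x ∈ P.UC, F (D.pC c x) = D.pC c (P.actC u x)

end Pool.Agent.Lib.MP_94aef8_gt
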