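import Pool.Agent.Lib.MP_94aef8_gt.Defs
import Pool.Agent.Lib.MP_94aef8_gt.B.Geo

/-!
Differential operators on tensor fields in open sets of `E4`. Every operator is the operator of
`Geo` for the ring of all functions on `E4`.
-/

open scoped ContDiff
open Matrix

namespace Pool.Agent.Lib.MP_94aef8_gt

/-- Functions. -/
abbrev Fn : Type := E4 → ℝ

/-- Fields of matrices. -/
abbrev Tn : Type := E4 → Mat

/-- Fields of vectors. -/
abbrev Vn : Type := E4 → Fin 4 → ℝ

/-- A field of matrices as a matrix of functions. -/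
def mf (h : Tn) : MA Fn := Matrix.of fun i j p => h p i j

/-- A matrix of functions as a field of matrices. -/
def fm (M : MA Fn) : Tn := fun p => Matrix.of fun i j => M i j p

/-- A field of vectors as a vector of functions. -/
def vf (X : Vn) : VA Fn := fun i p => X p i

/-- A vector of functions as a field of vectors. -/
def fv (X : VA Fn) : Vn := fun p i => X i p

/-- The pointwise inverse. -/
noncomputable def inv (G : Tn) : Tn := fun p => (G p)⁻¹

/-- The structure attached to a field of metric coefficients. -/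
noncomputable def geo (G : Tn) : Geo Fn := ⟨pd, fun _ => 1 / 2, mf G, mf (inv G)⟩

/-- Smooth on `U`. -/
def SmT (h : Tn) (U : Set E4) : Prop := ∀ i j, ContDiffOn ℝ ∞ (fun p => h p i j) U

/-- Smooth on `U`. -/
def SmV (X : Vn) (U : Set E4) : Prop := ∀ i, ContDiffOn ℝ ∞ (fun p => X p i) U

/-- Smooth and symmetric on `U`. -/
structure SymT (h : Tn) (U : Set E4) : Prop where
  smooth : SmT h U
  symm : ∀ p ∈ U, (h p)ᵀ = h p

/-- A smooth Riemannian metric on the open set `U`. -/
structure Good (G : Tn) (U : Set E4) : Prop where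
  isOpen : IsOpen U
  smooth : SmT G U
  pos : ∀ p ∈ U, (G p).PosDef

/-- The volume density. -/
noncomputable def rho (G : Tn) (p : E4) : ℝ := Real.sqrt (G p).det

/-- Trace. -/
noncomputable def trG (G h : Tn) (p : E4) : ℝ := ((G p)⁻¹ * h p).trace

/-- Scalar curvature. -/
noncomputable def scal (G : Tn) : Fn := trG G (ric G)

/-- The scalar product of bilinear forms given by the matrix `G`. -/
noncomputable def ipM (G h k : Mat) : ℝ := (G⁻¹ * h * G⁻¹ * kᵀ).trace

/-- Scalar product of tensor fields. -/
noncomputable def ipT (G h k : Tn) (p : E4) : ℝ := ipM (G p) (h p) (k p)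

/-- Scalar product of vector fields. -/
noncomputable def ipV (G : Tn) (X Y : Vn) (p : E4) : ℝ := X p ⬝ᵥ G p *ᵥ Y p

/-- Differential. -/
noncomputable def df (f : Fn) : Vn := fun p i => pd i f p

/-- Gradient. -/
noncomputable def grad (G : Tn) (f : Fn) : Vn := fun p => (G p)⁻¹ *ᵥ df f p

/-- Curvature endomorphisms `R(∂_a, ∂_b)`. -/
noncomputable def rm (G : Tn) (a b : Fin 4) : Tn := fm ((geo G).rm a b)

/-- `∇_a h`. -/
noncomputable def nab (G : Tn) (a : Fin 4) (h : Tn) : Tn := fm ((geo G).nab a (mf h))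

/-- `∇²_{a b} h`. -/
noncomputable def nab2 (G : Tn) (a b : Fin 4) (h : Tn) : Tn := fm ((geo G).nab2 a b (mf h))

/-- `∇_X h`. -/
noncomputable def nabX (G : Tn) (X : Vn) (h : Tn) : Tn := fun p => ∑ a, X p a • nab G a h p

/-- `∇^* ∇ h`. -/
noncomputable def rough (G h : Tn) : Tn := fm ((geo G).rough (mf h))

/-- `R° h`. -/
noncomputable def rring (G h : Tn) : Tn := fm ((geo G).rring (mf h))

/-- The Lichnerowicz Laplacian `∇^* ∇ h - 2 R° h + Ric ∘ h + h ∘ Ric`. -/
noncomputable def lich (G h : Tn) : Tn := fm ((geo G).lich (mf h))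

/-- The operator `P = lich + 6`. -/
noncomputable def PP (G h : Tn) : Tn := fun p => lich G h p + (6 : ℝ) • h p

/-- `⟨∇ h, ∇ k⟩`. -/
noncomputable def ipD (G h k : Tn) : Fn := (geo G).ipD (mf h) (mf k)

/-- `cov G X p k i = ∇_i X^k`. -/
noncomputable def cov (G : Tn) (X : Vn) : Tn := fm ((geo G).cov (vf X))

/-- Divergence. -/
noncomputable def dvg (G : Tn) (X : Vn) : Fn := (geo G).dvg (vf X)

/-- Laplacian `div grad`. -/
noncomputable def lap (G : Tn) (f : Fn) : Fn := dvg G (grad G f)

/-- Lie derivative of the metric. -/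
noncomputable def lie (G : Tn) (X : Vn) : Tn := fm ((geo G).lie (vf X))

/-- The one-form `∇^b h_{b j}`. -/
noncomputable def divT (G h : Tn) : Vn := fv ((geo G).divT (mf h))

/-- The Bianchi operator `div h - d tr h / 2`, as a vector field. -/
noncomputable def bian (G h : Tn) : Vn := fv ((geo G).bian (mf h))

/-- `∇^* ∇ X`. -/
noncomputable def roughV (G : Tn) (X : Vn) : Vn := fv ((geo G).roughV (vf X))

/-- The vector field of Green's formula. -/
noncomputable def gX (G h k : Tn) : Vn := fv ((geo G).gX (mf h) (mf k))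

/-- The vector field of Koiso's formula. -/
noncomputable def kX (G h : Tn) : Vn := fv ((geo G).kX (mf h))

/-- The vector field of DeTurck, `(G + h)^{i j} (Γ(G + h) - Γ(G))^k_{i j}`. -/
noncomputable def wv (G h : Tn) : Vn := fv ((geo G).wv (mf h) (mf (inv (G + h))))

/-- `Ric(G + h) - L_W (G + h) / 2`. -/
noncomputable def dt (G h : Tn) : Tn :=
  fun p => ric (G + h) p - (1 / 2 : ℝ) • lie (G + h) (wv G h) p

/-- The gauged Einstein operator. -/
noncomputable def Phi (G h : Tn) : Tn := fun p => dt G h p + (3 : ℝ) • (G p + h p)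

/-- The error term. -/
noncomputable def Err (G : Tn) : Tn := fun p => ric G p + (3 : ℝ) • G p

/-- The first order part of the nonlinear term. -/
noncomputable def qq (G h : Tn) : Tn := fm ((geo G).qq (mf h) (mf (inv (G + h))))

/-- The nonlinear term. -/
noncomputable def QQ (G h : Tn) : Tn := fm ((geo G).QQ (mf h) (mf (inv (G + h))))

/-- The Jacobian matrix. -/
noncomputable def jac (τ : E4 → E4) (p : E4) : Mat :=
  Matrix.of fun i a => pd a (fun y => τ y i) p

/-- Pull back of a field of bilinear forms. -/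
noncomputable def pull (τ : E4 → E4) (h : Tn) : Tn :=
  fun p => (jac τ p)ᵀ * h (τ p) * jac τ p

/-- Pull back of a vector field. -/
noncomputable def pullV (τ : E4 → E4) (X : Vn) : Vn := fun p => (jac τ p)⁻¹ *ᵥ X (τ p)

/-- A smooth map from `U` to `V` with invertible differential. -/
structure LDif (τ : E4 → E4) (U V : Set E4) : Prop where
  isOpen : IsOpen U
  smooth : ContDiffOn ℝ ∞ τ U
  maps : Set.MapsTo τ U V
  det : ∀ p ∈ U, (jac τ p).det ≠ 0

end Pool.Agent.Lib.MP_94aef8_gt
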