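import Pool.Agent.Lib.MP_94aef8_gt.Mod

/-!
Closed manifolds, the geometric parameters, the four symmetries of a ball and the system of balls.
-/

open scoped Manifold ContDiff Topology ENNReal
open Matrix Filter Set MeasureTheory Real

namespace Pool.Agent.Lib.MP_94aef8_gt

/-- Closed connected smooth 4-manifolds. -/
structure CM : Type 1 where
  M : Type
  top : TopologicalSpace M
  t2 : T2Space M
  cpt : CompactSpace M
  conn : ConnectedSpace M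
  chart : ChartedSpace E4 M
  mfd : IsManifold (𝓡 4) ∞ M
  meas : MeasurableSpace M
  borel : BorelSpace M

attribute [instance] CM.top CM.t2 CM.cpt CM.conn CM.chart CM.mfd CM.meas CM.borel

/-- The geometric parameters for given `K` and `n`. -/
noncomputable def par (K n : ℕ) : Par :=
  ⟨K, n, 4 * π / (3 * K * √(1 + 4 * (n : ℝ) ^ 2)), 1 / (3 * (1 + 4 * (n : ℝ) ^ 2))⟩

/-- Translation of the last coordinate. -/
noncomputable def tsh (a : ℝ) (x : E4) : E4 := mk4 (x 0) (x 1) (x 2) (x 3 + a)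

/-- The reflection `diag(1, -1, 1, -1)`. -/
noncomputable def fl1 (x : E4) : E4 := mk4 (x 0) (-x 1) (x 2) (-x 3)

/-- The reflection `diag(1, 1, -1, 1)`. -/
noncomputable def fl2 (x : E4) : E4 := mk4 (x 0) (x 1) (-x 2) (x 3)

/-- The four symmetries of a ball. -/
def Four (k : ℝ) : Set (E4 → E4) := {tsh (4 * π / k), rot (2 * π / k), fl1, fl2}

/-- The shell `1 < R < T`. -/
def OT (T : ℝ) : Set E4 := {x | 1 < R3 x ∧ R3 x < T}

/-- The part of the shell over one period of the last coordinate. -/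
def OP (T t : ℝ) : Set E4 := {x | x ∈ OT T ∧ t ≤ x 3 ∧ x 3 < t + 4 * π}

section

variable {M : Type} [TopologicalSpace M] [ChartedSpace E4 M]

/-- `⟨h, k⟩`. -/
noncomputable def ipg (g h k : M → Mat) (x : M) : ℝ := ipM (g x) (h x) (k x)

/-- The components of the metric in the patch `Θ` of scale `σ` are controlled by `C`. -/
structure GPt (g : M → Mat) (s : M → ℝ) (C : ℝ) (Θ : E4 → M) (σ : ℝ) : Prop where
  pt : Pt Θ (Q 3)
  σpos : 0 < σ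
  σle : σ ≤ 1
  good : GoodB C fun y => (σ ^ 2)⁻¹ • gpull Θ g y
  sle : ∀ y ∈ Q 3, s (Θ y) ≤ C * σ
  sge : ∀ y ∈ Q 3, σ ≤ C * s (Θ y)

variable [MeasurableSpace M]

/-- The balls round the bubbles, with the coercivity estimate. The constants `C`, `A` are
absolute; `ϱ` is the radius of the bolts, `β` the twist rate, `T` the radius of the shells in
units `ϱ`, `k` the order of the symmetries. -/
structure BSys (g : M → Mat) (s : M → ℝ) (S : Set (M → M)) (C A ϱ β T k κ s0 : ℝ) {B : Type}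
    [Fintype B] (U : B → Set M) (Ψ : B → E4 → M) : Prop where
  cont : Continuous s
  pos : ∀ x, 0 < s x
  le1 : ∀ x, s x ≤ 1
  meas : ∀ b, MeasurableSet (U b)
  disj : Pairwise fun b b' => Disjoint (U b) (U b')
  small : ∀ x, s x < A * ϱ → ∃ b, x ∈ U b
  pt : ∀ b, Pt (Ψ b) (OT T)
  gΨ : ∀ b, ∀ x ∈ OT T, gpull (Ψ b) g x = ϱ ^ 2 • GB β x
  sΨ : ∀ b, ∀ x ∈ OT T, s (Ψ b x) = ϱ * R3 x
  mem : ∀ b, ∀ x ∈ OT T, Ψ b x ∈ U b
  sym : ∀ b, ∀ τ ∈ Four k, ∃ F ∈ S, ∀ x ∈ OT T, F (Ψ b x) = Ψ b (τ x)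
  u1 : ∀ b (F : M → ℝ≥0∞), Measurable F → ∫⁻ x in U b ∩ {x | s x < A * ϱ}, F x ∂volT g ≤
    ENNReal.ofReal (ϱ ^ 4) * ∫⁻ y in OP A 0, F (Ψ b y)
  u2 : ∀ b t (F : M → ℝ≥0∞), Measurable F →
    ENNReal.ofReal (ϱ ^ 4) * ∫⁻ y in OP T t, F (Ψ b y) ≤ ∫⁻ x in U b, F x ∂volT g
  p5 : ∀ b, ∀ x ∈ OT T, ∃ Θ σ, GPt g s C Θ σ ∧ Θ 0 = Ψ b x ∧ ∀ F : M → ℝ≥0∞, Measurable F →
    ∫⁻ y in Q 2, F (Θ y) ≤ ENNReal.ofReal (C * (ϱ * σ ^ 3)⁻¹) * ∫⁻ z in U b, F z ∂volT g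
  co : ∀ h, SmG h → (∀ x, (h x).IsSymm) →
    κ ^ 2 * ∫ x, (s x ^ 2)⁻¹ * n0 g h x ∂volT g +
        ∑ b, ∫ x in U b, ((s x * (1 + s x / s0)) ^ 2)⁻¹ * n0 g h x ∂volT g ≤
      C * ∫ x, ipg g (GP g h) h x ∂volT g +
        C ^ 2 * (ϱ ^ 2)⁻¹ * ∫ x in {x | s x < A * ϱ}, n0 g h x ∂volT g

end

end Pool.Agent.Lib.MP_94aef8_gt
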